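import Pool.Agent.Helper12.Basics

/-!
MP_ecbc8a_al, packet 9 (Hall-Higman centraliser lemmas, locally finite version).
-/

set_option autoImplicit false

namespace Pool.Agent.Helper12.TwoLen

section general

variable {G : Type*} [Group G]

/-- A nontrivial normal subgroup with `rho^[m] C = ⊥` contains a nontrivial normal subgroup which
is a 2-group or an odd group. -/
theorem exists_homogeneous (hG : Tor G) {C : Subgroup G} (hC : Nrm ⊤ C) (hne : C ≠ ⊥)
    {m : ℕ} (hm : rho^[m] C = ⊥) :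
    ∃ T : Subgroup G, T ≤ C ∧ Nrm ⊤ T ∧ T ≠ ⊥ ∧ (Is2 T ∨ IsO T) := by
  classical
  have hex : ∃ m, rho^[m] C = ⊥ := ⟨m, hm⟩
  have hspec := Nat.find_spec hex
  obtain ⟨j, hj⟩ : ∃ j, Nat.find hex = j + 1 := by
    rcases Nat.eq_zero_or_eq_succ_pred (Nat.find hex) with h | h
    · rw [h] at hspec
      exact absurd (by simpa using hspec) hne
    · exact ⟨_, h⟩
  have hjne : rho^[j] C ≠ ⊥ := Nat.find_min hex (by omega)
  rw [hj, Function.iterate_succ_apply'] at hspec
  set T0 := rho^[j] C with hT0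
  have hT0C : T0 ≤ C := rhoIter_le j C
  have hT0N : Nrm ⊤ T0 := hC.rhoIter j
  by_cases h : opi T0 = ⊥
  · exact ⟨T0, hT0C, hT0N, hjne, Or.inl (Is2_of_opi_eq_bot hG h)⟩
  · exact ⟨opi T0, (opi_le _).trans hT0C, hT0N.opi, h, Or.inr (IsO_of_tau_eq_bot hG hspec)⟩

theorem index_center_pow {F : Type*} [Group F] [Finite F]
    (h : ∀ g : F, ∃ k : ℕ, g ^ (2 ^ k : ℕ) ∈ Subgroup.center F) :
    ∃ n : ℕ, (Subgroup.center F).index = 2 ^ n := by
  have hp : IsPGroup 2 (F ⧸ Subgroup.center F) := by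
    intro g
    obtain ⟨g, rfl⟩ := QuotientGroup.mk_surjective g
    obtain ⟨k, hk⟩ := h g
    exact ⟨k, by rw [← QuotientGroup.mk_pow]; exact (QuotientGroup.eq_one_iff _).2 hk⟩
  obtain ⟨n, hn⟩ := (IsPGroup.iff_card (p := 2)).1 hp
  exact ⟨n, hn⟩

theorem index_center_odd {F : Type*} [Group F] [Finite F]
    (h : ∀ g : F, ∃ m : ℕ, Odd m ∧ g ^ m ∈ Subgroup.center F) :
    Odd (Subgroup.center F).index := by
  by_contra hodd
  rw [Nat.not_odd_iff_even] at hodd
  have h2 : 2 ∣ Nat.card (F ⧸ Subgroup.center F) := hodd.two_dvd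
  obtain ⟨x, hx⟩ := exists_prime_orderOf_dvd_card' 2 h2
  obtain ⟨g, rfl⟩ := QuotientGroup.mk_surjective x
  obtain ⟨m, hm, hgm⟩ := h g
  have h1 : (g : F ⧸ Subgroup.center F) ^ m = 1 := by
    rw [← QuotientGroup.mk_pow]; exact (QuotientGroup.eq_one_iff _).2 hgm
  have h3 := orderOf_dvd_of_pow_eq_one h1
  rw [hx] at h3
  exact (Nat.not_even_iff_odd.2 hm) (even_iff_two_dvd.2 h3)

theorem mul_pow_index_center {F : Type*} [Group F] [Finite F] (x y : F) :
    (x * y) ^ (Subgroup.center F).index =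
      x ^ (Subgroup.center F).index * y ^ (Subgroup.center F).index := by
  have h := map_mul (MonoidHom.transferCenterPow F) x y
  have h1 := congrArg (Subtype.val) h
  rw [Subgroup.coe_mul, MonoidHom.transferCenterPow_apply, MonoidHom.transferCenterPow_apply,
    MonoidHom.transferCenterPow_apply] at h1
  exact h1

theorem pow_index_center_mem {F : Type*} [Group F] [Finite F] (x : F) :
    x ^ (Subgroup.center F).index ∈ Subgroup.center F :=
  Subgroup.pow_index_mem _ x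

/-- product of 2-elements, modulo the centre a 2-group -/
theorem E2_mul_of_center (hG : LocFin G) {J : Subgroup G}
    (hJ : ∀ j ∈ J, ∃ k : ℕ, ∀ x ∈ J, j ^ (2 ^ k : ℕ) * x = x * j ^ (2 ^ k : ℕ))
    {x y : G} (hx : x ∈ J) (hy : y ∈ J) (hx2 : E2 x) (hy2 : E2 y) : E2 (x * y) := by
  set F : Subgroup G := Subgroup.closure {x, y} with hF
  have hFfin : Finite F := hG F ((Subgroup.fg_iff _).2 ⟨{x, y}, hF.symm, Set.toFinite _⟩)
  have hFJ : F ≤ J := (Subgroup.closure_le _).2 (by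
    rintro z (rfl | rfl)
    · exact hx
    · exact hy)
  have hxF : x ∈ F := Subgroup.subset_closure (by simp)
  have hyF : y ∈ F := Subgroup.subset_closure (by simp)
  obtain ⟨n, hn⟩ := index_center_pow (F := F) (by
    intro g
    obtain ⟨k, hk⟩ := hJ g (hFJ g.2)
    refine ⟨k, Subgroup.mem_center_iff.2 fun z => ?_⟩
    ext
    simpa using (hk z (hFJ z.2)).symm)
  have h1 := mul_pow_index_center (⟨x, hxF⟩ : F) ⟨y, hyF⟩
  have h2 := pow_index_center_mem (⟨x, hxF⟩ : F)
  rw [hn] at h1 h2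
  have h1' : (x * y) ^ (2 ^ n : ℕ) = x ^ (2 ^ n : ℕ) * y ^ (2 ^ n : ℕ) := by
    simpa using congrArg Subtype.val h1
  have h2' : Commute (x ^ (2 ^ n : ℕ)) (y ^ (2 ^ n : ℕ)) := by
    have h3 := Subgroup.mem_center_iff.1 h2 ((⟨y, hyF⟩ : F) ^ (2 ^ n : ℕ))
    have h4 := congrArg Subtype.val h3
    simp only [Subgroup.coe_mul, Subgroup.coe_pow] at h4
    exact h4.symm
  obtain ⟨a, ha⟩ := hx2.pow (2 ^ n)
  obtain ⟨b, hb⟩ := hy2.pow (2 ^ n)
  refine E2.of_pow (k := n) ⟨a + b, ?_⟩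
  rw [h1', h2'.mul_pow, pow_add, pow_mul, ha, one_pow, one_mul, mul_comm (2 ^ a), pow_mul, hb,
    one_pow]

/-- product of odd elements, modulo the centre odd -/
theorem EO_mul_of_center (hG : LocFin G) {J : Subgroup G}
    (hJ : ∀ j ∈ J, ∃ m : ℕ, Odd m ∧ ∀ x ∈ J, j ^ m * x = x * j ^ m)
    {x y : G} (hx : x ∈ J) (hy : y ∈ J) (hx2 : EO x) (hy2 : EO y) : EO (x * y) := by
  set F : Subgroup G := Subgroup.closure {x, y} with hF
  have hFfin : Finite F := hG F ((Subgroup.fg_iff _).2 ⟨{x, y}, hF.symm, Set.toFinite _⟩)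
  have hFJ : F ≤ J := (Subgroup.closure_le _).2 (by
    rintro z (rfl | rfl)
    · exact hx
    · exact hy)
  have hxF : x ∈ F := Subgroup.subset_closure (by simp)
  have hyF : y ∈ F := Subgroup.subset_closure (by simp)
  have hn := index_center_odd (F := F) (by
    intro g
    obtain ⟨m, hm, hk⟩ := hJ g (hFJ g.2)
    refine ⟨m, hm, Subgroup.mem_center_iff.2 fun z => ?_⟩
    ext
    simpa using (hk z (hFJ z.2)).symm)
  have h1 := mul_pow_index_center (⟨x, hxF⟩ : F) ⟨y, hyF⟩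
  have h2 := pow_index_center_mem (⟨x, hxF⟩ : F)
  set n := (Subgroup.center F).index with hn'
  have h1' : (x * y) ^ n = x ^ n * y ^ n := by
    simpa using congrArg Subtype.val h1
  have h2' : Commute (x ^ n) (y ^ n) := by
    have h3 := Subgroup.mem_center_iff.1 h2 ((⟨y, hyF⟩ : F) ^ n)
    have h4 := congrArg Subtype.val h3
    simp only [Subgroup.coe_mul, Subgroup.coe_pow] at h4
    exact h4.symm
  obtain ⟨a, hao, ha⟩ := hx2.pow n
  obtain ⟨b, hbo, hb⟩ := hy2.pow n
  refine EO.of_pow hn ⟨a * b, hao.mul hbo, ?_⟩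
  rw [h1', h2'.mul_pow, pow_mul, ha, one_pow, one_mul, mul_comm a, pow_mul, hb, one_pow]

/-- the subgroup of 2-elements of `J`. -/
def e2sub (hG : LocFin G) (J : Subgroup G)
    (hJ : ∀ j ∈ J, ∃ k : ℕ, ∀ x ∈ J, j ^ (2 ^ k : ℕ) * x = x * j ^ (2 ^ k : ℕ)) : Subgroup G where
  carrier := {x | x ∈ J ∧ E2 x}
  one_mem' := ⟨J.one_mem, E2.one⟩
  mul_mem' := fun {_ _} ha hb => ⟨J.mul_mem ha.1 hb.1, E2_mul_of_center hG hJ ha.1 hb.1 ha.2 hb.2⟩
  inv_mem' := fun {_} ha => ⟨J.inv_mem ha.1, ha.2.inv⟩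

/-- the subgroup of odd elements of `J`. -/
def eosub (hG : LocFin G) (J : Subgroup G)
    (hJ : ∀ j ∈ J, ∃ m : ℕ, Odd m ∧ ∀ x ∈ J, j ^ m * x = x * j ^ m) : Subgroup G where
  carrier := {x | x ∈ J ∧ EO x}
  one_mem' := ⟨J.one_mem, EO.one⟩
  mul_mem' := fun {_ _} ha hb => ⟨J.mul_mem ha.1 hb.1, EO_mul_of_center hG hJ ha.1 hb.1 ha.2 hb.2⟩
  inv_mem' := fun {_} ha => ⟨J.inv_mem ha.1, ha.2.inv⟩

end general

theorem hhb : HHb := by
  intro M _ hM hrho P hPn hPO hPmax hno2
  obtain ⟨m, hm⟩ := hrho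
  have hT := hM.tor
  set C : Subgroup M := Subgroup.centralizer (P : Set M) with hC
  have hCn : C.Normal := inferInstance
  suffices h : C ≤ P by
    intro x hx
    exact h (Subgroup.mem_centralizer_iff.2 fun p hp => (hx p hp).symm)
  by_contra hCP
  have hcomm : ∀ c ∈ C, ∀ p ∈ P, p * c = c * p := fun c hc p hp =>
    Subgroup.mem_centralizer_iff.1 hc p hp
  set q := QuotientGroup.mk' P with hq
  have hqs : Function.Surjective q := QuotientGroup.mk'_surjective P
  have hker : ∀ x : M, q x = 1 ↔ x ∈ P := fun x => QuotientGroup.eq_one_iff x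
  have htorQ : Tor (M ⧸ P) := by
    intro y
    obtain ⟨x, rfl⟩ := hqs y
    exact MonoidHom.isOfFinOrder q (hT x)
  have hCb : (C.map q).Normal := hCn.map q hqs
  have hCbne : C.map q ≠ ⊥ := by
    intro h
    apply hCP
    intro x hx
    have : q x ∈ C.map q := ⟨x, hx, rfl⟩
    rw [h, Subgroup.mem_bot, hker] at this
    exact this
  have hrhoQ : rho^[m] (C.map q) = ⊥ := by
    rw [← map_rhoIter hT q m C, Subgroup.map_eq_bot_iff]
    have := (rhoIter_mono m (le_top : C ≤ ⊤)).trans hm.le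
    exact this.trans bot_le
  obtain ⟨T, hTC, hTN, hTne, hTt⟩ :=
    exists_homogeneous htorQ (C := C.map q) Nrm.of_normal hCbne hrhoQ
  have hTn : T.Normal := normal_of_nrm_top hTN
  rcases hTt with hT2 | hTO
  · -- T is a 2-group
    set J : Subgroup M := C ⊓ T.comap q with hJ
    have hTcn : (T.comap q).Normal := hTn.comap q
    have hJn : J.Normal := inferInstance
    have hpow : ∀ j ∈ J, ∃ k : ℕ, j ^ (2 ^ k : ℕ) ∈ P := by
      intro j hj
      obtain ⟨k, hk⟩ := hT2 (q j) hj.2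
      rw [← map_pow, hker] at hk
      exact ⟨k, hk⟩
    have hJc : ∀ j ∈ J, ∃ k : ℕ, ∀ x ∈ J, j ^ (2 ^ k : ℕ) * x = x * j ^ (2 ^ k : ℕ) := by
      intro j hj
      obtain ⟨k, hk⟩ := hpow j hj
      exact ⟨k, fun x hx => hcomm x hx.1 _ hk⟩
    have hE : e2sub hM J hJc = ⊥ := by
      apply hno2
      · refine ⟨fun n hn g => ⟨hJn.conj_mem n hn.1 g, hn.2.conj g⟩⟩
      · intro x hx; exact hx.2
    have hJO : IsO J := by
      intro j hj
      refine EO_of_not_dvd (hT j) fun r hr => ?_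
      have : j ^ r ∈ e2sub hM J hJc := ⟨J.pow_mem hj r, hr⟩
      rw [hE] at this
      exact this
    have hJP : J ≤ P := hPmax J hJn hJO
    apply hTne
    rw [eq_bot_iff]
    intro t ht
    obtain ⟨c, hc, rfl⟩ := hTC ht
    have : c ∈ P := hJP ⟨hc, ht⟩
    rw [Subgroup.mem_bot]
    exact (hker c).2 this
  · -- T odd
    have hTcn : (T.comap q).Normal := hTn.comap q
    have hO : IsO (T.comap q) := by
      intro x hx
      obtain ⟨k, hko, hk⟩ := hTO (q x) hx
      rw [← map_pow, hker] at hk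
      exact EO.of_pow hko (hPO _ hk)
    have := hPmax _ hTcn hO
    apply hTne
    rw [eq_bot_iff]
    intro t ht
    obtain ⟨x, rfl⟩ := hqs t
    rw [Subgroup.mem_bot]
    exact (hker x).2 (this ht)

theorem hha : HHa := by
  intro M _ hM hrho P hPn hP2 hPmax hnoO
  obtain ⟨m, hm⟩ := hrho
  have hT := hM.tor
  set C : Subgroup M := Subgroup.centralizer (P : Set M) with hC
  have hCn : C.Normal := inferInstance
  suffices h : C ≤ P by
    intro x hx
    exact h (Subgroup.mem_centralizer_iff.2 fun p hp => (hx p hp).symm)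
  by_contra hCP
  have hcomm : ∀ c ∈ C, ∀ p ∈ P, p * c = c * p := fun c hc p hp =>
    Subgroup.mem_centralizer_iff.1 hc p hp
  set q := QuotientGroup.mk' P with hq
  have hqs : Function.Surjective q := QuotientGroup.mk'_surjective P
  have hker : ∀ x : M, q x = 1 ↔ x ∈ P := fun x => QuotientGroup.eq_one_iff x
  have htorQ : Tor (M ⧸ P) := by
    intro y
    obtain ⟨x, rfl⟩ := hqs y
    exact MonoidHom.isOfFinOrder q (hT x)
  have hCb : (C.map q).Normal := hCn.map q hqs
  have hCbne : C.map q ≠ ⊥ := by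
    intro h
    apply hCP
    intro x hx
    have : q x ∈ C.map q := ⟨x, hx, rfl⟩
    rw [h, Subgroup.mem_bot, hker] at this
    exact this
  have hrhoQ : rho^[m] (C.map q) = ⊥ := by
    rw [← map_rhoIter hT q m C, Subgroup.map_eq_bot_iff]
    have := (rhoIter_mono m (le_top : C ≤ ⊤)).trans hm.le
    exact this.trans bot_le
  obtain ⟨T, hTC, hTN, hTne, hTt⟩ :=
    exists_homogeneous htorQ (C := C.map q) Nrm.of_normal hCbne hrhoQ
  have hTn : T.Normal := normal_of_nrm_top hTN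
  rcases hTt with hT2 | hTO
  · -- T is a 2-group
    have hTcn : (T.comap q).Normal := hTn.comap q
    have hO : Is2 (T.comap q) := by
      intro x hx
      obtain ⟨k, hk⟩ := hT2 (q x) hx
      rw [← map_pow, hker] at hk
      exact E2.of_pow (hP2 _ hk)
    have := hPmax _ hTcn hO
    apply hTne
    rw [eq_bot_iff]
    intro t ht
    obtain ⟨x, rfl⟩ := hqs t
    rw [Subgroup.mem_bot]
    exact (hker x).2 (this ht)
  · -- T odd
    set J : Subgroup M := C ⊓ T.comap q with hJ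
    have hTcn : (T.comap q).Normal := hTn.comap q
    have hJn : J.Normal := inferInstance
    have hpow : ∀ j ∈ J, ∃ m : ℕ, Odd m ∧ j ^ m ∈ P := by
      intro j hj
      obtain ⟨k, hko, hk⟩ := hTO (q j) hj.2
      rw [← map_pow, hker] at hk
      exact ⟨k, hko, hk⟩
    have hJc : ∀ j ∈ J, ∃ m : ℕ, Odd m ∧ ∀ x ∈ J, j ^ m * x = x * j ^ m := by
      intro j hj
      obtain ⟨k, hko, hk⟩ := hpow j hj
      exact ⟨k, hko, fun x hx => hcomm x hx.1 _ hk⟩
    have hE : eosub hM J hJc = ⊥ := by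
      apply hnoO
      · refine ⟨fun n hn g => ⟨hJn.conj_mem n hn.1 g, hn.2.conj g⟩⟩
      · intro x hx; exact hx.2
    have hJO : Is2 J := by
      intro j hj
      refine E2_of_not_dvd (hT j) fun r hr => ?_
      have : j ^ r ∈ eosub hM J hJc := ⟨J.pow_mem hj r, hr⟩
      rw [hE] at this
      exact this
    have hJP : J ≤ P := hPmax J hJn hJO
    apply hTne
    rw [eq_bot_iff]
    intro t ht
    obtain ⟨c, hc, rfl⟩ := hTC ht
    have : c ∈ P := hJP ⟨hc, ht⟩
    rw [Subgroup.mem_bot]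
    exact (hker c).2 this

end Pool.Agent.Helper12.TwoLen
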