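import Pool.Agent.Helper40.HH

/-!
MP_ecbc8a_al, packet 4 (reduction from 2-soluble to soluble groups).
-/

set_option autoImplicit false

namespace Pool.Agent.Helper12.TwoLen

section tn

variable {G G' : Type*} [Group G] [Group G'] {H K L : Subgroup G}

/-- `t_n(H)`. -/
def tn (n : ℕ) (H : Subgroup G) : Subgroup G := rho^[n] (tau H)

theorem tn_succ (n : ℕ) (H : Subgroup G) : tn (n + 1) H = rho (tn n H) :=
  Function.iterate_succ_apply' _ _ _

theorem tau_tn (n : ℕ) (H : Subgroup G) : tau (tn n H) = tn n H := by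
  cases n with
  | zero => exact tau_idem H
  | succ n => rw [tn_succ]; exact tau_rho _

theorem tn_mono (n : ℕ) (h : H ≤ K) : tn n H ≤ tn n K := rhoIter_mono n (tau_mono h)

theorem tn_le (n : ℕ) (H : Subgroup G) : tn n H ≤ H := (rhoIter_le n _).trans (tau_le H)

theorem map_tn (hG : Tor G) (f : G →* G') (n : ℕ) (H : Subgroup G) :
    (tn n H).map f = tn n (H.map f) := by
  rw [tn, map_rhoIter hG, map_tau hG, tn]

theorem map_tn_of_injective (f : G →* G') (hf : Function.Injective f) (n : ℕ) (H : Subgroup G) :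
    (tn n H).map f = tn n (H.map f) := by
  rw [tn, map_rhoIter_of_injective f hf, map_tau_of_injective f hf, tn]

theorem Nrm.tn {A : Subgroup G} (h : Nrm A H) (n : ℕ) : Nrm A (TwoLen.tn n H) := h.tau.rhoIter n

theorem tn_eq_bot_of_le_IsO (n : ℕ) (h : tn n H ≤ L) (hL : IsO L) : tn n H = ⊥ := by
  rw [← tau_tn, tau_eq_bot_of_IsO (hL.mono h)]

end tn

section fin

variable {G : Type*} [Group G] [Finite G]

theorem card_odd_of_IsO {L : Subgroup G} (h : IsO L) : Odd (Nat.card L) := by
  by_contra hodd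
  rw [Nat.not_odd_iff_even] at hodd
  obtain ⟨x, hx⟩ := exists_prime_orderOf_dvd_card' (G := L) 2 hodd.two_dvd
  obtain ⟨m, hm, e⟩ := h x x.2
  have h1 : x ^ m = 1 := by ext; simpa using e
  have h3 := orderOf_dvd_of_pow_eq_one h1
  rw [hx] at h3
  exact (Nat.not_even_iff_odd.2 hm) (even_iff_two_dvd.2 h3)

theorem isPGroup_of_Is2 {L : Subgroup G} (h : Is2 L) : IsPGroup 2 L := by
  intro x
  obtain ⟨k, hk⟩ := h x x.2
  exact ⟨k, by ext; simpa using hk⟩

theorem Is2_of_isPGroup {L : Subgroup G} (h : IsPGroup 2 L) : Is2 L := by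
  intro x hx
  obtain ⟨k, hk⟩ := h ⟨x, hx⟩
  exact ⟨k, by simpa using congrArg Subtype.val hk⟩

theorem exists_maxO : ∃ L : Subgroup G, L.Normal ∧ IsO L ∧
    ∀ Q : Subgroup G, Q.Normal → IsO Q → Q ≤ L := by
  obtain ⟨L, hL⟩ := Set.Finite.exists_maximal (s := {L : Subgroup G | L.Normal ∧ IsO L})
    (Set.toFinite _) ⟨⊥, inferInstance, IsO.bot⟩
  refine ⟨L, hL.1.1, hL.1.2, fun Q hQn hQ => ?_⟩
  have := hL.1.1
  have h2 : L ⊔ Q ∈ {L : Subgroup G | L.Normal ∧ IsO L} :=
    ⟨inferInstance, hL.1.2.sup_of_nrm hQ Nrm.of_normal⟩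
  exact le_sup_right.trans (hL.2 h2 le_sup_left)

theorem exists_max2 : ∃ L : Subgroup G, L.Normal ∧ Is2 L ∧
    ∀ Q : Subgroup G, Q.Normal → Is2 Q → Q ≤ L := by
  obtain ⟨L, hL⟩ := Set.Finite.exists_maximal (s := {L : Subgroup G | L.Normal ∧ Is2 L})
    (Set.toFinite _) ⟨⊥, inferInstance, Is2.bot⟩
  refine ⟨L, hL.1.1, hL.1.2, fun Q hQn hQ => ?_⟩
  have := hL.1.1
  have h2 : L ⊔ Q ∈ {L : Subgroup G | L.Normal ∧ Is2 L} :=
    ⟨inferInstance, hL.1.2.sup_of_nrm hQ Nrm.of_normal⟩
  exact le_sup_right.trans (hL.2 h2 le_sup_left)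

theorem index_dvd_of_sup_eq_top {Y L : Subgroup G} [L.Normal] (h : Y ⊔ L = ⊤) :
    Y.index ∣ Nat.card L := by
  have h1 : L.index = L.relIndex Y := by
    rw [← Subgroup.relIndex_sup_right Y L, h, Subgroup.relIndex_top_right]
  have h2 := Subgroup.card_mul_index Y
  have h3 := Subgroup.card_mul_index L
  have h4 : Nat.card (L.subgroupOf Y) * L.relIndex Y = Nat.card Y :=
    Subgroup.card_mul_index (L.subgroupOf Y)
  have h5 : L.relIndex Y ≠ 0 := by
    rw [← h1]; exact Subgroup.index_ne_zero_of_finite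
  refine ⟨Nat.card (L.subgroupOf Y), ?_⟩
  apply Nat.eq_of_mul_eq_mul_right (Nat.pos_of_ne_zero h5)
  calc Nat.card L * L.relIndex Y = Nat.card G := by rw [← h1, h3]
    _ = Nat.card Y * Y.index := h2.symm
    _ = Y.index * Nat.card (L.subgroupOf Y) * L.relIndex Y := by rw [← h4]; ring

theorem index_odd_of_sup_eq_top {Y L : Subgroup G} [L.Normal] (hL : IsO L) (h : Y ⊔ L = ⊤) :
    Odd Y.index :=
  Odd.of_dvd_nat (card_odd_of_IsO hL) (index_dvd_of_sup_eq_top h)

/-- commuting of a normalised 2-group and a normalised odd group -/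
theorem comm_of_nrm {T O Y : Subgroup G} (hT : Is2 T) (hO : IsO O) (hTY : T ≤ Y) (hOY : O ≤ Y)
    (hYT : Nrm Y T) (hYO : Nrm Y O) : ∀ t ∈ T, ∀ o ∈ O, t * o = o * t := by
  intro t ht o ho
  have h1 : t * o * t⁻¹ * o⁻¹ ∈ O := O.mul_mem (hYO t (hTY ht) o ho) (O.inv_mem ho)
  have h2 : t * o * t⁻¹ * o⁻¹ ∈ T := by
    have : t * (o * t⁻¹ * o⁻¹) ∈ T := T.mul_mem ht (hYT o (hOY ho) _ (T.inv_mem ht))
    simpa [mul_assoc] using this
  have h3 : t * o * t⁻¹ * o⁻¹ = 1 := eq_one_of_E2_EO (hT _ h2) (hO _ h1)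
  have h4 : t * o * t⁻¹ = o := mul_inv_eq_one.1 h3
  exact mul_inv_eq_iff_eq_mul.1 h4

/-- Two 2-elements congruent modulo a normal odd subgroup are conjugate. -/
theorem conj_of_congr {L : Subgroup G} [L.Normal] (hL : IsO L) {c d : G} (hc : E2 c) (hd : E2 d)
    (h : c⁻¹ * d ∈ L) : ∃ g : G, g * c * g⁻¹ = d := by
  classical
  have : Fact (Nat.Prime 2) := ⟨Nat.prime_two⟩
  set H : Subgroup G := Subgroup.zpowers c ⊔ L with hH
  have hcH : c ∈ H := le_sup_left (a := Subgroup.zpowers c) (Subgroup.mem_zpowers c)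
  have hLH : L ≤ H := le_sup_right
  have hdH : d ∈ H := by
    have : d = c * (c⁻¹ * d) := by group
    rw [this]; exact H.mul_mem hcH (hLH h)
  set L' : Subgroup H := L.subgroupOf H with hL'
  have : L'.Normal := inferInstance
  have hL'O : IsO L' := by
    intro x hx
    obtain ⟨m, hm, e⟩ := hL x hx
    exact ⟨m, hm, by ext; simpa using e⟩
  set c' : H := ⟨c, hcH⟩ with hc'
  set d' : H := ⟨d, hdH⟩ with hd'
  have hsup : ∀ e : G, (he : e ∈ H) → c⁻¹ * e ∈ L →
      Subgroup.zpowers (⟨e, he⟩ : H) ⊔ L' = ⊤ := by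
    intro e he hce
    have h1 : (Subgroup.zpowers (⟨e, he⟩ : H) ⊔ L').map H.subtype = H := by
      rw [Subgroup.map_sup, MonoidHom.map_zpowers, hL', Subgroup.subgroupOf_map_subtype,
        inf_eq_left.2 hLH]
      apply le_antisymm
      · apply sup_le _ hLH
        rw [Subgroup.zpowers_le]
        exact he
      · refine hH.le.trans (sup_le ?_ le_sup_right)
        rw [Subgroup.zpowers_le]
        have : c = e * (c⁻¹ * e)⁻¹ := by group
        rw [this]
        exact Subgroup.mul_mem_sup (Subgroup.mem_zpowers _) (L.inv_mem hce)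
    rw [eq_top_iff]
    intro x _
    have : (x : G) ∈ (Subgroup.zpowers (⟨e, he⟩ : H) ⊔ L').map H.subtype := by
      rw [h1]; exact x.2
    obtain ⟨y, hy, hyx⟩ := this
    have : y = x := Subtype.ext hyx
    rwa [← this]
  have hsyl : ∀ e : G, (he : e ∈ H) → c⁻¹ * e ∈ L → E2 e →
      ∃ S : Sylow 2 H, (S : Subgroup H) = Subgroup.zpowers (⟨e, he⟩ : H) := by
    intro e he hce he2
    have hp : IsPGroup 2 (Subgroup.zpowers (⟨e, he⟩ : H)) := by
      apply isPGroup_of_Is2
      intro x hx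
      obtain ⟨i, rfl⟩ := Subgroup.mem_zpowers_iff.1 hx
      obtain ⟨k, hk⟩ := he2
      refine ⟨k, ?_⟩
      have : (⟨e, he⟩ : H) ^ (2 ^ k : ℕ) = 1 := by ext; simpa using hk
      rw [← zpow_natCast, ← zpow_mul, mul_comm, zpow_mul, zpow_natCast, this, one_zpow]
    have hi : ¬ 2 ∣ (Subgroup.zpowers (⟨e, he⟩ : H)).index := by
      have := index_odd_of_sup_eq_top hL'O (hsup e he hce)
      intro h2
      exact (Nat.not_even_iff_odd.2 this) (even_iff_two_dvd.2 h2)
    exact ⟨hp.toSylow hi, rfl⟩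
  obtain ⟨S, hS⟩ := hsyl c hcH (by simp) hc
  obtain ⟨T, hT⟩ := hsyl d hdH h hd
  obtain ⟨g, hg⟩ := MulAction.exists_smul_eq H S T
  have h1 : g * c' * g⁻¹ ∈ Subgroup.zpowers d' := by
    rw [← hT, ← hg]
    rw [Sylow.coe_subgroup_smul]
    have : c' ∈ (S : Subgroup H) := by rw [hS]; exact Subgroup.mem_zpowers _
    exact Subgroup.smul_mem_pointwise_smul c' (MulAut.conj g) _ this
  obtain ⟨j, hj⟩ := Subgroup.mem_zpowers_iff.1 h1
  -- modulo L
  have h2 : ∀ x ∈ H, x * c * x⁻¹ * c⁻¹ ∈ L := by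
    intro x hx
    set q := QuotientGroup.mk' L with hq
    have hq1 : ∀ y : G, q y = 1 ↔ y ∈ L := fun y => QuotientGroup.eq_one_iff y
    have hxz : q x ∈ Subgroup.zpowers (q c) := by
      have : H.map q = Subgroup.zpowers (q c) := by
        rw [hH, Subgroup.map_sup, MonoidHom.map_zpowers]
        have : L.map q = ⊥ := by
          rw [Subgroup.map_eq_bot_iff, hq, QuotientGroup.ker_mk']
        rw [this, sup_bot_eq]
      rw [← this]
      exact ⟨x, hx, rfl⟩
    obtain ⟨i, hi⟩ := Subgroup.mem_zpowers_iff.1 hxz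
    rw [← hq1]
    simp only [map_mul, map_inv]
    rw [← hi]
    group
  have h3 : d ^ j = (g : G) * c * (g : G)⁻¹ := by
    have := congrArg Subtype.val hj
    simpa [hd', hc'] using this
  have h4 : d⁻¹ * d ^ j ∈ L := by
    rw [h3]
    have h5 := h2 g g.2
    have h6 : d⁻¹ * ((g : G) * c * (g : G)⁻¹) = d⁻¹ * ((g : G) * c * (g : G)⁻¹ * c⁻¹) * d * (c⁻¹ * d)⁻¹ := by
      group
    rw [h6]
    refine L.mul_mem ?_ (L.inv_mem h)
    have := (inferInstance : L.Normal).conj_mem _ h5 d⁻¹
    simpa using this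
  have h5 : E2 (d⁻¹ * d ^ j) := by
    obtain ⟨k, hk⟩ := hd
    refine ⟨k, ?_⟩
    have h6 : d⁻¹ * d ^ j = d ^ (j - 1) := by group
    rw [h6, ← zpow_natCast, ← zpow_mul, mul_comm, zpow_mul, zpow_natCast, hk, one_zpow]
  have h6 : d⁻¹ * d ^ j = 1 := eq_one_of_E2_EO h5 (hL _ h4)
  have h7 : d ^ j = d := (inv_mul_eq_one.1 h6).symm
  exact ⟨g, by rw [← h3, h7]⟩

/-- Part b3: a nontrivial normal subgroup of the quotient is not contained in all `K_p`. -/
theorem exists_sylow_not_le {Q : Type*} [Group Q] [Finite Q] {L : Subgroup G} [hLn : L.Normal]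
    (hL : IsO L) (hCL : ∀ x : G, (∀ l ∈ L, x * l = l * x) → x ∈ L)
    (q : G →* Q) (hq : Function.Surjective q) (hker : ∀ x, q x = 1 ↔ x ∈ L)
    (hLmax : ∀ N : Subgroup G, N.Normal → IsO N → N ≤ L)
    {m : ℕ} (hm : rho^[m] (⊤ : Subgroup Q) = ⊥)
    {T : Subgroup Q} (hT : Nrm ⊤ T) (hTne : T ≠ ⊥) :
    ∃ p : ℕ, ∃ _ : Fact p.Prime, ∃ R : Sylow p L,
      ¬ T ≤ (Subgroup.centralizer (((R : Subgroup L).map L.subtype : Subgroup G) : Set G)).map q := by
  classical
  by_contra hcon
  push Not at hcon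
  have htQ : Tor Q := Tor.of_finite
  have htG : Tor G := Tor.of_finite
  -- a nontrivial 2-element
  have hrho : rho^[m] T = ⊥ := le_bot_iff.1 ((rhoIter_mono m le_top).trans hm.le)
  obtain ⟨N, hNT, hNn, hNne, hN⟩ := exists_homogeneous htQ hT hTne hrho
  have hN2 : Is2 N := by
    rcases hN with h | h
    · exact h
    · exfalso
      apply hNne
      have hn : (N.comap q).Normal := (normal_of_nrm_top hNn).comap q
      have hO : IsO (N.comap q) := by
        intro x hx
        obtain ⟨k, hk, e⟩ := h (q x) hx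
        rw [← map_pow, hker] at e
        exact EO.of_pow hk (hL _ e)
      have h2 := hLmax _ hn hO
      rw [eq_bot_iff]
      intro y hy
      obtain ⟨x, rfl⟩ := hq y
      rw [Subgroup.mem_bot, hker]
      exact h2 hy
  obtain ⟨y, hyN, hy1⟩ := (Subgroup.ne_bot_iff_exists_ne_one (H := N)).1 hNne |>.imp
    (fun a h => h) |> fun ⟨a, h⟩ => (⟨a.1, a.2, fun e => h (Subtype.ext e)⟩ :
      ∃ y : Q, y ∈ N ∧ y ≠ 1)
  have hy2 : E2 y := hN2 y hyN
  obtain ⟨k, hk⟩ := hy2
  -- lifts
  have hlift : ∀ (D : Subgroup G) (x : G), x ∈ D → q x = y → ∃ z ∈ D, E2 z ∧ q z = y := by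
    intro D x hx hxy
    obtain ⟨r, hr, hr'⟩ := lift2 (htG x) (D := L) (k := k) (by
      rw [← hker, map_pow, hxy]; exact hk)
    refine ⟨x ^ r, D.pow_mem hx r, hr, ?_⟩
    rw [← hker, map_mul, map_inv] at hr'
    rw [← inv_mul_eq_one.1 hr', hxy]
  obtain ⟨x0, hx0⟩ := hq y
  obtain ⟨c, -, hc2, hcy⟩ := hlift ⊤ x0 trivial hx0
  have hcL : c ∈ L := by
    apply hCL
    -- |C_L(c)| is divisible by |L|
    set CL : Subgroup L := (Subgroup.centralizer {c}).subgroupOf L with hCLdef
    have hdvd : Nat.card L ∣ Nat.card CL := by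
      rw [Nat.dvd_iff_prime_pow_dvd_dvd]
      intro p j hp hpj
      have hpF : Fact p.Prime := ⟨hp⟩
      obtain ⟨R⟩ : Nonempty (Sylow p L) := inferInstance
      obtain ⟨w, hw, hwy⟩ := hcon p hpF R (hNT hyN)
      obtain ⟨d, hd, hd2, hdy⟩ := hlift _ w hw hwy
      have hcd : c⁻¹ * d ∈ L := by
        rw [← hker, map_mul, map_inv, hcy, hdy, inv_mul_cancel]
      obtain ⟨g, hg⟩ := conj_of_congr hL hc2 hd2 hcd
      -- map R into CL by conjugation with g⁻¹
      have hmem : ∀ r : L, r ∈ (R : Subgroup L) → g⁻¹ * (r : G) * g ∈ L ∧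
          (g⁻¹ * (r : G) * g) * c = c * (g⁻¹ * (r : G) * g) := by
        intro r hr
        refine ⟨by simpa using hLn.conj_mem r r.2 g⁻¹, ?_⟩
        have h1 : (r : G) * d = d * r := by
          exact Subgroup.mem_centralizer_iff.1 hd r ⟨r, hr, rfl⟩
        have h2 : c = g⁻¹ * d * g := by rw [← hg]; group
        rw [h2]
        calc g⁻¹ * (r : G) * g * (g⁻¹ * d * g) = g⁻¹ * ((r : G) * d) * g := by group
          _ = g⁻¹ * (d * (r : G)) * g := by rw [h1]
          _ = g⁻¹ * d * g * (g⁻¹ * (r : G) * g) := by group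
      have hRdvd : Nat.card (R : Subgroup L) ∣ Nat.card CL := by
        let f : (R : Subgroup L) →* CL :=
          { toFun := fun r => ⟨⟨g⁻¹ * ((r : L) : G) * g, (hmem r r.2).1⟩, by
              rw [hCLdef, Subgroup.mem_subgroupOf, Subgroup.mem_centralizer_singleton_iff]
              exact (hmem r r.2).2⟩
            map_one' := by ext; simp
            map_mul' := by
              intro a b
              ext
              simp only [Subgroup.coe_mul]
              group }
        have hf : Function.Injective f := by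
          intro a b hab
          have h1 := congrArg (fun z : CL => ((z : L) : G)) hab
          have h2 : g⁻¹ * ((a : L) : G) * g = g⁻¹ * ((b : L) : G) * g := h1
          have h3 : ((a : L) : G) = ((b : L) : G) := by
            simpa using h2
          exact Subtype.ext (Subtype.ext h3)
        exact Subgroup.card_dvd_of_injective f hf
      refine dvd_trans ?_ hRdvd
      rw [Sylow.card_eq_multiplicity]
      exact (Nat.Prime.pow_dvd_iff_dvd_ordProj hp Nat.card_pos.ne').1 hpj
    have hle : Nat.card L ≤ Nat.card CL := Nat.le_of_dvd Nat.card_pos hdvd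
    have htop : CL = ⊤ := Subgroup.eq_top_of_le_card _ hle
    intro l hl
    have : (⟨l, hl⟩ : L) ∈ CL := by rw [htop]; trivial
    rw [hCLdef, Subgroup.mem_subgroupOf, Subgroup.mem_centralizer_singleton_iff] at this
    exact this.symm
  have hc1 : c = 1 := eq_one_of_E2_EO hc2 (hL c hcL)
  apply hy1
  rw [← hcy, hc1, map_one]

theorem b0 {P : Subgroup G} [P.Normal] (hP2 : Is2 P)
    (hCP : ∀ x : G, (∀ p ∈ P, x * p = p * x) → x ∈ P) {n : ℕ} {Y : Subgroup G} (hPY : P ≤ Y)
    (hY : tn (n + 1) Y = ⊥) : Is2 (tn n Y) := by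
  have htG : Tor G := Tor.of_finite
  have hW : IsO (opi (tn n Y)) := by
    rw [tn_succ] at hY
    exact IsO_of_tau_eq_bot htG hY
  have hNW : Nrm Y (opi (tn n Y)) := ((Nrm.self Y).tn n).opi
  have hcomm := comm_of_nrm hP2 hW hPY ((opi_le _).trans (tn_le n Y)) Nrm.of_normal hNW
  have hWP : opi (tn n Y) ≤ P := fun w hw => hCP w fun p hp => (hcomm p hp w hw).symm
  have : opi (tn n Y) = ⊥ := by
    rw [eq_bot_iff]
    intro w hw
    exact eq_one_of_E2_EO (hP2 w (hWP hw)) (hW w hw)
  exact Is2_of_opi_eq_bot htG this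

theorem solvable_of_le_frattini {L : Subgroup G} (h : ∀ M : Subgroup G, IsCoatom M → L ≤ M) :
    Group.IsSolvable L := by
  have h1 : L ≤ frattini G := by
    rw [frattini, Order.radical]
    exact le_iInf₂ fun M hM => h M hM
  have h2 : Group.IsNilpotent (frattini G) := frattini_nilpotent
  have h3 : Group.IsSolvable (frattini G) := inferInstance
  exact Group.isSolvable_of_isSolvable_injective (Subgroup.inclusion_injective h1)

theorem solvable_of_isPGroup {p : ℕ} [Fact p.Prime] {L : Subgroup G} (h : IsPGroup p L) :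
    Group.IsSolvable L := by
  have h2 : Group.IsNilpotent L := h.isNilpotent
  infer_instance

end fin

section main

variable {G G' : Type*} [Group G] [Group G']

theorem map_eq_top_of_sup {L Y : Subgroup G} {f : G →* G'} (hf : Function.Surjective f)
    (hker : ∀ x, f x = 1 ↔ x ∈ L) (h : Y ⊔ L = ⊤) : Y.map f = ⊤ := by
  have h1 : L.map f = ⊥ := by
    rw [Subgroup.map_eq_bot_iff]
    intro x hx
    exact (hker x).2 hx
  have h2 : (Y ⊔ L).map f = ⊤ := by
    rw [h, ← MonoidHom.range_eq_map, MonoidHom.range_eq_top]; exact hf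
  rw [Subgroup.map_sup, h1, sup_bot_eq] at h2
  exact h2

theorem tn_top_map (hG : Tor G) {f : G →* G'} (hf : Function.Surjective f) (n : ℕ) :
    (tn n (⊤ : Subgroup G)).map f = tn n ⊤ := by
  rw [map_tn hG, ← MonoidHom.range_eq_map, MonoidHom.range_eq_top.2 hf]

theorem rho_top_map (hG : Tor G) {f : G →* G'} (hf : Function.Surjective f) {m : ℕ}
    (hm : rho^[m] (⊤ : Subgroup G) = ⊥) : rho^[m] (⊤ : Subgroup G') = ⊥ := by
  have h := map_rhoIter hG f m ⊤
  rw [hm, Subgroup.map_bot, ← MonoidHom.range_eq_map, MonoidHom.range_eq_top.2 hf] at h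
  exact h.symm

theorem red_claim (hA : HHa) (hB : HHb) (n : ℕ) : ∀ (N : ℕ) (X : Type) [Group X] [Finite X],
    Nat.card X = N → (∃ m : ℕ, rho^[m] (⊤ : Subgroup X) = ⊥) → tn n (⊤ : Subgroup X) ≠ ⊥ →
    (∀ Y : Subgroup X, Odd Y.index → Y ≠ ⊤ → tn n Y = ⊥) → Group.IsSolvable X := by
  induction n with
  | zero =>
    intro N X _ _ _ _ hne hmin
    have : Fact (Nat.Prime 2) := ⟨Nat.prime_two⟩
    obtain ⟨S⟩ : Nonempty (Sylow 2 X) := inferInstance
    have hS2 : Is2 (S : Subgroup X) := Is2_of_isPGroup S.isPGroup'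
    have hSi : Odd (S : Subgroup X).index := by
      rw [← Nat.not_even_iff_odd, even_iff_two_dvd]; exact S.not_dvd_index
    by_cases hS : (S : Subgroup X) = ⊤
    · have h := solvable_of_isPGroup S.isPGroup'
      rw [hS] at h
      exact Group.isSolvable_of_surjective
        (f := (Subgroup.topEquiv : (⊤ : Subgroup X) ≃* X).toMonoidHom)
        (Subgroup.topEquiv : (⊤ : Subgroup X) ≃* X).surjective
    · exfalso
      have h := hmin S hSi hS
      have h1 : tau (S : Subgroup X) = ⊥ := h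
      rw [tau_eq_of_Is2 hS2] at h1
      rw [h1, Subgroup.index_bot] at hSi
      apply hne
      change tau ⊤ = ⊥
      apply tau_eq_bot_of_IsO
      intro x _
      exact ⟨Nat.card X, hSi, pow_card_eq_one'⟩
  | succ n ihn =>
    intro N
    induction N using Nat.strong_induction_on with
    | _ N ihN =>
    intro X _ _ hN hsol hne hmin
    have htX : Tor X := Tor.of_finite
    obtain ⟨m, hm⟩ := hsol
    obtain ⟨L, hLn, hLO, hLmax⟩ := exists_maxO (G := X)
    -- (a)
    set qL := QuotientGroup.mk' L with hqL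
    have hqLs : Function.Surjective qL := QuotientGroup.mk'_surjective L
    have hqLk : ∀ x : X, qL x = 1 ↔ x ∈ L := fun x => QuotientGroup.eq_one_iff x
    have hnq : tn (n + 1) (⊤ : Subgroup (X ⧸ L)) ≠ ⊥ := by
      intro h
      apply hne
      apply tn_eq_bot_of_le_IsO (L := L) _ _ hLO
      rw [← tn_top_map htX hqLs, Subgroup.map_eq_bot_iff] at h
      intro x hx
      exact (hqLk x).1 (h hx)
    have hfr : ∀ M : Subgroup X, IsCoatom M → L ≤ M := by
      intro M hM
      by_contra hLM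
      have hsup : M ⊔ L = ⊤ := hM.2 _ (by
        refine lt_of_le_of_ne le_sup_left fun e => hLM ?_
        rw [e]; exact le_sup_right)
      have h1 := hmin M (index_odd_of_sup_eq_top hLO hsup) hM.1
      apply hnq
      rw [← map_eq_top_of_sup hqLs hqLk hsup, ← map_tn htX, h1, Subgroup.map_bot]
    have hLs : Group.IsSolvable L := solvable_of_le_frattini hfr
    by_cases hL : L = ⊥
    swap
    · have hcard : Nat.card (X ⧸ L) < N := by
        have h1 := Subgroup.card_mul_index L
        have h2 : 1 < Nat.card L := Subgroup.one_lt_card_iff_ne_bot L |>.2 hL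
        have h3 : L.index = Nat.card (X ⧸ L) := rfl
        have h4 : 0 < Nat.card (X ⧸ L) := Nat.card_pos
        rw [h3, hN] at h1
        nlinarith
      have hXL : Group.IsSolvable (X ⧸ L) := by
        refine ihN _ hcard (X ⧸ L) rfl ⟨m, rho_top_map htX hqLs hm⟩ hnq fun Y hY hYt => ?_
        have h1 : (Y.comap qL).map qL = Y := Subgroup.map_comap_eq_self_of_surjective hqLs Y
        rw [← h1, ← map_tn htX, hmin (Y.comap qL), Subgroup.map_bot]
        · rw [Subgroup.index_comap_of_surjective _ hqLs]; exact hY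
        · intro h
          apply hYt
          rw [← h1, h, ← MonoidHom.range_eq_map, MonoidHom.range_eq_top.2 hqLs]
      refine Group.isSolvable_of_ker_le_range L.subtype qL ?_
      intro x hx
      rw [Subgroup.range_subtype]
      exact (hqLk x).1 hx
    -- (b)
    obtain ⟨P, hPn, hP2, hPmax⟩ := exists_max2 (G := X)
    set q1 := QuotientGroup.mk' P with hq1
    have hq1s : Function.Surjective q1 := QuotientGroup.mk'_surjective P
    have hq1k : ∀ x : X, q1 x = 1 ↔ x ∈ P := fun x => QuotientGroup.eq_one_iff x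
    have htB : Tor (X ⧸ P) := Tor.of_finite
    obtain ⟨Lb, hLbn, hLbO, hLbmax⟩ := exists_maxO (G := X ⧸ P)
    set q2 := QuotientGroup.mk' Lb with hq2
    have hq2s : Function.Surjective q2 := QuotientGroup.mk'_surjective Lb
    have hq2k : ∀ x : X ⧸ P, q2 x = 1 ↔ x ∈ Lb := fun x => QuotientGroup.eq_one_iff x
    have hCP : ∀ x : X, (∀ p ∈ P, x * p = p * x) → x ∈ P :=
      hA X LocFin.of_finite ⟨m, hm⟩ P hPn hP2 hPmax
        (fun Q hQn hQO => le_bot_iff.1 (hL ▸ hLmax Q hQn hQO))
    have hrhoB : rho^[m] (⊤ : Subgroup (X ⧸ P)) = ⊥ := rho_top_map htX hq1s hm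
    have hno2 : ∀ Q : Subgroup (X ⧸ P), Q.Normal → Is2 Q → Q = ⊥ := by
      intro Q hQn hQ2
      have hn : (Q.comap q1).Normal := hQn.comap q1
      have h2 : Is2 (Q.comap q1) := by
        intro x hx
        obtain ⟨k, e⟩ := hQ2 (q1 x) hx
        rw [← map_pow, hq1k] at e
        exact E2.of_pow (hP2 _ e)
      have h3 := hPmax _ hn h2
      rw [eq_bot_iff]
      intro y hy
      obtain ⟨x, rfl⟩ := hq1s y
      rw [Subgroup.mem_bot, hq1k]
      exact h3 hy
    have hCL : ∀ x : X ⧸ P, (∀ l ∈ Lb, x * l = l * x) → x ∈ Lb :=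
      hB (X ⧸ P) LocFin.of_finite ⟨m, hrhoB⟩ Lb hLbn hLbO hLbmax hno2
    have hrhoQ : rho^[m] (⊤ : Subgroup ((X ⧸ P) ⧸ Lb)) = ⊥ := rho_top_map htB hq2s hrhoB
    -- b1
    have hb1 : tn n (⊤ : Subgroup ((X ⧸ P) ⧸ Lb)) ≠ ⊥ := by
      intro h
      rw [← tn_top_map htB hq2s, ← tn_top_map htX hq1s, Subgroup.map_map,
        Subgroup.map_eq_bot_iff] at h
      have h2 : Is2 (tn n (⊤ : Subgroup X)) := by
        have h3 : tn n (⊤ : Subgroup X) ≤ P := by
          rw [← tau_tn, tau, Subgroup.closure_le]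
          rintro x ⟨hx, hx2⟩
          have h4 : q2 (q1 x) = 1 := h hx
          rw [hq2k] at h4
          exact (hq1k x).1 (eq_one_of_E2_EO (hx2.map q1) (hLbO _ h4))
        exact hP2.mono h3
      apply hne
      rw [tn_succ]
      exact rho_eq_bot_of_Is2 h2
    -- b2
    have hQs : Group.IsSolvable ((X ⧸ P) ⧸ Lb) := by
      refine ihn _ ((X ⧸ P) ⧸ Lb) rfl ⟨m, hrhoQ⟩ hb1 fun Y hY hYt => ?_
      set Yb := Y.comap q2 with hYb
      set Yh := Yb.comap q1 with hYh
      have hmapb : Yb.map q2 = Y := Subgroup.map_comap_eq_self_of_surjective hq2s Y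
      have hmaph : Yh.map q1 = Yb := Subgroup.map_comap_eq_self_of_surjective hq1s Yb
      have hidx : Odd Yh.index := by
        rw [hYh, Subgroup.index_comap_of_surjective _ hq1s, hYb,
          Subgroup.index_comap_of_surjective _ hq2s]; exact hY
      have hYht : Yh ≠ ⊤ := by
        intro h
        apply hYt
        rw [← hmapb, ← hmaph, h, Subgroup.map_map, ← MonoidHom.range_eq_map,
          MonoidHom.range_eq_top.2]
        exact hq2s.comp hq1s
      have hPY : P ≤ Yh := by
        intro x hx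
        change q2 (q1 x) ∈ Y
        rw [(hq1k x).2 hx, map_one]
        exact Y.one_mem
      have h1 := b0 hP2 hCP hPY (hmin Yh hidx hYht)
      have h2 : Is2 (tn n Yb) := by
        rw [← hmaph, ← map_tn htX]
        rintro _ ⟨x, hx, rfl⟩
        exact (h1 x hx).map q1
      have hLY : Lb ≤ Yb := by
        intro x hx
        change q2 x ∈ Y
        rw [(hq2k x).2 hx]
        exact Y.one_mem
      have h3 := comm_of_nrm h2 hLbO (tn_le n Yb) hLY ((Nrm.self Yb).tn n) Nrm.of_normal
      have h4 : tn n Yb ≤ Lb := fun x hx => hCL x fun l hl => h3 x hx l hl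
      have h5 : tn n Yb = ⊥ := by
        rw [eq_bot_iff]
        intro x hx
        exact eq_one_of_E2_EO (h2 x hx) (hLbO x (h4 hx))
      rw [← hmapb, ← map_tn htB, h5, Subgroup.map_bot]
    -- b4
    obtain ⟨p, hpF, R, hR⟩ := exists_sylow_not_le hLbO hCL q2 hq2s hq2k hLbmax hrhoQ
      (T := tn n ⊤) (Nrm.top.tn n) hb1
    set Rp : Subgroup (X ⧸ P) := (R : Subgroup Lb).map Lb.subtype with hRp
    have hRL : Rp ≤ Lb := Subgroup.map_subtype_le _
    have hRO : IsO Rp := hLbO.mono hRL
    have key : ∀ Yb : Subgroup (X ⧸ P), Yb ⊔ Lb = ⊤ → Rp ≤ Yb → Nrm Yb Rp → Yb = ⊤ := by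
      intro Yb hsup hRY hN
      by_contra hYt
      set Yh := Yb.comap q1 with hYh
      have hmaph : Yh.map q1 = Yb := Subgroup.map_comap_eq_self_of_surjective hq1s Yb
      have hidx : Odd Yh.index := by
        rw [hYh, Subgroup.index_comap_of_surjective _ hq1s]
        exact index_odd_of_sup_eq_top hLbO hsup
      have hYht : Yh ≠ ⊤ := by
        intro h
        apply hYt
        rw [← hmaph, h, ← MonoidHom.range_eq_map, MonoidHom.range_eq_top.2 hq1s]
      have hPY : P ≤ Yh := by
        intro x hx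
        change q1 x ∈ Yb
        rw [(hq1k x).2 hx]
        exact Yb.one_mem
      have h1 := b0 hP2 hCP hPY (hmin Yh hidx hYht)
      have h2 : Is2 (tn n Yb) := by
        rw [← hmaph, ← map_tn htX]
        rintro _ ⟨x, hx, rfl⟩
        exact (h1 x hx).map q1
      have h3 := comm_of_nrm h2 hRO (tn_le n Yb) hRY ((Nrm.self Yb).tn n) hN
      apply hR
      rw [← map_eq_top_of_sup hq2s hq2k hsup, ← map_tn htB]
      apply Subgroup.map_mono
      intro x hx
      exact Subgroup.mem_centralizer_iff.2 fun r hr => (h3 x hx r hr).symm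
    have hRn : Rp.Normal := by
      have h1 : Subgroup.normalizer (Rp : Set (X ⧸ P)) = ⊤ := by
        apply key
        · have := Sylow.normalizer_sup_eq_top R
          exact this
        · exact Subgroup.le_normalizer
        · exact nrm_iff.2 le_rfl
      exact Subgroup.normalizer_eq_top_iff.1 h1
    have hLbs : Group.IsSolvable Lb := by
      set q3 := QuotientGroup.mk' Rp with hq3
      have hq3s : Function.Surjective q3 := QuotientGroup.mk'_surjective Rp
      have hq3k : ∀ x : X ⧸ P, q3 x = 1 ↔ x ∈ Rp := fun x => QuotientGroup.eq_one_iff x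
      have hfr2 : ∀ M : Subgroup ((X ⧸ P) ⧸ Rp), IsCoatom M → Lb.map q3 ≤ M := by
        intro M hM
        by_contra hLM
        have hsup : M ⊔ Lb.map q3 = ⊤ := hM.2 _ (by
          refine lt_of_le_of_ne le_sup_left fun e => hLM ?_
          rw [e]; exact le_sup_right)
        apply hM.1
        have hmapM : (M.comap q3).map q3 = M := Subgroup.map_comap_eq_self_of_surjective hq3s M
        have h1 : M.comap q3 = ⊤ := by
          apply key
          · rw [eq_top_iff]
            intro x _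
            have h2 : q3 x ∈ ((M.comap q3) ⊔ Lb).map q3 := by
              rw [Subgroup.map_sup, hmapM, hsup]; trivial
            obtain ⟨z, hz, hzx⟩ := h2
            have h3 : z⁻¹ * x ∈ Rp := by
              rw [← hq3k, map_mul, map_inv, hzx, inv_mul_cancel]
            have h4 : x = z * (z⁻¹ * x) := by group
            rw [h4]
            exact Subgroup.mul_mem _ hz (le_sup_right (a := M.comap q3) (hRL h3))
          · intro x hx
            change q3 x ∈ M
            rw [(hq3k x).2 hx]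
            exact M.one_mem
          · exact Nrm.of_normal
        rw [← hmapM, h1, ← MonoidHom.range_eq_map, MonoidHom.range_eq_top.2 hq3s]
      have h1 : Group.IsSolvable (Lb.map q3) := solvable_of_le_frattini hfr2
      have h2 : Group.IsSolvable (R : Subgroup Lb) := solvable_of_isPGroup R.isPGroup'
      refine Group.isSolvable_of_ker_le_range (R : Subgroup Lb).subtype (q3.subgroupMap Lb) ?_
      intro x hx
      rw [Subgroup.range_subtype]
      have h3 : q3 x = 1 := by
        have := congrArg Subtype.val hx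
        simpa using this
      rw [hq3k] at h3
      obtain ⟨z, hz, hzx⟩ := h3
      have : z = x := Subtype.ext hzx
      rw [← this]; exact hz
    have hBs : Group.IsSolvable (X ⧸ P) := by
      refine Group.isSolvable_of_ker_le_range Lb.subtype q2 ?_
      intro x hx
      rw [Subgroup.range_subtype]
      exact (hq2k x).1 hx
    have hPs : Group.IsSolvable P := by
      have : Fact (Nat.Prime 2) := ⟨Nat.prime_two⟩
      exact solvable_of_isPGroup (isPGroup_of_Is2 hP2)
    refine Group.isSolvable_of_ker_le_range P.subtype q1 ?_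
    intro x hx
    rw [Subgroup.range_subtype]
    exact (hq1k x).1 hx

theorem red10 (hA : HHa) (hB : HHb) : Red10 := by
  intro X _ _ hsol n hn
  obtain ⟨m, hm⟩ := hsol
  -- minimal subgroup of odd index with `t_n ≠ ⊥`
  obtain ⟨X₀, hX₀⟩ := Set.Finite.exists_minimal
    (s := {Y : Subgroup X | Odd Y.index ∧ tn n Y ≠ ⊥}) (Set.toFinite _)
    ⟨⊤, by simp, hn⟩
  refine ⟨X₀, ?_, hX₀.1.1, hX₀.1.2⟩
  have hinj : Function.Injective X₀.subtype := X₀.subtype_injective
  have htop : (⊤ : Subgroup X₀).map X₀.subtype = X₀ := by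
    rw [← MonoidHom.range_eq_map, Subgroup.range_subtype]
  refine red_claim hA hB n _ X₀ rfl ⟨m, ?_⟩ ?_ ?_
  · have h := map_rhoIter_of_injective X₀.subtype hinj m ⊤
    rw [htop] at h
    have h1 : rho^[m] X₀ = ⊥ := le_bot_iff.1 ((rhoIter_mono m le_top).trans hm.le)
    rw [h1] at h
    exact (Subgroup.map_eq_bot_iff_of_injective _ hinj).1 h
  · intro h
    apply hX₀.1.2
    rw [← htop, ← map_tn_of_injective X₀.subtype hinj, h, Subgroup.map_bot]
  · intro Y hY hYt
    by_contra hne
    have h1 : Y.map X₀.subtype ∈ {Y : Subgroup X | Odd Y.index ∧ tn n Y ≠ ⊥} := by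
      refine ⟨?_, ?_⟩
      · rw [Subgroup.index_map_subtype]; exact hY.mul hX₀.1.1
      · rw [← map_tn_of_injective X₀.subtype hinj]
        intro h
        exact hne ((Subgroup.map_eq_bot_iff_of_injective _ hinj).1 h)
    have h2 : X₀ ≤ Y.map X₀.subtype := hX₀.2 h1 (Subgroup.map_subtype_le _)
    apply hYt
    rw [eq_top_iff]
    intro x _
    obtain ⟨y, hy, hyx⟩ := h2 x.2
    have : y = x := Subtype.ext hyx
    rw [← this]; exact hy

end main

end Pool.Agent.Helper12.TwoLen
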