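import Mathlib

open Finset

namespace H40TwoFac

/-- A `k`-biregular relation on a finite set is a disjoint union of `k` permutations. -/
theorem perms_of_biregular {W : Type*} [Fintype W] [DecidableEq W] :
    ∀ (k : ℕ) (D : W → W → Prop) (_ : DecidableRel D),
      (∀ a, #(univ.filter (D a)) = k) → (∀ b, #(univ.filter (fun a => D a b)) = k) →
      ∃ σ : Fin k → Equiv.Perm W, (∀ a b, D a b ↔ ∃ i, σ i a = b) ∧
        ∀ i j a, σ i a = σ j a → i = j := by
  intro k
  induction k with
  | zero =>
    intro D _ h1 _
    refine ⟨Fin.elim0, ?_, fun i => i.elim0⟩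
    intro a b
    constructor
    · intro h
      have := h1 a
      rw [Finset.card_eq_zero] at this
      have hb : b ∈ univ.filter (D a) := by simp [h]
      rw [this] at hb
      simp at hb
    · rintro ⟨i, _⟩
      exact i.elim0
  | succ k ih =>
    intro D hD h1 h2
    have hall : ∀ A : Finset W, #A ≤ #(A.biUnion fun a => univ.filter (D a)) := by
      intro A
      have e1 : ∑ a ∈ A, #((A.biUnion fun a => univ.filter (D a)).filter (D a)) = #A * (k + 1) := by
        rw [Finset.sum_congr rfl (g := fun _ => k + 1)]
        · simp
        · intro a ha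
          rw [← h1 a]
          congr 1
          ext b
          simp only [mem_filter, mem_biUnion, mem_univ, true_and]
          constructor
          · rintro ⟨_, h⟩; exact h
          · intro h; exact ⟨⟨a, ha, h⟩, h⟩
      have e2 : ∑ a ∈ A, #((A.biUnion fun a => univ.filter (D a)).filter (D a)) =
          ∑ b ∈ (A.biUnion fun a => univ.filter (D a)), #(A.filter (fun a => D a b)) :=
        Finset.sum_card_bipartiteAbove_eq_sum_card_bipartiteBelow D
      have e3 : ∑ b ∈ (A.biUnion fun a => univ.filter (D a)), #(A.filter (fun a => D a b)) ≤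
          #(A.biUnion fun a => univ.filter (D a)) * (k + 1) := by
        calc _ ≤ ∑ b ∈ (A.biUnion fun a => univ.filter (D a)), (k + 1) := by
              apply Finset.sum_le_sum
              intro b _
              rw [← h2 b]
              exact Finset.card_le_card (Finset.filter_subset_filter _ (Finset.subset_univ _))
          _ = _ := by simp
      have : #A * (k + 1) ≤ #(A.biUnion fun a => univ.filter (D a)) * (k + 1) := by
        rw [← e1, e2]; exact e3
      exact Nat.le_of_mul_le_mul_right this (Nat.succ_pos k)
    obtain ⟨f, finj, hf⟩ := (Finset.all_card_le_biUnion_card_iff_exists_injective _).1 hall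
    have hfD : ∀ a, D a (f a) := by
      intro a
      have := hf a
      simpa using this
    have fbij : Function.Bijective f := Finite.injective_iff_bijective.1 finj
    let τ : Equiv.Perm W := Equiv.ofBijective f fbij
    have hτ : ∀ a, τ a = f a := fun a => rfl
    obtain ⟨σ, hσ1, hσ2⟩ := ih (fun a b => D a b ∧ b ≠ τ a) (Classical.decRel _)
      (by
        intro a
        have : univ.filter (fun b => D a b ∧ b ≠ τ a) = (univ.filter (D a)).erase (τ a) := by
          ext b; simp [and_comm]
        have h3 := h1 a
        have h4 : τ a ∈ univ.filter (D a) := by simp [hτ, hfD]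
        convert_to #((univ.filter (D a)).erase (τ a)) = k
        · rw [← this]; congr!
        · rw [Finset.card_erase_of_mem h4, h3]; simp)
      (by
        intro b
        have : univ.filter (fun a => D a b ∧ b ≠ τ a) =
            (univ.filter (fun a => D a b)).erase (τ.symm b) := by
          ext a
          simp only [mem_filter, mem_univ, true_and, mem_erase]
          constructor
          · rintro ⟨x, y⟩
            refine ⟨?_, x⟩
            rintro rfl
            simp at y
          · rintro ⟨x, y⟩
            refine ⟨y, ?_⟩
            rintro rfl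
            simp at x
        have h3 := h2 b
        have h4 : τ.symm b ∈ univ.filter (fun a => D a b) := by
          have := hfD (τ.symm b)
          rw [← hτ] at this
          simpa using this
        convert_to #((univ.filter (fun a => D a b)).erase (τ.symm b)) = k
        · rw [← this]; congr!
        · rw [Finset.card_erase_of_mem h4, h3]; simp)
    have hne : ∀ j a, σ j a ≠ τ a := fun j a => ((hσ1 a (σ j a)).2 ⟨j, rfl⟩).2
    refine ⟨Fin.cons τ σ, ?_, ?_⟩
    · intro a b
      constructor
      · intro h
        by_cases hb : b = τ a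
        · exact ⟨0, by simp [hb]⟩
        · obtain ⟨i, hi⟩ := (hσ1 a b).1 ⟨h, hb⟩
          exact ⟨i.succ, by simp [hi]⟩
      · rintro ⟨i, hi⟩
        refine Fin.cases ?_ ?_ i hi
        · intro h
          simp only [Fin.cons_zero] at h
          rw [← h]; exact hfD a
        · intro j h
          simp only [Fin.cons_succ] at h
          exact ((hσ1 a b).2 ⟨j, h⟩).1
    · intro i j a
      refine Fin.cases ?_ ?_ i
      · refine Fin.cases ?_ ?_ j
        · intro _; rfl
        · intro j h
          simp only [Fin.cons_zero, Fin.cons_succ] at h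
          exact absurd h.symm (hne j a)
      · intro i
        refine Fin.cases ?_ ?_ j
        · intro h
          simp only [Fin.cons_zero, Fin.cons_succ] at h
          exact absurd h (hne i a)
        · intro j h
          simp only [Fin.cons_succ] at h
          rw [hσ2 i j a h]

/-- Orientation of a `2k`-regular graph with all out-degrees equal to `k`. -/
theorem orientation {W : Type*} [Fintype W] [DecidableEq W] (H : SimpleGraph W)
    [DecidableRel H.Adj] (k : ℕ) (hreg : ∀ w, H.degree w = 2 * k) :
    ∃ t : Sym2 W → W, (∀ a b, H.Adj a b → (t s(a, b) = a ∨ t s(a, b) = b)) ∧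
      ∀ a, #(univ.filter fun b => H.Adj a b ∧ t s(a, b) = a) = k := by
  rcases isEmpty_or_nonempty W with hW | hW
  · refine ⟨fun e => (e.out.1), fun a => (hW.false a).elim, fun a => (hW.false a).elim⟩
  let ι := {e : Sym2 W // e ∈ H.edgeFinset}
  let T : ι → Finset (W × Fin k) := fun e => univ.filter fun p => p.1 ∈ e.1
  -- every edge has exactly two endpoints
  have two : ∀ e : ι, #(univ.filter fun w : W => w ∈ e.1) = 2 := by
    rintro ⟨e, he⟩
    induction e with
    | _ a b =>
      have hab : H.Adj a b := by simpa using he
      have : (univ.filter fun w : W => w ∈ s(a, b)) = {a, b} := by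
        ext w; simp
      rw [this, Finset.card_pair hab.ne]
  -- at most (exactly) `2k` edges at every vertex
  have inc : ∀ (w : W), #(univ.filter fun e : ι => w ∈ e.1) = 2 * k := by
    intro w
    rw [← hreg w, ← SimpleGraph.card_incidenceFinset_eq_degree]
    apply Finset.card_bij (fun (e : ι) _ => e.1)
    · rintro ⟨e, he⟩ h
      simp only [mem_filter, mem_univ, true_and] at h
      simp only [SimpleGraph.mem_incidenceFinset, SimpleGraph.incidenceSet, Set.mem_ofPred_eq]
      exact ⟨by simpa using he, h⟩
    · intro a _ b _ h
      exact Subtype.ext h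
    · intro e he
      simp only [SimpleGraph.mem_incidenceFinset, SimpleGraph.incidenceSet, Set.mem_ofPred_eq] at he
      exact ⟨⟨e, by simpa using he.1⟩, by simpa using he.2, rfl⟩
  have hall : ∀ A : Finset ι, #A ≤ #(A.biUnion T) := by
    intro A
    let X : Finset W := univ.filter fun w => ∃ e ∈ A, w ∈ e.1
    have hX : A.biUnion T = X ×ˢ (univ : Finset (Fin k)) := by
      ext ⟨w, i⟩
      simp [T, X]
    rw [hX, Finset.card_product, Finset.card_univ, Fintype.card_fin]
    have e1 : ∑ e ∈ A, #(X.filter fun w => w ∈ e.1) = #A * 2 := by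
      rw [Finset.sum_congr rfl (g := fun _ => 2)]
      · simp
      · intro e he
        rw [← two e]
        congr 1
        ext w
        simp only [mem_filter, mem_univ, true_and, X]
        constructor
        · rintro ⟨_, h⟩; exact h
        · intro h; exact ⟨⟨e, he, h⟩, h⟩
    have e2 : ∑ e ∈ A, #(X.filter fun w => w ∈ e.1) = ∑ w ∈ X, #(A.filter fun e => w ∈ e.1) :=
      Finset.sum_card_bipartiteAbove_eq_sum_card_bipartiteBelow (fun (e : ι) (w : W) => w ∈ e.1)
    have e3 : ∑ w ∈ X, #(A.filter fun e => w ∈ e.1) ≤ #X * (2 * k) := by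
      calc _ ≤ ∑ w ∈ X, 2 * k := by
            apply Finset.sum_le_sum
            intro w _
            rw [← inc w]
            exact Finset.card_le_card (Finset.filter_subset_filter _ (Finset.subset_univ _))
        _ = _ := by simp
    have : #A * 2 ≤ #X * (2 * k) := by rw [← e1, e2]; exact e3
    nlinarith
  obtain ⟨f, finj, hf⟩ := (Finset.all_card_le_biUnion_card_iff_exists_injective _).1 hall
  have hfm : ∀ e : ι, (f e).1 ∈ e.1 := by
    intro e
    have := hf e
    simpa [T] using this
  -- each vertex is chosen exactly `k` times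
  have le : ∀ w : W, #(univ.filter fun e : ι => (f e).1 = w) ≤ k := by
    intro w
    have : #(univ.filter fun e : ι => (f e).1 = w) ≤ #(univ : Finset (Fin k)) := by
      apply Finset.card_le_card_of_injOn (fun e => (f e).2) (fun _ _ => Finset.mem_univ _)
      intro e he e' he' h
      simp only [coe_filter, mem_univ, true_and, Set.mem_ofPred_eq] at he he'
      exact finj (Prod.ext (he.trans he'.symm) h)
    simpa using this
  have tot : ∑ w : W, #(univ.filter fun e : ι => (f e).1 = w) = Fintype.card ι := by
    rw [← Finset.card_univ]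
    exact (Finset.card_eq_sum_card_fiberwise (fun e _ => Finset.mem_univ ((f e).1))).symm
  have tot2 : 2 * Fintype.card ι = ∑ w : W, 2 * k := by
    have e1 : ∑ e : ι, #(univ.filter fun w : W => w ∈ e.1) = Fintype.card ι * 2 := by
      rw [Finset.sum_congr rfl (g := fun _ => 2) (fun e _ => two e)]
      simp [Finset.card_univ]
    have e2 : ∑ e : ι, #(univ.filter fun w : W => w ∈ e.1) =
        ∑ w : W, #(univ.filter fun e : ι => w ∈ e.1) :=
      Finset.sum_card_bipartiteAbove_eq_sum_card_bipartiteBelow (fun (e : ι) (w : W) => w ∈ e.1)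
    have e3 : ∑ w : W, #(univ.filter fun e : ι => w ∈ e.1) = ∑ w : W, 2 * k :=
      Finset.sum_congr rfl (fun w _ => inc w)
    omega
  have eqk : ∀ w : W, #(univ.filter fun e : ι => (f e).1 = w) = k := by
    have hs : ∑ w : W, #(univ.filter fun e : ι => (f e).1 = w) = ∑ w : W, k := by
      have : ∑ w : W, 2 * k = 2 * ∑ w : W, k := by rw [Finset.mul_sum]
      omega
    intro w
    exact (Finset.sum_eq_sum_iff_of_le (fun w _ => le w)).1 hs w (Finset.mem_univ w)
  refine ⟨fun e => if h : e ∈ H.edgeFinset then (f ⟨e, h⟩).1 else Classical.arbitrary W, ?_, ?_⟩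
  · intro a b hab
    have h : s(a, b) ∈ H.edgeFinset := by simpa using hab
    simp only [h, dif_pos]
    have := hfm ⟨s(a, b), h⟩
    simpa using this
  · intro a
    refine Eq.trans ?_ (eqk a)
    refine Finset.card_bij' (fun b hb => (⟨s(a, b), by
        simp only [mem_filter, mem_univ, true_and] at hb
        simpa using hb.1⟩ : ι))
      (fun e he => Sym2.Mem.other' (a := a) (z := e.1) (by
        simp only [mem_filter, mem_univ, true_and] at he
        rw [← he]
        exact hfm e)) ?_ ?_ ?_ ?_
    · intro b hb
      simp only [mem_filter, mem_univ, true_and] at hb ⊢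
      have h : s(a, b) ∈ H.edgeFinset := by simpa using hb.1
      have h2 := hb.2
      simp only [h, dif_pos] at h2
      exact h2
    · intro e he
      simp only [mem_filter, mem_univ, true_and] at he ⊢
      have hmem : a ∈ e.1 := by
        rw [← he]; exact hfm e
      have ho : s(a, Sym2.Mem.other' hmem) = e.1 := Sym2.other_spec' hmem
      refine ⟨?_, ?_⟩
      · have h6 : s(a, Sym2.Mem.other' hmem) ∈ H.edgeFinset := by rw [ho]; exact e.2
        exact (SimpleGraph.mem_edgeSet H).1 (SimpleGraph.mem_edgeFinset.1 h6)
      · have h3 : s(a, Sym2.Mem.other' hmem) ∈ H.edgeFinset := by rw [ho]; exact e.2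
        simp only [h3, dif_pos]
        have : (⟨s(a, Sym2.Mem.other' hmem), h3⟩ : ι) = e := Subtype.ext ho
        rw [this]; exact he
    · intro b hb
      simp only
      have := Sym2.other_spec' (show a ∈ s(a, b) by simp)
      exact (Sym2.congr_right).1 this
    · intro e he
      apply Subtype.ext
      simp only [mem_filter, mem_univ, true_and] at he
      have hmem : a ∈ e.1 := by
        rw [← he]; exact hfm e
      exact Sym2.other_spec' hmem

end H40TwoFac

open H40TwoFac in
/-- Petersen: 2-factorization of a `2k`-regular graph by permutations. -/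
theorem two_factorization {W : Type*} [Fintype W] [DecidableEq W] (H : SimpleGraph W)
    [DecidableRel H.Adj] (k : ℕ) (hreg : ∀ w, H.degree w = 2 * k) :
    ∃ σ : Fin k → Equiv.Perm W,
      (∀ i w, H.Adj w (σ i w)) ∧
      (∀ a b, H.Adj a b → ∃ i, σ i a = b ∨ σ i b = a) ∧
      (∀ i j a, σ i a = σ j a → i = j) ∧
      (∀ i j a, σ i (σ j a) ≠ a) := by
  obtain ⟨t, ht, hout⟩ := orientation H k hreg
  let D : W → W → Prop := fun a b => H.Adj a b ∧ t s(a, b) = a
  have hin : ∀ b, #(univ.filter fun a => D a b) = k := by
    intro b
    have hdeg := hreg b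
    have h1 : H.neighborFinset b = (univ.filter fun a => H.Adj b a ∧ t s(b, a) = b) ∪
        (univ.filter fun a => D a b) := by
      ext a
      simp only [SimpleGraph.mem_neighborFinset, mem_union, mem_filter, mem_univ, true_and, D]
      constructor
      · intro h
        rcases ht b a h with h' | h'
        · exact Or.inl ⟨h, h'⟩
        · exact Or.inr ⟨h.symm, by rw [Sym2.eq_swap]; exact h'⟩
      · rintro (h | h)
        · exact h.1
        · exact h.1.symm
    have h2 : Disjoint (univ.filter fun a => H.Adj b a ∧ t s(b, a) = b)
        (univ.filter fun a => D a b) := by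
      rw [Finset.disjoint_left]
      intro a h3 h4
      simp only [mem_filter, mem_univ, true_and, D] at h3 h4
      have : t s(b, a) = a := by rw [Sym2.eq_swap]; exact h4.2
      exact h3.1.ne (h3.2.symm.trans this)
    have h5 := congrArg Finset.card h1
    rw [Finset.card_union_of_disjoint h2, hout b, SimpleGraph.card_neighborFinset_eq_degree,
      hdeg] at h5
    omega
  obtain ⟨σ, h1, h2⟩ := perms_of_biregular k D (fun a b => inferInstanceAs (Decidable (_ ∧ _)))
    hout hin
  have hD : ∀ i a, D a (σ i a) := fun i a => (h1 a _).2 ⟨i, rfl⟩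
  refine ⟨σ, fun i w => (hD i w).1, ?_, h2, ?_⟩
  · intro a b hab
    rcases ht a b hab with h | h
    · obtain ⟨i, hi⟩ := (h1 a b).1 ⟨hab, h⟩
      exact ⟨i, Or.inl hi⟩
    · obtain ⟨i, hi⟩ := (h1 b a).1 ⟨hab.symm, by rw [Sym2.eq_swap]; exact h⟩
      exact ⟨i, Or.inr hi⟩
  · intro i j a h
    have hj := hD j a
    have hi := hD i (σ j a)
    rw [h] at hi
    have e1 : t s(a, σ j a) = a := hj.2
    have e2 : t s(σ j a, a) = σ j a := hi.2
    rw [Sym2.eq_swap] at e2
    exact hj.1.ne (e1.symm.trans e2)
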