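import Mathlib

open Finset

/-- Every finite graph of maximum degree at most `d` embeds in a `d`-regular finite graph. -/
theorem exists_regular_super.{u} {V : Type u} [Fintype V] (G : SimpleGraph V) [DecidableRel G.Adj]
    (d : ℕ) (hd : ∀ v, G.degree v ≤ d) :
    ∃ (W : Type u) (_ : Fintype W) (G' : SimpleGraph W) (_ : DecidableRel G'.Adj) (f : V ↪ W),
      (∀ u v, G.Adj u v → G'.Adj (f u) (f v)) ∧ ∀ w, G'.degree w = d := by
  classical
  let fl : (Fin d → Bool) → Fin d → (Fin d → Bool) := fun s j => Function.update s j (!s j)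
  have flne : ∀ s j, fl s j ≠ s := by
    intro s j h
    have := congrFun h j
    simp [fl] at this
  have flinv : ∀ s j, fl (fl s j) j = s := by
    intro s j
    funext i
    by_cases h : i = j
    · subst h; simp [fl]
    · simp [fl, h]
  have flinj : ∀ s, Function.Injective (fl s) := by
    intro s i j h
    by_contra hne
    have := congrFun h i
    simp [fl, Function.update_of_ne hne] at this
  let G' : SimpleGraph (V × (Fin d → Bool)) :=
    { Adj := fun x y => (x.2 = y.2 ∧ G.Adj x.1 y.1) ∨
        (x.1 = y.1 ∧ ∃ j : Fin d, (j : ℕ) < d - G.degree x.1 ∧ y.2 = fl x.2 j)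
      symm := ⟨by
        rintro ⟨v, s⟩ ⟨u, t⟩ h
        rcases h with ⟨h1, h2⟩ | ⟨h1, j, hj, h2⟩
        · exact Or.inl ⟨h1.symm, h2.symm⟩
        · right
          simp only at h1 h2 hj ⊢
          subst h1
          refine ⟨rfl, j, hj, ?_⟩
          rw [h2, flinv]⟩
      loopless := ⟨by
        rintro ⟨v, s⟩ h
        rcases h with ⟨_, h2⟩ | ⟨_, j, _, h2⟩
        · exact G.loopless.irrefl _ h2
        · exact flne s j h2.symm⟩ }
  let instG' : DecidableRel G'.Adj := Classical.decRel _
  refine ⟨V × (Fin d → Bool), inferInstance, G', instG',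
    ⟨fun v => (v, fun _ => false), fun a b h => (Prod.mk.inj h).1⟩, ?_, ?_⟩
  · intro u v h
    exact Or.inl ⟨rfl, h⟩
  · rintro ⟨v, s⟩
    have key : G'.neighborFinset (v, s) =
        (G.neighborFinset v).image (fun u => (u, s)) ∪
        ((Finset.univ.filter (fun j : Fin d => (j : ℕ) < d - G.degree v)).image
          (fun j => (v, fl s j))) := by
      ext ⟨u, t⟩
      simp only [SimpleGraph.mem_neighborFinset, Finset.mem_union, Finset.mem_image,
        Finset.mem_filter, Finset.mem_univ, true_and, Prod.mk.injEq]
      constructor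
      · rintro (⟨h1, h2⟩ | ⟨h1, j, hj, h2⟩)
        · exact Or.inl ⟨u, h2, rfl, h1⟩
        · exact Or.inr ⟨j, hj, h1, h2.symm⟩
      · rintro (⟨w, h1, h2, h3⟩ | ⟨j, hj, h1, h2⟩)
        · subst h2
          exact Or.inl ⟨h3, h1⟩
        · exact Or.inr ⟨h1, j, hj, h2.symm⟩
    unfold SimpleGraph.degree
    rw [key, Finset.card_union_of_disjoint, Finset.card_image_of_injective,
      Finset.card_image_of_injective]
    · have hv := hd v
      have h1 : (Finset.univ.filter (fun j : Fin d => (j : ℕ) < d - G.degree v)).card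
          = d - G.degree v := by
        have := Fin.card_filter_val_lt (n := d) (m := d - G.degree v)
        simpa using this
      rw [h1]
      unfold SimpleGraph.degree at hv ⊢
      omega
    · intro i j h
      exact flinj s (Prod.mk.inj h).2
    · intro a b h
      exact (Prod.mk.inj h).1
    · rw [Finset.disjoint_left]
      rintro ⟨u, t⟩ h1 h2
      simp only [Finset.mem_image, SimpleGraph.mem_neighborFinset, Prod.mk.injEq,
        Finset.mem_filter, Finset.mem_univ, true_and] at h1 h2
      obtain ⟨w, hw, hwu, hst⟩ := h1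
      obtain ⟨j, _, hvu, hflt⟩ := h2
      exact flne s j (hflt.trans hst.symm)
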