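import Mathlib

/-!
Finite Ramsey theorem for `K`-element subsets, `r` colours.
-/

set_option autoImplicit false

namespace Pool.Agent.Helper40

universe u

/-- Set form: in any linearly ordered type, every large enough finite set contains a subset of size
`m` all of whose `K`-element subsets get the same colour. -/
theorem ramseyK_set (K : ℕ) : ∀ (r m : ℕ), 1 ≤ r → ∃ N : ℕ, ∀ (α : Type u) [LinearOrder α]
    (V : Finset α), N ≤ V.card → ∀ c : Finset α → Fin r,
      ∃ H : Finset α, H ⊆ V ∧ H.card = m ∧ ∃ i, ∀ S, S ⊆ H → S.card = K → c S = i := by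
  induction K with
  | zero =>
    intro r m hr
    refine ⟨m, fun α _ V hV c => ?_⟩
    obtain ⟨H, hH, hc⟩ := Finset.exists_subset_card_eq hV
    refine ⟨H, hH, hc, c ∅, fun S _ hS => ?_⟩
    rw [Finset.card_eq_zero.mp hS]
  | succ K ih =>
    intro r m hr
    -- min-homogeneous sets
    have key : ∀ m' : ℕ, ∃ N : ℕ, ∀ (α : Type u) [LinearOrder α]
        (V : Finset α), N ≤ V.card → ∀ c : Finset α → Fin r,
        ∃ H : Finset α, H ⊆ V ∧ H.card = m' ∧ ∃ d : α → Fin r,
          ∀ S, S ⊆ H → S.card = K + 1 → ∀ v ∈ S, (∀ w ∈ S, v ≤ w) → c S = d v := by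
      intro m'
      induction m' with
      | zero =>
        refine ⟨0, fun α _ V hV c => ⟨∅, Finset.empty_subset _, rfl, fun _ => ⟨0, hr⟩, ?_⟩⟩
        intro S hS hc
        rw [Finset.subset_empty.mp hS] at hc
        simp at hc
      | succ m' ihm =>
        obtain ⟨N', hN'⟩ := ihm
        obtain ⟨N, hN⟩ := ih r N' hr
        refine ⟨N + 1, fun α _ V hV c => ?_⟩
        have hne : V.Nonempty := by
          rw [← Finset.card_pos]; omega
        set v := V.min' hne with hv
        have hvV : v ∈ V := Finset.min'_mem _ _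
        obtain ⟨V'', hV'', hcard, i, hi⟩ := hN α (V.erase v)
          (by rw [Finset.card_erase_of_mem hvV]; omega) (fun T => c (insert v T))
        obtain ⟨H', hH', hH'c, d, hd⟩ := hN' α V'' (by omega) c
        have hvH' : v ∉ H' := fun h => by
          have := hV'' (hH' h)
          simp at this
        refine ⟨insert v H', ?_, ?_, Function.update d v i, ?_⟩
        · intro x hx
          rcases Finset.mem_insert.mp hx with rfl | hx
          · exact hvV
          · exact Finset.mem_of_mem_erase (hV'' (hH' hx))
        · rw [Finset.card_insert_of_notMem hvH', hH'c]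
        · intro S hS hSc w hw hmin
          by_cases hvS : v ∈ S
          · have hwv : w = v := by
              apply le_antisymm (hmin v hvS)
              apply Finset.min'_le
              rcases Finset.mem_insert.mp (hS hw) with rfl | hx
              · exact hvV
              · exact Finset.mem_of_mem_erase (hV'' (hH' hx))
            rw [hwv, Function.update_self]
            have h1 := hi (S.erase v) ?_ ?_
            · rwa [Finset.insert_erase hvS] at h1
            · intro x hx
              have hx1 := hS (Finset.mem_of_mem_erase hx)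
              rcases Finset.mem_insert.mp hx1 with h | h
              · exact absurd h (Finset.ne_of_mem_erase hx)
              · exact hH' h
            · rw [Finset.card_erase_of_mem hvS, hSc]; rfl
          · have hwv : w ≠ v := fun h => hvS (h ▸ hw)
            rw [Function.update_of_ne hwv]
            apply hd S ?_ hSc w hw hmin
            intro x hx
            rcases Finset.mem_insert.mp (hS hx) with h | h
            · exact absurd (h ▸ hx) hvS
            · exact h
    obtain ⟨N, hN⟩ := key (r * m)
    refine ⟨N, fun α _ V hV c => ?_⟩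
    obtain ⟨H, hHV, hHc, d, hd⟩ := hN α V hV c
    have hne : Nonempty (Fin r) := ⟨⟨0, hr⟩⟩
    obtain ⟨i, -, hi⟩ := Finset.exists_le_card_fiber_of_mul_le_card_of_maps_to (s := H)
      (t := (Finset.univ : Finset (Fin r))) (f := d) (n := m) (fun _ _ => Finset.mem_univ _)
      Finset.univ_nonempty (by simp [hHc])
    obtain ⟨H', hH', hH'c⟩ := Finset.exists_subset_card_eq hi
    refine ⟨H', fun x hx => hHV (Finset.mem_filter.mp (hH' hx)).1, hH'c, i, fun S hS hSc => ?_⟩
    have hSne : S.Nonempty := by rw [← Finset.card_pos]; omega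
    have hmem : S.min' hSne ∈ S := Finset.min'_mem _ _
    rw [hd S (fun x hx => (Finset.mem_filter.mp (hH' (hS hx))).1) hSc (S.min' hSne) hmem
      (fun w hw => Finset.min'_le _ _ hw)]
    exact (Finset.mem_filter.mp (hH' (hS hmem))).2

/-- Finite Ramsey theorem on `Fin N`. -/
theorem ramseyK (K r m : ℕ) (hr : 1 ≤ r) : ∃ N : ℕ, ∀ c : Finset (Fin N) → Fin r,
    ∃ H : Finset (Fin N), H.card = m ∧ ∃ i, ∀ S, S ⊆ H → S.card = K → c S = i := by
  obtain ⟨N, hN⟩ := ramseyK_set.{0} K r m hr
  refine ⟨N, fun c => ?_⟩
  obtain ⟨H, -, h⟩ := hN (Fin N) Finset.univ (by simp) c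
  exact ⟨H, h⟩

/-- Order-embedding form: every colouring of the `K`-subsets of `Fin N` is constant on the
`K`-subsets of the image of some strictly monotone map from `Fin m`. -/
theorem ramseyK_mono (K r m : ℕ) (hr : 1 ≤ r) : ∃ N : ℕ, ∀ c : Finset (Fin N) → Fin r,
    ∃ g : Fin m → Fin N, StrictMono g ∧
      ∃ i, ∀ S : Finset (Fin m), S.card = K → c (S.image g) = i := by
  obtain ⟨N, hN⟩ := ramseyK K r m hr
  refine ⟨N, fun c => ?_⟩
  obtain ⟨H, hHc, i, hi⟩ := hN c
  refine ⟨H.orderEmbOfFin hHc, (H.orderEmbOfFin hHc).strictMono, i, fun S hS => ?_⟩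
  apply hi
  · intro x hx
    obtain ⟨y, -, rfl⟩ := Finset.mem_image.mp hx
    exact Finset.orderEmbOfFin_mem H hHc y
  · rw [Finset.card_image_of_injective _ (H.orderEmbOfFin hHc).injective, hS]

/-- Strictly monotone tuples form: colourings of the strictly increasing maps `Fin K → Fin N`. -/
theorem ramseyK_tuple (K r m : ℕ) (hr : 1 ≤ r) : ∃ N : ℕ, ∀ c : (Fin K → Fin N) → Fin r,
    ∃ g : Fin m → Fin N, StrictMono g ∧
      ∃ i, ∀ s : Fin K → Fin m, StrictMono s → c (g ∘ s) = i := by
  obtain ⟨N, hN⟩ := ramseyK_mono K r m hr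
  refine ⟨N, fun c => ?_⟩
  obtain ⟨g, hg, i, hi⟩ := hN (fun S => if h : S.card = K then c (S.orderEmbOfFin h)
    else ⟨0, hr⟩)
  refine ⟨g, hg, i, fun s hs => ?_⟩
  have hcard : (Finset.univ.image s).card = K := by
    rw [Finset.card_image_of_injective _ hs.injective]; simp
  have h1 := hi (Finset.univ.image s) hcard
  have hcard2 : ((Finset.univ.image s).image g).card = K := by
    rw [Finset.card_image_of_injective _ hg.injective]; exact hcard
  rw [dif_pos hcard2] at h1
  rw [← h1]
  congr 1
  apply Finset.orderEmbOfFin_unique hcard2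
  · intro x
    simp only [Function.comp, Finset.mem_image, Finset.mem_univ, true_and]
    exact ⟨s x, ⟨x, rfl⟩, rfl⟩
  · exact hg.comp hs

end Pool.Agent.Helper40
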