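import Mathlib
import Pool.Agent.Helper4.UpLoc.Defs

namespace Pool.Agent.Helper4.UpLoc

open Classical in
/-- Part A: from a bar representation to an upward drawing. -/
theorem partA : PartA := by
  intro V _ E h x K₁ K₂ D hinj xinj hE hK₂ hK₁ hD A hA
  -- horizontal position of a vertex
  let X : V → ℝ := fun w => if hw : ∃ e ∈ E, Inc w e then (x hw.choose : ℝ) else 1 / 2
  have hX : ∀ w, ∀ e ∈ E, Inc w e → ∃ e₀ ∈ E, Inc w e₀ ∧ X w = x e₀ := by
    intro w e he hi
    have hw : ∃ e ∈ E, Inc w e := ⟨e, he, hi⟩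
    refine ⟨hw.choose, hw.choose_spec.1, hw.choose_spec.2, ?_⟩
    simp only [X, dif_pos hw]
  -- never equal to the `x` of a non incident edge
  have hXne : ∀ w, ∀ e ∈ E, ¬ Inc w e → X w ≠ x e := by
    intro w e he hi hxe
    by_cases hw : ∃ e ∈ E, Inc w e
    · obtain ⟨e', he', hi'⟩ := hw
      obtain ⟨e₀, he₀, hi₀, hx₀⟩ := hX w e' he' hi'
      rw [hx₀] at hxe
      have h1 : x e₀ = x e := by exact_mod_cast hxe
      have h2 := xinj he₀ he h1
      exact hi (h2 ▸ hi₀)
    · have h1 : X w = 1 / 2 := by simp only [X, dif_neg hw]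
      rw [h1] at hxe
      have h2 : ((1 : ℤ) : ℝ) = ((2 * x e : ℤ) : ℝ) := by
        push_cast
        linarith
      have h3 : (1 : ℤ) = 2 * x e := by exact_mod_cast h2
      omega
  let F : V × V → ℝ → ℝ := fun e y =>
    x e + (X e.1 - x e) * max 0 (1 - 3 * (y - h e.1)) + (X e.2 - x e) * max 0 (1 - 3 * (h e.2 - y))
  have hh1 : ∀ e ∈ E, (h e.1 : ℝ) + 1 ≤ h e.2 := by
    intro e he
    have := hE e he
    have h2 : h e.1 + 1 ≤ h e.2 := by omega
    exact_mod_cast h2
  -- values of `F`
  have hF1 : ∀ e ∈ E, ∀ y : ℝ, (h e.1 : ℝ) ≤ y → y < h e.1 + 1 / 3 →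
      F e y = X e.1 + 3 * (y - h e.1) * (x e - X e.1) := by
    intro e he y h1 h2
    have h3 := hh1 e he
    have m1 : max 0 (1 - 3 * (y - h e.1)) = 1 - 3 * (y - h e.1) := max_eq_right (by linarith)
    have m2 : max 0 (1 - 3 * ((h e.2 : ℝ) - y)) = 0 := max_eq_left (by linarith)
    simp only [F, m1, m2]
    ring
  have hF2 : ∀ e ∈ E, ∀ y : ℝ, y ≤ (h e.2 : ℝ) → (h e.2 : ℝ) - 1 / 3 < y →
      F e y = X e.2 + 3 * (h e.2 - y) * (x e - X e.2) := by
    intro e he y h1 h2
    have h3 := hh1 e he
    have m1 : max 0 (1 - 3 * (y - h e.1)) = 0 := max_eq_left (by linarith)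
    have m2 : max 0 (1 - 3 * ((h e.2 : ℝ) - y)) = 1 - 3 * ((h e.2 : ℝ) - y) :=
      max_eq_right (by linarith)
    simp only [F, m1, m2]
    ring
  have hF3 : ∀ e ∈ E, ∀ y : ℝ, (h e.1 : ℝ) + 1 / 3 ≤ y → y ≤ h e.2 - 1 / 3 → F e y = x e := by
    intro e he y h1 h2
    have m1 : max 0 (1 - 3 * (y - h e.1)) = 0 := max_eq_left (by linarith)
    have m2 : max 0 (1 - 3 * ((h e.2 : ℝ) - y)) = 0 := max_eq_left (by linarith)
    simp only [F, m1, m2]
    ring
  -- the drawing
  let Y : V × V → unitInterval → ℝ := fun e t => h e.1 + (h e.2 - h e.1) * (t : ℝ)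
  have hYmem : ∀ e ∈ E, ∀ t, (h e.1 : ℝ) ≤ Y e t ∧ Y e t ≤ h e.2 := by
    intro e he t
    have h3 := hh1 e he
    have t0 := t.2.1
    have t1 := t.2.2
    simp only [Y]
    constructor
    · nlinarith
    · nlinarith
  let dr : UpwardDrawing A :=
    { pos := fun w => (X w, (h w : ℝ))
      pos_injective := by
        intro a b hab
        have h1 : (h a : ℝ) = h b := congrArg Prod.snd hab
        exact hinj (by exact_mod_cast h1)
      arc := fun u v _ t => (F (u, v) (Y (u, v) t), Y (u, v) t)
      arc_continuous := by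
        intro u v _
        simp only [F, Y]
        fun_prop
      arc_zero := by
        intro u v huv
        have he := hA u v huv
        have h0 : Y (u, v) 0 = h u := by simp [Y]
        have h1 := hF1 (u, v) he (h u) le_rfl (by linarith)
        simp only [h0, h1]
        simp
      arc_one := by
        intro u v huv
        have he := hA u v huv
        have h0 : Y (u, v) 1 = h v := by simp [Y]
        have h1 := hF2 (u, v) he (h v) le_rfl (by linarith)
        simp only [h0, h1]
        simp
      arc_upward := by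
        intro u v huv s t hst
        have he := hA u v huv
        have h3 := hh1 _ he
        have h4 : (s : ℝ) < t := hst
        simp only [Y] at *
        nlinarith
      arc_avoids := by
        rintro u v huv w hwu hwv ⟨t, ht⟩
        have he := hA u v huv
        have hy : Y (u, v) t = h w := congrArg Prod.snd ht
        have hx : F (u, v) (Y (u, v) t) = X w := congrArg Prod.fst ht
        obtain ⟨m1, m2⟩ := hYmem _ he t
        rw [hy] at m1 m2 hx
        have m1' : h u ≤ h w := by exact_mod_cast m1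
        have m2' : h w ≤ h v := by exact_mod_cast m2
        have n1 : h w ≠ h u := fun hh => hwu (hinj hh)
        have n2 : h w ≠ h v := fun hh => hwv (hinj hh)
        have o1 : h u + 1 ≤ h w := by omega
        have o2 : h w + 1 ≤ h v := by omega
        have o1' : (h u : ℝ) + 1 ≤ h w := by exact_mod_cast o1
        have o2' : (h w : ℝ) + 1 ≤ h v := by exact_mod_cast o2
        rw [hF3 (u, v) he (h w) (by simp only; linarith) (by simp only; linarith)] at hx
        exact hXne w (u, v) he (by rintro (hh | hh); exacts [hwu hh, hwv hh]) hx.symm }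
  refine ⟨dr, ?_⟩
  intro e heA
  have he : e ∈ E := hA _ _ heA
  -- the three families of crossing points
  let p₁ : V × V → (V × V) × (ℝ × ℝ) := fun e' =>
    (e', ((x e' : ℝ), (h e.1 : ℝ) + (x e' - X e.1) / (3 * (x e - X e.1))))
  let p₂ : V × V → (V × V) × (ℝ × ℝ) := fun e' =>
    (e', ((x e' : ℝ), (h e.2 : ℝ) - (x e' - X e.2) / (3 * (x e - X e.2))))
  let p₃ : V → V × V → (V × V) × (ℝ × ℝ) := fun w e' =>
    (e', ((x e : ℝ), if w = e'.1 then (h w : ℝ) + (x e - X w) / (3 * (x e' - X w))
      else (h w : ℝ) - (x e - X w) / (3 * (x e' - X w))))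
  let T₁ : Finset ((V × V) × (ℝ × ℝ)) :=
    ({e' | e' ∈ E ∧ Cross h x E e' e.1} : Set (V × V)).toFinset.image p₁
  let T₂ : Finset ((V × V) × (ℝ × ℝ)) :=
    ({e' | e' ∈ E ∧ Cross h x E e' e.2} : Set (V × V)).toFinset.image p₂
  let T₃ : Finset ((V × V) × (ℝ × ℝ)) :=
    ({w | Cross h x E e w} : Set V).toFinset.biUnion fun w =>
      ({e' | e' ∈ E ∧ Inc w e'} : Set (V × V)).toFinset.image (p₃ w)
  have c₁ : T₁.card ≤ K₂ := by
    refine Finset.card_image_le.trans ?_
    rw [← Set.ncard_eq_toFinset_card']
    exact hK₂ e.1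
  have c₂ : T₂.card ≤ K₂ := by
    refine Finset.card_image_le.trans ?_
    rw [← Set.ncard_eq_toFinset_card']
    exact hK₂ e.2
  have c₃ : T₃.card ≤ D * K₁ := by
    rw [mul_comm]
    refine (Finset.card_biUnion_le_card_mul _ _ D ?_).trans ?_
    · intro w _
      refine Finset.card_image_le.trans ?_
      rw [← Set.ncard_eq_toFinset_card']
      exact hD w
    · refine Nat.mul_le_mul_right _ ?_
      rw [← Set.ncard_eq_toFinset_card']
      exact hK₁ e he
  have hsub : dr.crossings e heA ⊆ ((T₁ ∪ T₂ ∪ T₃ : Finset _) : Set ((V × V) × (ℝ × ℝ))) := by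
    rintro ⟨e', p⟩ ⟨heA', hne, ⟨t, ht⟩, ⟨t', ht'⟩, hnot⟩
    simp only at heA' hne ht ht' hnot
    have he' : e' ∈ E := hA _ _ heA'
    have hxne : x e ≠ x e' := fun hh => hne (xinj he he' hh).symm
    have hxne' : (x e : ℝ) ≠ x e' := by exact_mod_cast hxne
    obtain ⟨y, hy⟩ : ∃ y, Y e t = y := ⟨_, rfl⟩
    obtain ⟨m1, m2⟩ := hYmem _ he t
    obtain ⟨m1', m2'⟩ := hYmem _ he' t'
    have hp2 : y = p.2 := by rw [← hy, ← ht]
    have hp2' : Y e' t' = p.2 := by rw [← ht']
    have hp1 : F e y = p.1 := by rw [← hy, ← ht]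
    have hp1' : F e' y = p.1 := by
      rw [hp2, ← ht']
    rw [hy] at m1 m2
    rw [hp2', ← hp2] at m1' m2'
    simp only [Finset.coe_union, Set.mem_union, Finset.mem_coe]
    have hpe : p = (p.1, y) := by rw [hp2]
    have hnot' : ∀ w, (w = e.1 ∨ w = e.2) → (w = e'.1 ∨ w = e'.2) → ¬ (p.1 = X w ∧ y = h w) := by
      rintro w hw hw' ⟨ha, hb⟩
      apply hnot
      refine ⟨w, hw, hw', ?_⟩
      rw [hpe, ha, hb]
    by_cases hc1 : y < h e.1 + 1 / 3
    · -- case 1
      left; left
      have f1 := hF1 e he y m1 hc1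
      have k1 : e'.1 ≠ e.1 := by
        intro hh
        have f1' := hF1 e' he' y m1' (by rw [hh]; exact hc1)
        rw [hh] at f1'
        have hs : (y - h e.1) * ((x e : ℝ) - x e') = 0 := by
          have : F e y = F e' y := by rw [hp1, hp1']
          rw [f1, f1'] at this
          linarith
        have hs' : y - h e.1 = 0 := by
          rcases mul_eq_zero.1 hs with h0 | h0
          · exact h0
          · exact absurd (by linarith) hxne'
        refine hnot' e.1 (Or.inl rfl) (Or.inl hh.symm) ⟨?_, by linarith⟩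
        rw [← hp1, f1, hs']
        ring
      have k2 : h e'.1 < h e.1 := by
        have q1 : (h e'.1 : ℝ) < h e.1 + 1 := by linarith
        have q2 : h e'.1 < h e.1 + 1 := by exact_mod_cast q1
        have q3 : h e'.1 ≠ h e.1 := fun hh => k1 (hinj hh)
        omega
      have k3 : e'.2 ≠ e.1 := by
        intro hh
        rw [hh] at m2'
        have hs' : y = h e.1 := le_antisymm m2' m1
        refine hnot' e.1 (Or.inl rfl) (Or.inr hh.symm) ⟨?_, hs'⟩
        rw [← hp1, f1, hs']
        ring
      have k4 : h e.1 < h e'.2 := by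
        have q1 : (h e.1 : ℝ) ≤ h e'.2 := by linarith
        have q2 : h e.1 ≤ h e'.2 := by exact_mod_cast q1
        have q3 : h e'.2 ≠ h e.1 := fun hh => k3 (hinj hh)
        omega
      have k2r : (h e'.1 : ℝ) + 1 ≤ h e.1 := by exact_mod_cast (show h e'.1 + 1 ≤ h e.1 by omega)
      have k4r : (h e.1 : ℝ) + 1 ≤ h e'.2 := by exact_mod_cast (show h e.1 + 1 ≤ h e'.2 by omega)
      have f1' := hF3 e' he' y (by linarith) (by linarith)
      have hninc : ¬ Inc e.1 e' := by rintro (hh | hh); exacts [k1 hh.symm, k3 hh.symm]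
      have hXe' := hXne e.1 e' he' hninc
      have hmain : X e.1 + 3 * (y - h e.1) * (x e - X e.1) = x e' := by
        rw [← f1, hp1, ← hp1', f1']
      have hd : (x e : ℝ) - X e.1 ≠ 0 := by
        intro hd
        rw [hd] at hmain
        apply hXe'
        linarith
      obtain ⟨e₀, he₀, hi₀, hx₀⟩ := hX e.1 e he (Or.inl rfl)
      simp only [T₁, Finset.mem_image, Set.mem_toFinset, Set.mem_ofPred_eq]
      refine ⟨e', ⟨he', k1.symm, k3.symm, k2, k4, ?_⟩, ?_⟩
      · have hs0 : 0 < y - h e.1 := by
          rcases (sub_nonneg.2 m1).eq_or_lt with h0 | h0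
          · exfalso
            rw [← h0] at hmain
            apply hXe'
            linarith
          · exact h0
        have hs1 : y - h e.1 < 1 / 3 := by linarith
        rcases lt_or_gt_of_ne hd with hneg | hpos
        · refine ⟨e, he, e₀, he₀, Or.inl rfl, hi₀, ?_, ?_⟩
          · have : (x e : ℝ) < x e' := by rw [← hmain]; nlinarith
            exact_mod_cast this
          · have : (x e' : ℝ) < x e₀ := by rw [← hmain, ← hx₀]; nlinarith
            exact_mod_cast this
        · refine ⟨e₀, he₀, e, he, hi₀, Or.inl rfl, ?_, ?_⟩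
          · have : (x e₀ : ℝ) < x e' := by rw [← hmain, ← hx₀]; nlinarith
            exact_mod_cast this
          · have : (x e' : ℝ) < x e := by rw [← hmain]; nlinarith
            exact_mod_cast this
      · simp only [p₁]
        rw [hpe, ← hp1', f1']
        congr 2
        rw [← hmain]
        field_simp
        ring
    by_cases hc2 : (h e.2 : ℝ) - 1 / 3 < y
    · -- case 2
      left; right
      have f1 := hF2 e he y m2 hc2
      have k1 : e'.2 ≠ e.2 := by
        intro hh
        have f1' := hF2 e' he' y m2' (by rw [hh]; exact hc2)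
        rw [hh] at f1'
        have hs : (h e.2 - y) * ((x e : ℝ) - x e') = 0 := by
          have : F e y = F e' y := by rw [hp1, hp1']
          rw [f1, f1'] at this
          linarith
        have hs' : h e.2 - y = 0 := by
          rcases mul_eq_zero.1 hs with h0 | h0
          · exact h0
          · exact absurd (by linarith) hxne'
        refine hnot' e.2 (Or.inr rfl) (Or.inr hh.symm) ⟨?_, by linarith⟩
        rw [← hp1, f1, hs']
        ring
      have k2 : h e.2 < h e'.2 := by
        have q1 : (h e.2 : ℝ) < h e'.2 + 1 := by linarith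
        have q2 : h e.2 < h e'.2 + 1 := by exact_mod_cast q1
        have q3 : h e'.2 ≠ h e.2 := fun hh => k1 (hinj hh)
        omega
      have k3 : e'.1 ≠ e.2 := by
        intro hh
        rw [hh] at m1'
        have hs' : y = h e.2 := le_antisymm m2 m1'
        refine hnot' e.2 (Or.inr rfl) (Or.inl hh.symm) ⟨?_, hs'⟩
        rw [← hp1, f1, hs']
        ring
      have k4 : h e'.1 < h e.2 := by
        have q1 : (h e'.1 : ℝ) ≤ h e.2 := by linarith
        have q2 : h e'.1 ≤ h e.2 := by exact_mod_cast q1
        have q3 : h e'.1 ≠ h e.2 := fun hh => k3 (hinj hh)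
        omega
      have k2r : (h e.2 : ℝ) + 1 ≤ h e'.2 := by exact_mod_cast (show h e.2 + 1 ≤ h e'.2 by omega)
      have k4r : (h e'.1 : ℝ) + 1 ≤ h e.2 := by exact_mod_cast (show h e'.1 + 1 ≤ h e.2 by omega)
      have f1' := hF3 e' he' y (by linarith) (by linarith)
      have hninc : ¬ Inc e.2 e' := by rintro (hh | hh); exacts [k3 hh.symm, k1 hh.symm]
      have hXe' := hXne e.2 e' he' hninc
      have hmain : X e.2 + 3 * (h e.2 - y) * (x e - X e.2) = x e' := by
        rw [← f1, hp1, ← hp1', f1']
      have hd : (x e : ℝ) - X e.2 ≠ 0 := by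
        intro hd
        rw [hd] at hmain
        apply hXe'
        linarith
      obtain ⟨e₀, he₀, hi₀, hx₀⟩ := hX e.2 e he (Or.inr rfl)
      simp only [T₂, Finset.mem_image, Set.mem_toFinset, Set.mem_ofPred_eq]
      refine ⟨e', ⟨he', k3.symm, k1.symm, k4, k2, ?_⟩, ?_⟩
      · have hs0 : 0 < h e.2 - y := by
          rcases (sub_nonneg.2 m2).eq_or_lt with h0 | h0
          · exfalso
            rw [← h0] at hmain
            apply hXe'
            linarith
          · exact h0
        have hs1 : h e.2 - y < 1 / 3 := by linarith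
        rcases lt_or_gt_of_ne hd with hneg | hpos
        · refine ⟨e, he, e₀, he₀, Or.inr rfl, hi₀, ?_, ?_⟩
          · have : (x e : ℝ) < x e' := by rw [← hmain]; nlinarith
            exact_mod_cast this
          · have : (x e' : ℝ) < x e₀ := by rw [← hmain, ← hx₀]; nlinarith
            exact_mod_cast this
        · refine ⟨e₀, he₀, e, he, hi₀, Or.inr rfl, ?_, ?_⟩
          · have : (x e₀ : ℝ) < x e' := by rw [← hmain, ← hx₀]; nlinarith
            exact_mod_cast this
          · have : (x e' : ℝ) < x e := by rw [← hmain]; nlinarith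
            exact_mod_cast this
      · simp only [p₂]
        rw [hpe, ← hp1', f1']
        congr 2
        rw [← hmain]
        field_simp
        ring
    -- case 3
    right
    push Not at hc1 hc2
    have f1 := hF3 e he y hc1 hc2
    have key : ∀ w, Inc w e' → ∀ s : ℝ, 0 ≤ s → s < 1 / 3 → (y = h w + s ∨ y = h w - s) →
        X w + 3 * s * (x e' - X w) = x e →
        Cross h x E e w ∧ s = (x e - X w) / (3 * (x e' - X w)) := by
      intro w hw s hs0 hs1 hys hmain
      have k1 : h e.1 < h w := by
        have : (h e.1 : ℝ) < h w := by rcases hys with hh | hh <;> linarith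
        exact_mod_cast this
      have k2 : h w < h e.2 := by
        have : (h w : ℝ) < h e.2 := by rcases hys with hh | hh <;> linarith
        exact_mod_cast this
      have n1 : w ≠ e.1 := fun hh => by rw [hh] at k1; exact lt_irrefl _ k1
      have n2 : w ≠ e.2 := fun hh => by rw [hh] at k2; exact lt_irrefl _ k2
      have hninc : ¬ Inc w e := by rintro (hh | hh); exacts [n1 hh, n2 hh]
      have hXe := hXne w e he hninc
      have hd : (x e' : ℝ) - X w ≠ 0 := by
        intro hd
        rw [hd] at hmain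
        apply hXe
        linarith
      obtain ⟨e₀, he₀, hi₀, hx₀⟩ := hX w e' he' hw
      refine ⟨⟨n1, n2, k1, k2, ?_⟩, ?_⟩
      · have hs0' : 0 < s := by
          rcases hs0.eq_or_lt with h0 | h0
          · exfalso
            rw [← h0] at hmain
            apply hXe
            linarith
          · exact h0
        rcases lt_or_gt_of_ne hd with hneg | hpos
        · refine ⟨e', he', e₀, he₀, hw, hi₀, ?_, ?_⟩
          · have : (x e' : ℝ) < x e := by rw [← hmain]; nlinarith
            exact_mod_cast this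
          · have : (x e : ℝ) < x e₀ := by rw [← hmain, ← hx₀]; nlinarith
            exact_mod_cast this
        · refine ⟨e₀, he₀, e', he', hi₀, hw, ?_, ?_⟩
          · have : (x e₀ : ℝ) < x e := by rw [← hmain, ← hx₀]; nlinarith
            exact_mod_cast this
          · have : (x e : ℝ) < x e' := by rw [← hmain]; nlinarith
            exact_mod_cast this
      · rw [← hmain]
        field_simp
        ring
    simp only [T₃, Finset.mem_biUnion, Finset.mem_image, Set.mem_toFinset, Set.mem_ofPred_eq]
    by_cases hd1 : y < h e'.1 + 1 / 3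
    · have f1' := hF1 e' he' y m1' hd1
      obtain ⟨hcr, hs⟩ := key e'.1 (Or.inl rfl) (y - h e'.1) (by linarith) (by linarith)
        (Or.inl (by ring)) (by rw [← f1', hp1', ← hp1, f1])
      refine ⟨e'.1, hcr, e', ⟨he', Or.inl rfl⟩, ?_⟩
      simp only [p₃, if_true]
      rw [hpe, ← hp1, f1]
      congr 2
      rw [← hs]
      ring
    by_cases hd2 : (h e'.2 : ℝ) - 1 / 3 < y
    · have f1' := hF2 e' he' y m2' hd2
      obtain ⟨hcr, hs⟩ := key e'.2 (Or.inr rfl) (h e'.2 - y) (by linarith) (by linarith)
        (Or.inr (by ring)) (by rw [← f1', hp1', ← hp1, f1])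
      refine ⟨e'.2, hcr, e', ⟨he', Or.inr rfl⟩, ?_⟩
      have hne12 : e'.2 ≠ e'.1 := by
        intro hh
        have := hE e' he'
        rw [hh] at this
        exact lt_irrefl _ this
      simp only [p₃, if_neg hne12]
      rw [hpe, ← hp1, f1]
      congr 2
      rw [← hs]
      ring
    exfalso
    push Not at hd1 hd2
    have f1' := hF3 e' he' y hd1 hd2
    apply hxne'
    rw [← f1, hp1, ← hp1', f1']
  calc (dr.crossings e heA).encard ≤ ((T₁ ∪ T₂ ∪ T₃ : Finset _) : Set ((V × V) × (ℝ × ℝ))).encard :=
        Set.encard_le_encard hsub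
    _ = ((T₁ ∪ T₂ ∪ T₃ : Finset _).card : ℕ∞) := Set.encard_coe_eq_coe_finsetCard _
    _ ≤ ((2 * K₂ + D * K₁ : ℕ) : ℕ∞) := by
        refine Nat.cast_le.2 ?_
        have := Finset.card_union_le (T₁ ∪ T₂) T₃
        have := Finset.card_union_le T₁ T₂
        omega

end Pool.Agent.Helper4.UpLoc
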