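import Mathlib
import Pool.Agent.Helper62.AC.Defs

open Set Topology TopologicalSpace Filter

namespace Pool.Agent.Helper40.ACJ

open Pool.Agent.Helper62.AC

section Fwd

variable {Y Y' : Type} [TopologicalSpace Y] [T2Space Y] [TopologicalSpace Y'] [T2Space Y']
  {f : Y → Y'} {X : Set Y}

theorem arcBetween_image (hf : ContinuousOn f X) (hi : InjOn f X) {A : Set Y} {a b : Y}
    (hA : A ⊆ X) (h : ArcBetween A a b) : ArcBetween (f '' A) (f a) (f b) := by
  obtain ⟨γ, hc, hinj, hr, h0, h1⟩ := h.exists_map
  have hmem : ∀ t, γ t ∈ X := fun t => hA (hr ▸ mem_range_self t)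
  refine arcBetween_of_map (f ∘ γ) (hf.comp_continuous hc hmem) ?_ ?_ ?_ ?_
  · intro s t hst
    exact hinj (hi (hmem s) (hmem t) hst)
  · rw [range_comp, hr]
  · simp [h0]
  · simp [h1]

theorem isGraph_image (hf : ContinuousOn f X) (hi : InjOn f X) (h : IsGraph X) :
    IsGraph (f '' X) := by
  obtain ⟨hc, n, A, a, b, hab, hU, hint⟩ := h
  have hAX : ∀ i, A i ⊆ X := fun i => by
    rw [hU]
    exact subset_iUnion A i
  refine ⟨hc.image f hf, n, fun i => f '' A i, fun i => f (a i), fun i => f (b i), ?_, ?_, ?_⟩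
  · intro i
    exact arcBetween_image hf hi (hAX i) (hab i)
  · conv_lhs => rw [hU]
    exact image_iUnion
  · rintro i j hij _ ⟨⟨x, hx, rfl⟩, ⟨x', hx', hxx'⟩⟩
    have hE : x' = x := hi (hAX j hx') (hAX i hx) hxx'
    subst hE
    obtain ⟨h1, h2⟩ := hint i j hij ⟨hx, hx'⟩
    constructor
    · rcases h1 with h1 | h1
      · left; rw [h1]
      · right; rw [mem_singleton_iff] at h1 ⊢; rw [h1]
    · rcases h2 with h2 | h2
      · left; rw [h2]
      · right; rw [mem_singleton_iff] at h2 ⊢; rw [h2]

theorem nArcConn_image (hf : ContinuousOn f X) (hi : InjOn f X) (n : ℕ) (h : NArcConn n X) :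
    NArcConn n (f '' X) := by
  intro x hx
  choose y hy hyx using hx
  obtain ⟨A, hAX, hA, hyA⟩ := h y hy
  obtain ⟨a, b, hab⟩ := hA.exists_between
  exact ⟨f '' A, image_mono hAX, (arcBetween_image hf hi hAX hab).isArc,
    fun i => ⟨y i, hyA i, hyx i⟩⟩

end Fwd

theorem not_isArc_empty {Y : Type} [TopologicalSpace Y] : ¬ IsArc (∅ : Set Y) := by
  rintro ⟨h⟩
  exact (h.symm 0).2

/-- Packet J. -/
theorem stmtJ : StmtJ := by
  intro Y Y' _ _ _ _ f X hX hf hi
  rcases X.eq_empty_or_nonempty with rfl | hne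
  · rw [image_empty]
    refine ⟨?_, ?_⟩
    · constructor
      · intro h
        exact absurd h.1.nonempty not_nonempty_empty
      · intro h
        exact absurd h.1.nonempty not_nonempty_empty
    · intro n
      rcases n with _ | n
      · constructor
        · intro h
          obtain ⟨A, hA, hA', -⟩ := h (fun i => i.elim0) (fun i => i.elim0)
          rw [subset_empty_iff] at hA
          subst hA
          exact absurd hA' not_isArc_empty
        · intro h
          obtain ⟨A, hA, hA', -⟩ := h (fun i => i.elim0) (fun i => i.elim0)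
          rw [subset_empty_iff] at hA
          subst hA
          exact absurd hA' not_isArc_empty
      · constructor
        · intro _ x hx
          exact absurd (hx 0) (notMem_empty _)
        · intro _ x hx
          exact absurd (hx 0) (notMem_empty _)
  · obtain ⟨x₀, hx₀⟩ := hne
    haveI : Nonempty Y := ⟨x₀⟩
    let g : Y' → Y := Function.invFunOn f X
    have hgf : ∀ x ∈ X, g (f x) = x := fun x hx => hi.leftInvOn_invFunOn hx
    have himg : g '' (f '' X) = X := by
      ext y
      constructor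
      · rintro ⟨_, ⟨x, hx, rfl⟩, rfl⟩
        rw [hgf x hx]
        exact hx
      · intro hy
        exact ⟨f y, ⟨y, hy, rfl⟩, hgf y hy⟩
    have hgi : InjOn g (f '' X) := by
      rintro _ ⟨x, hx, rfl⟩ _ ⟨x', hx', rfl⟩ h
      rw [hgf x hx, hgf x' hx'] at h
      rw [h]
    have hgc : ContinuousOn g (f '' X) := by
      rw [continuousOn_iff_isClosed]
      intro t ht
      refine ⟨f '' (X ∩ t), ?_, ?_⟩
      · exact ((hX.inter_right ht).image_of_continuousOn (hf.mono inter_subset_left)).isClosed
      · ext y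
        constructor
        · rintro ⟨hy, ⟨x, hx, rfl⟩⟩
          rw [mem_preimage, hgf x hx] at hy
          exact ⟨⟨x, ⟨hx, hy⟩, rfl⟩, ⟨x, hx, rfl⟩⟩
        · rintro ⟨⟨x, ⟨hx, hxt⟩, rfl⟩, -⟩
          refine ⟨?_, ⟨x, hx, rfl⟩⟩
          rw [mem_preimage, hgf x hx]
          exact hxt
    refine ⟨⟨fun h => ?_, fun h => isGraph_image hf hi h⟩,
      fun n => ⟨fun h => ?_, fun h => nArcConn_image hf hi n h⟩⟩
    · have := isGraph_image hgc hgi h
      rwa [himg] at this
    · have := nArcConn_image hgc hgi n h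
      rwa [himg] at this

end Pool.Agent.Helper40.ACJ
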