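import Pool.Agent.Helper78.BigMap.Goals

set_option autoImplicit false

open Topology Filter Set

namespace Pool.Agent.Helper78.BigMap

theorem goalF1.{v} : GoalF1.{v} := by
  intro G _ M _ _ θ hmul hone
  classical
  set U : Ultrafilter ℕ := Filter.hyperfilter ℕ with hU
  have hle : (U : Filter ℕ) ≤ atTop := by
    rw [← Nat.cofinite_eq_atTop]
    exact Filter.hyperfilter_le_cofinite
  have key : ∀ g : G, ∃ m : M, ∀ᶠ i in (U : Filter ℕ), θ i g = m := by
    intro g
    have h1 : ∀ᶠ i in (U : Filter ℕ), ∃ m ∈ (Set.univ : Set M), θ i g = m :=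
      Eventually.of_forall fun i => ⟨θ i g, mem_univ _, rfl⟩
    obtain ⟨m, -, hm⟩ := (Ultrafilter.eventually_exists_mem_iff (Set.finite_univ)).1 h1
    exact ⟨m, hm⟩
  choose L hL using key
  have huniq : ∀ (g : G) (m : M), (∀ᶠ i in (U : Filter ℕ), θ i g = m) → L g = m := by
    intro g m hm
    obtain ⟨i, h1, h2⟩ := ((hL g).and hm).exists
    exact h1.symm.trans h2
  let Lh : G →* M :=
    { toFun := L
      map_one' := huniq 1 1 (hle hone)
      map_mul' := by
        intro g h
        apply huniq
        filter_upwards [hL g, hL h, hle (hmul g h)] with i h1 h2 h3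
        rw [h3, h1, h2] }
  refine ⟨MonoidHom.toHomUnits Lh, ?_, ?_⟩
  · intro g hg
    apply Units.ext
    rw [MonoidHom.coe_toHomUnits]
    exact huniq g 1 (hle hg)
  · intro g h hgh hcomm
    have h1 := congrArg (Units.val) hcomm
    rw [Units.val_mul, Units.val_mul, MonoidHom.coe_toHomUnits, MonoidHom.coe_toHomUnits] at h1
    obtain ⟨i, h2, h3, h4⟩ := ((hL g).and ((hL h).and (hle hgh))).exists
    apply h4
    rw [h2, h3]
    exact h1

end Pool.Agent.Helper78.BigMap
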