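import Pool.Agent.Helper62.Hovey.Tree

/-!
# The tree of a sequence of orthogonal pairs (MP_d26844_gt)
-/

set_option autoImplicit false

open CategoryTheory CategoryTheory.Limits CategoryTheory.Pretriangulated MonoidalCategory

universe v u

namespace Pool.Agent.Helper62.Hovey

/-- the word of a node: the letter of `b :: s` is `true` if `t |s|` is a suffix of `b :: s` -/
def code (t : ℕ → List Bool) : List Bool → List Bool
  | [] => []
  | b :: s => decide (t s.length <:+ (b :: s)) :: code t s

theorem code_length (t : ℕ → List Bool) (s : List Bool) : (code t s).length = s.length := by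
  induction s with
  | nil => rfl
  | cons b s ih => simp [code, ih]

theorem pre_length (p : ℕ → Bool) (n : ℕ) : (pre p n).length = n := by
  induction n with
  | zero => rfl
  | succ n ih => simp [pre, ih]

theorem pre_suffix (p : ℕ → Bool) {m n : ℕ} (h : m ≤ n) : pre p m <:+ pre p n := by
  induction n, h using Nat.le_induction with
  | base => exact List.suffix_refl _
  | succ n _ ih => exact ih.trans (List.suffix_cons _ _)

/-- every list occurs infinitely often -/
theorem exists_enum : ∃ t : ℕ → List Bool, ∀ (w : List Bool) (n₀ : ℕ), ∃ n, n₀ ≤ n ∧ t n = w := by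
  refine ⟨fun n => (Encodable.decode (α := List Bool) n.unpair.1).getD [], ?_⟩
  intro w n₀
  refine ⟨Nat.pair (Encodable.encode w) n₀, Nat.right_le_pair _ _, ?_⟩
  simp

/-- the letter of the word of `s` at position `n` -/
theorem code_split (t : ℕ → List Bool) (n : ℕ) (s : List Bool) (hs : n < s.length)
    (h : ¬ (t n <:+ s)) : ∃ l w : List Bool, code t s = l ++ false :: w ∧ w.length = n := by
  induction s with
  | nil => simp at hs
  | cons b s ih =>
    by_cases hn : n < s.length
    · have h1 : ¬ (t n <:+ s) := fun h2 => h (h2.trans (List.suffix_cons _ _))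
      obtain ⟨l, w, h3, h4⟩ := ih hn h1
      refine ⟨decide (t s.length <:+ (b :: s)) :: l, w, ?_, h4⟩
      rw [code, h3]
      rfl
    · have h5 : s.length = n := by
        rw [List.length_cons] at hs
        omega
      refine ⟨[], code t s, ?_, by rw [code_length, h5]⟩
      rw [code, h5, decide_eq_false h]
      rfl

section

variable {T : Type u} [Category.{v} T] [MonoidalCategory T] [BraidedCategory T]

/-- move a factor to the front -/
theorem exists_iso (C : ℕ → Bool → T) (w : List Bool) (b : Bool) (l : List Bool) :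
    ∃ Y : T, Nonempty (wordObj C (l ++ b :: w) ≅ C w.length b ⊗ Y) := by
  induction l with
  | nil => exact ⟨wordObj C w, ⟨Iso.refl _⟩⟩
  | cons c l ih =>
    obtain ⟨Y, ⟨e⟩⟩ := ih
    refine ⟨C (l ++ b :: w).length c ⊗ Y, ⟨?_⟩⟩
    exact whiskerLeftIso (C (l ++ b :: w).length c) e ≪≫
      (α_ (C (l ++ b :: w).length c) (C w.length b) Y).symm ≪≫
      whiskerRightIso (β_ (C (l ++ b :: w).length c) (C w.length b)) Y ≪≫
      α_ (C w.length b) (C (l ++ b :: w).length c) Y

end

variable {T : Type u} [Category.{v} T] [HasZeroObject T] [HasShift T ℤ] [Preadditive T]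
  [∀ n : ℤ, (shiftFunctor T n).Additive] [Pretriangulated T] [MonoidalCategory T] [BraidedCategory T]

theorem wordMap_eq (C : ℕ → Bool → T) (γ : ∀ n b, 𝟙_ T ⟶ C n b) {b b' : Bool} {w w' : List Bool}
    (hb : b = b') (hw : w = w') :
    eqToHom (congrArg (wordObj C) hw) ≫ wordMap C γ b' w' =
      wordMap C γ b w ≫ eqToHom (congrArg (wordObj C) (congrArg₂ List.cons hb hw)) := by
  subst hb hw
  simp

theorem wordMap_orth (C : ℕ → Bool → T) (γ : ∀ n b, 𝟙_ T ⟶ C n b)
    (orth : ∀ (n : ℕ) (X Y : T) (k : ℤ) (x : C n true ⊗ X ⟶ (C n false ⊗ Y)⟦k⟧),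
      (λ_ X).inv ≫ γ n true ▷ X ≫ x = 0)
    {b : Bool} {w : List Bool} {n : ℕ} (hb : b = true) (hn : w.length = n) {Y Z : T}
    (e : Z ≅ C n false ⊗ Y) (k : ℤ) (x : wordObj C (b :: w) ⟶ Z⟦k⟧) :
    wordMap C γ b w ≫ x = 0 := by
  subst hb hn
  have h := orth w.length (wordObj C w) Y k (x ≫ e.hom⟦k⟧')
  have h1 : (wordMap C γ true w ≫ x) ≫ e.hom⟦k⟧' = 0 := by
    rw [← h, Category.assoc]
    exact Category.assoc (λ_ (wordObj C w)).inv (γ w.length true ▷ wordObj C w)
      (x ≫ e.hom⟦k⟧')
  have h2 : (wordMap C γ true w ≫ x) ≫ e.hom⟦k⟧' = 0 ≫ e.hom⟦k⟧' := by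
    rw [h1, zero_comp]
  exact (cancel_mono _).1 h2

/-- the composite morphisms of the tree, with better types -/
def treeNode (C : ℕ → Bool → T) (γ : ∀ n b, 𝟙_ T ⟶ C n b) (t : ℕ → List Bool) :
    ∀ l : List Bool, wordObj C [] ⟶ wordObj C (code t (l ++ []))
  | [] => 𝟙 _
  | b :: l => treeNode C γ t l ≫
      wordMap C γ (decide (t (l ++ []).length <:+ (b :: (l ++ [])))) (code t (l ++ []))

theorem toNode_eq_treeNode (C : ℕ → Bool → T) (γ : ∀ n b, 𝟙_ T ⟶ C n b) (t : ℕ → List Bool)
    (l : List Bool) :
    toNode (fun s => wordObj C (code t s)) (fun _ s => wordMap C γ _ (code t s)) [] l =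
      treeNode C γ t l := by
  induction l with
  | nil => rfl
  | cons b l ih =>
    exact congrArg (fun f : wordObj C [] ⟶ wordObj C (code t (l ++ [])) => f ≫
      wordMap C γ (decide (t (l ++ []).length <:+ (b :: (l ++ [])))) (code t (l ++ []))) ih

theorem treeNode_code (C : ℕ → Bool → T) (γ : ∀ n b, 𝟙_ T ⟶ C n b) (t : ℕ → List Bool)
    (l : List Bool) :
    treeNode C γ t l = toNode (wordObj C) (wordMap C γ) [] (code t l) ≫
        eqToHom (congrArg (wordObj C) (show code t l ++ [] = code t (l ++ []) by simp)) := by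
  induction l with
  | nil => exact (Category.id_comp _).symm
  | cons b l ih =>
    have hb : decide (t l.length <:+ (b :: l)) =
        decide (t (l ++ []).length <:+ (b :: (l ++ []))) := by
      simp only [List.append_nil]
    have h1 := wordMap_eq C γ hb (show code t l ++ [] = code t (l ++ []) by simp)
    have key : treeNode C γ t l ≫
        wordMap C γ (decide (t (l ++ []).length <:+ (b :: (l ++ [])))) (code t (l ++ [])) =
        (toNode (wordObj C) (wordMap C γ) [] (code t l) ≫
          wordMap C γ (decide (t l.length <:+ (b :: l))) (code t l ++ [])) ≫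
          eqToHom (congrArg (wordObj C) (congrArg₂ List.cons hb
            (show code t l ++ [] = code t (l ++ []) by simp))) := by
      rw [ih, Category.assoc, h1, Category.assoc]
    exact key

/-- the tree of a sequence of orthogonal pairs -/
theorem exists_tree (C : ℕ → Bool → T) (γ : ∀ n b, 𝟙_ T ⟶ C n b)
    (orth : ∀ (n : ℕ) (X Y : T) (k : ℤ) (x : C n true ⊗ X ⟶ (C n false ⊗ Y)⟦k⟧),
      (λ_ X).inv ≫ γ n true ▷ X ≫ x = 0)
    (indep : ∀ w : List Bool, toNode (wordObj C) (wordMap C γ) [] w ≠ 0) :
    ∃ t : ℕ → List Bool,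
      Separated (fun s => wordObj C (code t s)) (fun b s => wordMap C γ _ (code t s)) ∧
      ∀ l : List Bool, toNode (fun s => wordObj C (code t s)) (fun b s => wordMap C γ _ (code t s)) [] l ≠ 0 := by
  obtain ⟨t, ht⟩ := exists_enum
  refine ⟨t, ?_, ?_⟩
  · intro p m n₀
    obtain ⟨n, hn, htn⟩ := ht (pre p m) (max n₀ m)
    refine ⟨n, (le_max_left _ _).trans hn, ?_⟩
    intro s hs hps k x
    obtain ⟨l, w, h1, h2⟩ := code_split t n s hs (by rw [htn]; exact hps)
    obtain ⟨Y, ⟨e⟩⟩ := exists_iso C w false l
    rw [← h1, h2] at e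
    refine wordMap_orth C γ orth ?_ ?_ e k x
    · have h3 : t (pre p n).length <:+ (p n :: pre p n) := by
        rw [pre_length, htn]
        exact pre_suffix p (((le_max_right n₀ m).trans hn).trans (Nat.le_succ n))
      exact decide_eq_true h3
    · rw [code_length, pre_length]
  · intro l h
    apply indep (code t l)
    have h0 : treeNode C γ t l = 0 := (toNode_eq_treeNode C γ t l).symm.trans h
    rw [treeNode_code] at h0
    have h2 : (toNode (wordObj C) (wordMap C γ) [] (code t l) ≫
        eqToHom (congrArg (wordObj C) (show code t l ++ [] = code t (l ++ []) by simp))) =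
        0 ≫ eqToHom (congrArg (wordObj C) (show code t l ++ [] = code t (l ++ []) by simp)) := by
      rw [h0, zero_comp]
    exact (cancel_mono _).1 h2

end Pool.Agent.Helper62.Hovey
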