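import Mathlib

set_option autoImplicit false

namespace Pool.Agent.Helper62.Hovey

/-- injective choice from countably many infinite sets -/
theorem injective_choice {K : Type*} (S : ℕ → Set K) (hS : ∀ n, (S n).Infinite) :
    ∃ k : ℕ → K, Function.Injective k ∧ ∀ n, k n ∈ S n := by
  classical
  choose c hc hc' using fun n (s : Finset K) => (hS n).exists_notMem_finset s
  let F : ℕ → Finset K := fun n => Nat.rec ∅ (fun n s => insert (c n s) s) n
  have hF : ∀ n, F (n + 1) = insert (c n (F n)) (F n) := fun n => rfl
  have hmono : Monotone F := monotone_nat_of_le_succ fun n => by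
    rw [hF]; exact Finset.subset_insert _ _
  have hlt : ∀ m n, m < n → c m (F m) ≠ c n (F n) := by
    intro m n hmn h
    have h1 : c m (F m) ∈ F n := hmono hmn (by
      rw [Nat.succ_eq_add_one, hF]; exact Finset.mem_insert_self _ _)
    rw [h] at h1
    exact hc' n (F n) h1
  refine ⟨fun n => c n (F n), ?_, fun n => hc n (F n)⟩
  intro m n h
  rcases lt_trichotomy m n with h' | h' | h'
  · exact absurd h (hlt m n h')
  · exact h'
  · exact absurd h.symm (hlt n m h')

end Pool.Agent.Helper62.Hovey
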