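import Pool.Agent.Helper7.KS2.Defs

/-! Packet C: finishing the colouring (StmtFinish). -/

set_option autoImplicit false
open Classical

namespace Pool.Agent.Helper40.KS2C

open Pool.Agent.Helper7.KS2

variable {V : Type} [Fintype V]

/-- Greedy list colouring. -/
theorem greedy {c : ℕ} (G : SimpleGraph V) (L : V → Finset (Fin c)) (φ₀ : V → Fin c)
    (U : Finset V) (h : ∀ v ∈ U, (U.filter (fun w => G.Adj v w)).card < (L v).card) :
    ∃ φ : V → Fin c, (∀ v ∉ U, φ v = φ₀ v) ∧ (∀ v ∈ U, φ v ∈ L v) ∧
      ∀ u ∈ U, ∀ v ∈ U, G.Adj u v → φ u ≠ φ v := by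
  induction U using Finset.induction_on with
  | empty =>
    exact ⟨φ₀, fun _ _ => rfl, fun v hv => absurd hv (Finset.notMem_empty v),
      fun u hu => absurd hu (Finset.notMem_empty u)⟩
  | insert a U ha ih =>
    obtain ⟨φ, h1, h2, h3⟩ := ih (fun v hv => by
      refine lt_of_le_of_lt (Finset.card_le_card ?_) (h v (Finset.mem_insert_of_mem hv))
      exact Finset.filter_subset_filter _ (Finset.subset_insert a U))
    set S := (U.filter (fun w => G.Adj a w)).image φ with hS
    have hcard : S.card < (L a).card := by
      refine lt_of_le_of_lt Finset.card_image_le ?_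
      refine lt_of_le_of_lt (Finset.card_le_card ?_) (h a (Finset.mem_insert_self a U))
      exact Finset.filter_subset_filter _ (Finset.subset_insert a U)
    obtain ⟨x, hxL, hxS⟩ := Finset.exists_mem_notMem_of_card_lt_card hcard
    refine ⟨Function.update φ a x, ?_, ?_, ?_⟩
    · intro v hv
      rw [Finset.mem_insert, not_or] at hv
      rw [Function.update_of_ne hv.1, h1 v hv.2]
    · intro v hv
      by_cases hva : v = a
      · rw [hva, Function.update_self]; exact hxL
      · rw [Function.update_of_ne hva]
        exact h2 v ((Finset.mem_insert.1 hv).resolve_left hva)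
    · intro u hu v hv huv
      by_cases hua : u = a
      · by_cases hva : v = a
        · rw [hua, hva] at huv
          exact absurd huv (G.loopless.irrefl a)
        · rw [hua, Function.update_self, Function.update_of_ne hva]
          intro he
          apply hxS
          rw [hS, Finset.mem_image]
          refine ⟨v, Finset.mem_filter.2 ⟨(Finset.mem_insert.1 hv).resolve_left hva, ?_⟩, he.symm⟩
          rw [← hua]; exact huv
      · by_cases hva : v = a
        · rw [hva, Function.update_self, Function.update_of_ne hua]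
          intro he
          apply hxS
          rw [hS, Finset.mem_image]
          refine ⟨u, Finset.mem_filter.2 ⟨(Finset.mem_insert.1 hu).resolve_left hua, ?_⟩, he⟩
          rw [← hva]; exact huv.symm
        · rw [Function.update_of_ne hua, Function.update_of_ne hva]
          exact h3 u ((Finset.mem_insert.1 hu).resolve_left hua) v
            ((Finset.mem_insert.1 hv).resolve_left hva) huv

/-- The vertices which keep their colour. -/
def Ret {c Q : ℕ} (G : SimpleGraph V) (L : V → Finset (Fin c)) (ω : V → Fin c × Fin (Q + 1))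
    (u : V) : Prop := ∃ α, col L ω u α ∧ ∀ z, G.Adj u z → ¬ col L ω z α

theorem count {c Q : ℕ} (G : SimpleGraph V) (L : V → Finset (Fin c))
    (ω : V → Fin c × Fin (Q + 1)) (v : V) :
    ((L v).filter (fun α => ∃ u, G.Adj v u ∧ Ret G L ω u ∧ (ω u).1 = α)).card + nsav G L ω v ≤
      (Finset.univ.filter (fun u => G.Adj v u ∧ Ret G L ω u)).card := by
  have e1 : (Finset.univ.filter (fun u => G.Adj v u ∧ Ret G L ω u)).card =
      ∑ α : Fin c, ((Finset.univ.filter (fun u => G.Adj v u ∧ Ret G L ω u)).filter
        (fun u => (ω u).1 = α)).card :=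
    Finset.card_eq_sum_card_fiberwise (fun u _ => Finset.mem_coe.2 (Finset.mem_univ _))
  have e2 : ((L v).filter (fun α => ∃ u, G.Adj v u ∧ Ret G L ω u ∧ (ω u).1 = α)).card =
      ∑ α : Fin c, if (α ∈ L v ∧ ∃ u, G.Adj v u ∧ Ret G L ω u ∧ (ω u).1 = α) then 1 else 0 := by
    rw [Finset.card_eq_sum_ones, Finset.sum_filter, ← Finset.sum_subset (Finset.subset_univ (L v))]
    · refine Finset.sum_congr rfl fun α hα => ?_
      simp [hα]
    · intro α _ hα
      simp [hα]
  have e3 : nsav G L ω v = ∑ α : Fin c, if sav G L ω v α then 1 else 0 := by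
    unfold nsav
    rw [Finset.card_eq_sum_ones, Finset.sum_filter]
  rw [e1, e2, e3, ← Finset.sum_add_distrib]
  refine Finset.sum_le_sum fun α _ => ?_
  have hone : (∃ u, G.Adj v u ∧ Ret G L ω u ∧ (ω u).1 = α) →
      1 ≤ ((Finset.univ.filter (fun u => G.Adj v u ∧ Ret G L ω u)).filter
        (fun u => (ω u).1 = α)).card := by
    rintro ⟨u, h1, h2, h3⟩
    exact Finset.card_pos.2 ⟨u, Finset.mem_filter.2
      ⟨Finset.mem_filter.2 ⟨Finset.mem_univ _, h1, h2⟩, h3⟩⟩
  have hcol : ∀ u, col L ω u α → (ω u).1 = α := by
    intro u hu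
    rw [hu.1]
  by_cases hs : sav G L ω v α
  · rw [if_pos hs]
    rcases hs with ⟨u, w, huw, hvu, hvw, hnuw, hcu, hcw, hz1, hz2⟩ | ⟨hα, u, hvu, hcu, hz1, hz2⟩
    · have hu : Ret G L ω u := by
        refine ⟨α, hcu, fun z hz hcz => ?_⟩
        by_cases hvz : G.Adj v z
        · rcases hz1 z hvz hcz with rfl | rfl
          · exact G.loopless.irrefl _ hz
          · exact hnuw hz
        · exact hz2 z (Or.inl hz) hvz hcz
      have hw : Ret G L ω w := by
        refine ⟨α, hcw, fun z hz hcz => ?_⟩
        by_cases hvz : G.Adj v z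
        · rcases hz1 z hvz hcz with rfl | rfl
          · exact hnuw hz.symm
          · exact G.loopless.irrefl _ hz
        · exact hz2 z (Or.inr hz) hvz hcz
      have h2 : 2 ≤ ((Finset.univ.filter (fun u => G.Adj v u ∧ Ret G L ω u)).filter
          (fun u => (ω u).1 = α)).card := by
        rw [← Finset.card_pair huw]
        apply Finset.card_le_card
        intro x hx
        rw [Finset.mem_insert, Finset.mem_singleton] at hx
        rcases hx with rfl | rfl
        · exact Finset.mem_filter.2 ⟨Finset.mem_filter.2 ⟨Finset.mem_univ _, hvu, hu⟩, hcol _ hcu⟩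
        · exact Finset.mem_filter.2 ⟨Finset.mem_filter.2 ⟨Finset.mem_univ _, hvw, hw⟩, hcol _ hcw⟩
      refine le_trans ?_ h2
      split_ifs <;> omega
    · have hu : Ret G L ω u := by
        refine ⟨α, hcu, fun z hz hcz => ?_⟩
        by_cases hvz : G.Adj v z
        · rw [hz1 z hvz hcz] at hz
          exact G.loopless.irrefl _ hz
        · exact hz2 z hz hvz hcz
      rw [if_neg (fun h => hα h.1)]
      have := hone ⟨u, hvu, hu, hcol _ hcu⟩
      omega
  · rw [if_neg hs]
    split_ifs with h
    · exact hone h.2
    · omega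

theorem stmtFinish : StmtFinish := by
  intro V _ G c Q L ω hdg
  set J : V → Finset (Fin c) := fun v =>
    (L v).filter (fun α => ∃ u, G.Adj v u ∧ Ret G L ω u ∧ (ω u).1 = α) with hJ
  obtain ⟨φ, h1, h2, h3⟩ := greedy G (fun v => L v \ J v) (fun v => (ω v).1)
    (Finset.univ.filter (fun v => ¬ Ret G L ω v)) (by
      intro v _
      have hc := count G L ω v
      have h4 := hdg v
      have h5 : (L v \ J v).card + (J v).card = (L v).card :=
        Finset.card_sdiff_add_card_eq_card (Finset.filter_subset _ _)
      have h6 : dg G v = (Finset.univ.filter (fun u => G.Adj v u ∧ Ret G L ω u)).card +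
          ((Finset.univ.filter (fun v => ¬ Ret G L ω v)).filter (fun w => G.Adj v w)).card := by
        unfold dg
        rw [← Finset.card_filter_add_card_filter_not (s := Finset.univ.filter (fun w => G.Adj v w))
          (fun u => Ret G L ω u), Finset.filter_filter, Finset.filter_filter, Finset.filter_filter]
        congr 2
        ext x
        simp only [Finset.mem_filter, Finset.mem_univ, true_and]
        tauto
      have h7 : (J v).card + nsav G L ω v ≤
        (Finset.univ.filter (fun u => G.Adj v u ∧ Ret G L ω u)).card := hc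
      omega)
  have hR : ∀ v, Ret G L ω v → φ v = (ω v).1 := by
    intro v hv
    exact h1 v (by simp [hv])
  have hN : ∀ v, ¬ Ret G L ω v → φ v ∈ L v \ J v := by
    intro v hv
    exact h2 v (by simp [hv])
  have hmix : ∀ u v, G.Adj u v → Ret G L ω u → ¬ Ret G L ω v → φ u ≠ φ v := by
    intro u v huv hu hv he
    have h4 := hN v hv
    rw [Finset.mem_sdiff] at h4
    apply h4.2
    rw [hJ]
    refine Finset.mem_filter.2 ⟨h4.1, u, huv.symm, hu, ?_⟩
    rw [← hR u hu, he]
  refine ⟨φ, ?_, ?_⟩
  · intro v
    by_cases hv : Ret G L ω v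
    · rw [hR v hv]
      obtain ⟨α, hα, -⟩ := hv
      have : (ω v).1 = α := by rw [hα.1]
      rw [this]; exact hα.2
    · exact (Finset.mem_sdiff.1 (hN v hv)).1
  · intro u v huv
    by_cases hu : Ret G L ω u
    · by_cases hv : Ret G L ω v
      · rw [hR u hu, hR v hv]
        obtain ⟨α, hα, hz⟩ := hu
        obtain ⟨β, hβ, -⟩ := hv
        have e1 : (ω u).1 = α := by rw [hα.1]
        have e2 : (ω v).1 = β := by rw [hβ.1]
        rw [e1, e2]
        intro he
        rw [← he] at hβ
        exact hz v huv hβ
      · exact hmix u v huv hu hv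
    · by_cases hv : Ret G L ω v
      · exact (hmix v u huv.symm hv hu).symm
      · exact h3 u (by simp [hu]) v (by simp [hv]) huv

end Pool.Agent.Helper40.KS2C
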