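import Mathlib

set_option autoImplicit false

universe v

namespace Pool.Agent.Helper40.SL

/-- the quotient by a power of a maximal ideal is artinian -/
theorem artinian_quot_pow {R : Type*} [CommRing R] [IsNoetherianRing R] (m : Ideal R) [hm : m.IsMaximal]
    (j : ℕ) : IsArtinianRing (R ⧸ m ^ j) := by
  have : Ring.KrullDimLE 0 (R ⧸ m ^ j) := Ring.krullDimLE_zero_iff.mpr fun J prime ↦
    Ideal.isMaximal_of_isIntegral_of_isMaximal_comap (R := R) _ <| by
      have hp := prime.comap (algebraMap R (R ⧸ m ^ j))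
      have h1 : m ^ j ≤ Ideal.comap (algebraMap R (R ⧸ m ^ j)) J := by
        intro x hx
        rw [Ideal.mem_comap]
        have : algebraMap R (R ⧸ m ^ j) x = 0 := by
          rw [Ideal.Quotient.algebraMap_eq, Ideal.Quotient.eq_zero_iff_mem]
          exact hx
        rw [this]
        exact J.zero_mem
      have h2 : m ≤ Ideal.comap (algebraMap R (R ⧸ m ^ j)) J := hp.le_of_pow_le h1
      have h3 : m = Ideal.comap (algebraMap R (R ⧸ m ^ j)) J := hm.eq_of_le hp.ne_top h2
      rw [← h3]
      exact hm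
  exact IsNoetherianRing.isArtinianRing_of_krullDimLE_zero

theorem artinian_span {R : Type*} [CommRing R] [IsNoetherianRing R] {N : Type*} [AddCommGroup N] [Module R N]
    (m : Ideal R) [hm : m.IsMaximal] (j : ℕ) (y : N) (hy : ∀ r ∈ m ^ j, r • y = 0) :
    IsArtinian R (Submodule.span R {y}) := by
  have := artinian_quot_pow m j
  have : IsArtinian R (R ⧸ m ^ j) :=
    isArtinian_of_surjective_algebraMap (R := R ⧸ m ^ j) (M := R ⧸ m ^ j) (S := R)
      Ideal.Quotient.mk_surjective
  let φ : (R ⧸ m ^ j) →ₗ[R] N := Submodule.liftQ (m ^ j) (LinearMap.toSpanSingleton R N y) (by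
    intro r hr
    rw [LinearMap.mem_ker, LinearMap.toSpanSingleton_apply]
    exact hy r hr)
  have h1 : Submodule.span R {y} = LinearMap.range φ := by
    rw [Submodule.range_liftQ, LinearMap.range_toSpanSingleton]
  rw [h1]
  infer_instance

section core

variable {R : Type*} [CommRing R] [IsNoetherianRing R] {N : Type*} [AddCommGroup N] [Module R N]
  [Module.Finite R N]

/-- one step of the construction -/
theorem step (hN : ∀ A : Submodule R N, IsArtinian R A → A = ⊥) (y : ℕ → N) (c : R)
    (hc : {n | c • y n ≠ 0}.Infinite) (k : ℕ) :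
    ∃ n, k < n ∧ ∃ r : R, (∀ z : N, (r * c) • z ≠ c • y n) ∧ {n | (r * c) • y n ≠ 0}.Infinite := by
  obtain ⟨n, hn, hkn⟩ := hc.exists_gt k
  refine ⟨n, hkn, ?_⟩
  have hx : c • y n ≠ 0 := hn
  set x := c • y n with hxdef
  -- the annihilator of x
  have hann : Ideal.span ({r | r • x = 0} : Set R) ≠ ⊤ := by
    intro h
    have h1 : (1 : R) ∈ Ideal.span ({r | r • x = 0} : Set R) := by rw [h]; trivial
    have h2 : Ideal.span ({r | r • x = 0} : Set R) ≤ LinearMap.ker (LinearMap.toSpanSingleton R N x) := by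
      rw [Ideal.span_le]
      intro r hr
      simpa [LinearMap.toSpanSingleton_apply] using hr
    have h3 := h2 h1
    rw [LinearMap.mem_ker, LinearMap.toSpanSingleton_apply, one_smul] at h3
    exact hx h3
  obtain ⟨m, hm, hle⟩ := Ideal.exists_le_maximal _ hann
  have h1 : x ∉ (⨅ i : ℕ, m ^ i • ⊤ : Submodule R N) := by
    rw [Ideal.mem_iInf_smul_pow_eq_bot_iff]
    rintro ⟨⟨r, hr⟩, hrx⟩
    have h2 : (1 - r) • x = 0 := by
      rw [sub_smul, one_smul, hrx, sub_self]
    have h3 : (1 - r) ∈ m := hle (Ideal.subset_span h2)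
    have h4 : (1 : R) ∈ m := by
      have := m.add_mem h3 hr
      simpa using this
    exact hm.ne_top ((Ideal.eq_top_iff_one m).mpr h4)
  rw [Submodule.mem_iInf] at h1
  push Not at h1
  obtain ⟨j, hj⟩ := h1
  have h5 : ∀ r ∈ m ^ j, ∀ z : N, (r * c) • z ≠ x := by
    intro r hr z h
    apply hj
    rw [← h, mul_smul]
    exact Submodule.smul_mem_smul hr trivial
  by_contra hcon
  push Not at hcon
  have h6 : ∀ r ∈ m ^ j, {n | (r * c) • y n ≠ 0}.Finite := by
    intro r hr
    exact hcon r (h5 r hr)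
  obtain ⟨S, hS⟩ := (IsNoetherian.noetherian (m ^ j) : (m ^ j).FG)
  have h7 : (⋃ r ∈ S, {n | (r * c) • y n ≠ 0}).Finite := by
    refine Set.Finite.biUnion S.finite_toSet ?_
    intro r hr
    apply h6
    rw [← hS]
    exact Submodule.subset_span hr
  obtain ⟨n', hn', hn'2⟩ := (hc.sdiff h7).nonempty
  have h8 : ∀ r ∈ m ^ j, r • (c • y n') = 0 := by
    have h9 : (m ^ j) ≤ LinearMap.ker (LinearMap.toSpanSingleton R N (c • y n')) := by
      rw [← hS]
      refine Submodule.span_le.mpr ?_
      intro r hr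
      simp only [SetLike.mem_coe, LinearMap.mem_ker, LinearMap.toSpanSingleton_apply]
      by_contra h10
      apply hn'2
      simp only [Set.mem_iUnion]
      refine ⟨r, hr, ?_⟩
      rw [Set.mem_ofPred_eq, mul_smul]
      exact h10
    intro r hr
    have := h9 hr
    rwa [LinearMap.mem_ker, LinearMap.toSpanSingleton_apply] at this
  have h11 := hN _ (artinian_span m j (c • y n') h8)
  rw [Submodule.span_singleton_eq_bot] at h11
  exact hn' h11

theorem core [Countable N] (hN : ∀ A : Submodule R N, IsArtinian R A → A = ⊥) (g : (ℕ → R) →ₗ[R] N) :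
    ∃ n0, ∀ n, n0 ≤ n → g (Pi.single n 1) = 0 := by
  classical
  by_contra hcon
  push Not at hcon
  set y : ℕ → N := fun n => g (Pi.single n 1) with hy
  have hinf : {n | (1 : R) • y n ≠ 0}.Infinite := by
    intro hfin
    obtain ⟨b, hb⟩ := hfin.bddAbove
    obtain ⟨n, hn, hn2⟩ := hcon (b + 1)
    have : n ∈ {n | (1 : R) • y n ≠ 0} := by
      rw [Set.mem_ofPred_eq, one_smul]
      exact hn2
    have := hb this
    omega
  -- states
  let St := {p : R × ℕ // {n | p.1 • y n ≠ 0}.Infinite}
  have hstep : ∀ s : St, ∃ n r, s.1.2 < n ∧ (∀ z : N, (r * s.1.1) • z ≠ s.1.1 • y n) ∧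
      {n | (r * s.1.1) • y n ≠ 0}.Infinite := by
    intro s
    obtain ⟨n, h1, r, h2, h3⟩ := step hN y s.1.1 s.2 s.1.2
    exact ⟨n, r, h1, h2, h3⟩
  choose nn rr h1 h2 h3 using hstep
  let nxt : St → St := fun s => ⟨(rr s * s.1.1, nn s), h3 s⟩
  let sq : ℕ → St := fun k => Nat.rec ⟨(1, 0), hinf⟩ (fun _ s => nxt s) k
  have hsq : ∀ k, sq (k + 1) = nxt (sq k) := fun k => rfl
  let c : ℕ → R := fun k => (sq k).1.1
  let n : ℕ → ℕ := fun k => nn (sq k)
  have hn : StrictMono n := by
    refine strictMono_nat_of_lt_succ ?_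
    intro k
    have := h1 (sq (k + 1))
    rw [hsq] at this
    simpa [n, nxt, hsq] using this
  have hcs : ∀ k, c (k + 1) = rr (sq k) * c k := fun k => rfl
  have hdiv : ∀ k l, k ≤ l → c k ∣ c l := by
    intro k l hkl
    induction l, hkl using Nat.le_induction with
    | base => exact dvd_rfl
    | succ l _ ih =>
      rw [hcs]
      exact ih.mul_left _
  have hne : ∀ k, ∀ z : N, c (k + 1) • z ≠ c k • y (n k) := fun k => h2 (sq k)
  let x : Set ℕ → (ℕ → R) := fun E => Function.extend n (fun k => if k ∈ E then c k else 0) 0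
  have key : ∀ E E' : Set ℕ, ∀ k0, k0 ∈ E → k0 ∉ E' → (∀ k < k0, k ∈ E ↔ k ∈ E') → g (x E) ≠ g (x E') := by
    intro E E' k0 hk0 hk0' hlt heq
    have hs : ∀ k, ∃ s : R, k0 + 1 ≤ k → c k = c (k0 + 1) * s := by
      intro k
      by_cases h : k0 + 1 ≤ k
      · obtain ⟨s, hs⟩ := hdiv _ _ h
        exact ⟨s, fun _ => hs⟩
      · exact ⟨0, fun h' => absurd h' h⟩
    choose s hs using hs
    let z : ℕ → R := Function.extend n (fun k => if k0 + 1 ≤ k then
      ((if k ∈ E then s k else 0) - (if k ∈ E' then s k else 0)) else 0) 0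
    have hx : x E - x E' = c k0 • (Pi.single (n k0) 1 : ℕ → R) + c (k0 + 1) • z := by
      funext i
      by_cases hi : ∃ k, n k = i
      · obtain ⟨k, rfl⟩ := hi
        simp only [x, z, Pi.sub_apply, Pi.add_apply, Pi.smul_apply, hn.injective.extend_apply, smul_eq_mul]
        rcases lt_trichotomy k k0 with h | h | h
        · have h4 := hlt k h
          have h5 : ¬ (k0 + 1 ≤ k) := by omega
          have h6 : (Pi.single (n k0) 1 : ℕ → R) (n k) = 0 := by
            rw [Pi.single_eq_of_ne]
            intro h'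
            exact h.ne (hn.injective h')
          rw [if_neg h5, h6]
          by_cases h7 : k ∈ E
          · rw [if_pos h7, if_pos (h4.mp h7)]; ring
          · rw [if_neg h7, if_neg (fun h8 => h7 (h4.mpr h8))]; ring
        · subst h
          have h5 : ¬ (k + 1 ≤ k) := by omega
          rw [if_pos hk0, if_neg hk0', if_neg h5, Pi.single_eq_same]; ring
        · have h6 : (Pi.single (n k0) 1 : ℕ → R) (n k) = 0 := by
            rw [Pi.single_eq_of_ne]
            intro h'
            exact h.ne' (hn.injective h')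
          have hk1 : k0 + 1 ≤ k := h
          rw [if_pos hk1, h6]
          have h7 := hs k h
          by_cases h8 : k ∈ E <;> by_cases h9 : k ∈ E'
          · rw [if_pos h8, if_pos h9, if_pos h8, if_pos h9]; ring
          · rw [if_pos h8, if_neg h9, if_pos h8, if_neg h9, h7]; ring
          · rw [if_neg h8, if_pos h9, if_neg h8, if_pos h9, h7]; ring
          · rw [if_neg h8, if_neg h9, if_neg h8, if_neg h9]; ring
      · have h6 : (Pi.single (n k0) 1 : ℕ → R) i = 0 := by
          rw [Pi.single_eq_of_ne]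
          intro h'
          exact hi ⟨k0, h'.symm⟩
        simp only [x, z, Pi.sub_apply, Pi.add_apply, Pi.smul_apply, smul_eq_mul,
          Function.extend_apply' _ _ _ hi, h6, Pi.zero_apply]
        ring
    have hg : g (x E - x E') = 0 := by rw [map_sub, heq, sub_self]
    rw [hx, map_add, map_smul, map_smul] at hg
    apply hne k0 (-(g z))
    rw [smul_neg]
    exact (eq_neg_of_add_eq_zero_left hg).symm
  have hinj : Function.Injective (fun E : Set ℕ => g (x E)) := by
    intro E E' heq
    by_contra hEE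
    have hex : ∃ k, ¬ (k ∈ E ↔ k ∈ E') := by
      by_contra h
      push Not at h
      exact hEE (Set.ext h)
    obtain ⟨k0, hspec, hmin⟩ : ∃ k0, ¬ (k0 ∈ E ↔ k0 ∈ E') ∧ ∀ k < k0, ¬ ¬ (k ∈ E ↔ k ∈ E') :=
      ⟨Nat.find hex, Nat.find_spec hex, fun k hk => Nat.find_min hex hk⟩
    have hlt : ∀ k < k0, k ∈ E ↔ k ∈ E' := fun k hk => not_not.mp (hmin k hk)
    by_cases hk : k0 ∈ E
    · have hk' : k0 ∉ E' := fun h => hspec ⟨fun _ => h, fun _ => hk⟩
      exact key E E' k0 hk hk' hlt heq
    · have hk' : k0 ∈ E' := by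
        by_contra h
        exact hspec ⟨fun h' => absurd h' hk, fun h' => absurd h' h⟩
      exact key E' E k0 hk' hk (fun k h => (hlt k h).symm) heq.symm
  obtain ⟨e, he⟩ := exists_injective_nat N
  exact Function.cantor_injective (fun E : Set ℕ => e (g (x E))) (he.comp hinj)

end core

end Pool.Agent.Helper40.SL

namespace Pool.Agent.Helper62.Hovey

open Pool.Agent.Helper40.SL in
/-- PACKET SL: almost slenderness -/
theorem almost_slender (R : Type v) [CommRing R] [IsNoetherianRing R] (M : Type v) [AddCommGroup M] [Module R M]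
    (Γ₀ : Submodule R M) (h₀ : IsArtinian R Γ₀) (hfin : Module.Finite R (M ⧸ Γ₀)) (hcount : Countable (M ⧸ Γ₀)) :
    ∃ Γ : Submodule R M, IsArtinian R Γ ∧
      ∀ f : (ℕ → R) →ₗ[R] M, ∃ N : ℕ, ∀ n, N ≤ n → f (Pi.single n 1) ∈ Γ := by
  -- a maximal artinian submodule of M / Γ₀
  have hne : {A : Submodule R (M ⧸ Γ₀) | IsArtinian R A}.Nonempty := ⟨⊥, by
    rw [Set.mem_ofPred_eq]; infer_instance⟩
  obtain ⟨G, hG, hmax⟩ := set_has_maximal_iff_noetherian.mpr (inferInstance : IsNoetherian R (M ⧸ Γ₀)) _ hne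
  have hG' : IsArtinian R G := hG
  let Γ : Submodule R M := G.comap Γ₀.mkQ
  have hΓ : Γ₀ ≤ Γ := by
    intro x hx
    rw [Submodule.mem_comap, Submodule.mkQ_apply, (Submodule.Quotient.mk_eq_zero Γ₀).mpr hx]
    exact G.zero_mem
  -- every artinian submodule containing Γ₀ modulo which ... is inside Γ
  have hbig : ∀ B : Submodule R M, Γ ≤ B → IsArtinian R B → B = Γ := by
    intro B hB hart
    by_contra hne
    have h1 : G < B.map Γ₀.mkQ := by
      have h2 : G ≤ B.map Γ₀.mkQ := by
        intro z hz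
        obtain ⟨x, rfl⟩ := Submodule.mkQ_surjective Γ₀ z
        exact ⟨x, hB hz, rfl⟩
      refine lt_of_le_of_ne h2 ?_
      intro h3
      apply hne
      apply le_antisymm _ hB
      intro x hx
      rw [Submodule.mem_comap, h3]
      exact ⟨x, hx, rfl⟩
    refine hmax (B.map Γ₀.mkQ) ?_ h1
    rw [Set.mem_ofPred_eq]
    have h4 : B.map Γ₀.mkQ = LinearMap.range (Γ₀.mkQ ∘ₗ B.subtype) := by
      rw [LinearMap.range_comp, Submodule.range_subtype]
    rw [h4]
    infer_instance
  have hΓart : IsArtinian R Γ := by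
    let p : Γ →ₗ[R] G := (Γ₀.mkQ).restrict (fun x hx => hx)
    refine isArtinian_of_range_eq_ker (M := Γ₀) (P := G) (Submodule.inclusion hΓ) p ?_
    ext x
    rw [LinearMap.mem_ker]
    constructor
    · rintro ⟨w, rfl⟩
      apply Subtype.ext
      change Γ₀.mkQ (w : M) = 0
      rw [Submodule.mkQ_apply, Submodule.Quotient.mk_eq_zero]
      exact w.2
    · intro hx
      have h5 : Γ₀.mkQ (x : M) = 0 := congrArg Subtype.val hx
      rw [Submodule.mkQ_apply, Submodule.Quotient.mk_eq_zero] at h5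
      exact ⟨⟨x, h5⟩, Subtype.ext rfl⟩
  refine ⟨Γ, hΓart, ?_⟩
  -- the quotient N = M / Γ
  let q : (M ⧸ Γ₀) →ₗ[R] (M ⧸ Γ) := Submodule.factor hΓ
  have hq : Function.Surjective q := Submodule.factor_surjective hΓ
  have : Module.Finite R (M ⧸ Γ) := Module.Finite.of_surjective q hq
  have : Countable (M ⧸ Γ) := hq.countable
  have hN : ∀ A : Submodule R (M ⧸ Γ), IsArtinian R A → A = ⊥ := by
    intro A hA
    let B : Submodule R M := A.comap Γ.mkQ
    have hB : Γ ≤ B := by
      intro x hx
      rw [Submodule.mem_comap, Submodule.mkQ_apply, (Submodule.Quotient.mk_eq_zero Γ).mpr hx]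
      exact A.zero_mem
    have hBart : IsArtinian R B := by
      let p : B →ₗ[R] A := (Γ.mkQ).restrict (fun x hx => hx)
      refine isArtinian_of_range_eq_ker (M := Γ) (P := A) (Submodule.inclusion hB) p ?_
      ext x
      rw [LinearMap.mem_ker]
      constructor
      · rintro ⟨w, rfl⟩
        apply Subtype.ext
        change Γ.mkQ (w : M) = 0
        rw [Submodule.mkQ_apply, Submodule.Quotient.mk_eq_zero]
        exact w.2
      · intro hx
        have h5 : Γ.mkQ (x : M) = 0 := congrArg Subtype.val hx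
        rw [Submodule.mkQ_apply, Submodule.Quotient.mk_eq_zero] at h5
        exact ⟨⟨x, h5⟩, Subtype.ext rfl⟩
    have h6 := hbig B hB hBart
    rw [eq_bot_iff]
    intro z hz
    obtain ⟨x, rfl⟩ := Submodule.mkQ_surjective Γ z
    have h7 : x ∈ B := hz
    rw [h6] at h7
    rw [Submodule.mem_bot, Submodule.mkQ_apply, Submodule.Quotient.mk_eq_zero]
    exact h7
  intro f
  obtain ⟨n0, hn0⟩ := core hN (Γ.mkQ ∘ₗ f)
  refine ⟨n0, fun n hn => ?_⟩
  have := hn0 n hn
  rw [LinearMap.comp_apply, Submodule.mkQ_apply, Submodule.Quotient.mk_eq_zero] at this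
  exact this

end Pool.Agent.Helper62.Hovey
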