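import Pool.Agent.Helper83.TW.Goals1

set_option autoImplicit false

open Topology Filter Set Metric

namespace Pool.Agent.Helper40.TWOsg

theorem partial_continuousAt (f : ℂ × ℂ → ℂ) (U : Set (ℂ × ℂ)) (hU : IsOpen U)
    (hf : ContinuousOn f U)
    (h1 : ∀ p ∈ U, DifferentiableAt ℂ (fun z => f (z, p.2)) p.1) (u : ℂ × ℂ) (hu : u ∈ U) :
    ContinuousAt (fun v : ℂ × ℂ => deriv (fun z => f (z, v.2)) v.1) u := by
  obtain ⟨R', hR', hball⟩ := Metric.isOpen_iff.1 hU u hu
  set R : ℝ := R' / 4 with hR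
  have hRpos : 0 < R := by positivity
  set K : Set (ℂ × ℂ) := closedBall u (2 * R) with hK
  have hKU : K ⊆ U := fun p hp => hball (by
    rw [mem_ball]; rw [hK, mem_closedBall] at hp; linarith)
  have hKc : IsCompact K := isCompact_closedBall u (2 * R)
  have huc : UniformContinuousOn f K := hKc.uniformContinuousOn_of_continuous (hf.mono hKU)
  have hmem : ∀ z w : ℂ, dist z u.1 ≤ 2 * R → dist w u.2 ≤ 2 * R → ((z, w) : ℂ × ℂ) ∈ K := by
    intro z w hz hw
    rw [hK, mem_closedBall, Prod.dist_eq]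
    exact max_le hz hw
  rw [Metric.continuousAt_iff]
  intro ε hε
  rw [Metric.uniformContinuousOn_iff] at huc
  obtain ⟨δ, hδ, hδ'⟩ := huc (R * (ε / 3)) (by positivity)
  -- continuity of the one variable derivative
  have hone : ContinuousAt (deriv (fun z => f (z, u.2))) u.1 := by
    have hopen : IsOpen {z : ℂ | (z, u.2) ∈ U} := by
      have : Continuous fun z : ℂ => (z, u.2) := by fun_prop
      exact hU.preimage this
    have hd : DifferentiableOn ℂ (fun z => f (z, u.2)) {z : ℂ | (z, u.2) ∈ U} := by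
      intro z hz
      exact (h1 (z, u.2) hz).differentiableWithinAt
    exact ((hd.deriv hopen).differentiableAt (hopen.mem_nhds hu)).continuousAt
  rw [Metric.continuousAt_iff] at hone
  obtain ⟨η, hη, hη'⟩ := hone (ε / 3) (by positivity)
  refine ⟨min (min δ η) R, by positivity, ?_⟩
  intro v hv
  have hv1 : dist v.1 u.1 < min (min δ η) R := lt_of_le_of_lt (le_max_left _ _) (by
    rwa [Prod.dist_eq] at hv)
  have hv2 : dist v.2 u.2 < min (min δ η) R := lt_of_le_of_lt (le_max_right _ _) (by
    rwa [Prod.dist_eq] at hv)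
  have hv1R : dist v.1 u.1 < R := lt_of_lt_of_le hv1 (min_le_right _ _)
  have hv2R : dist v.2 u.2 < R := lt_of_lt_of_le hv2 (min_le_right _ _)
  have hv2δ : dist v.2 u.2 < δ := lt_of_lt_of_le hv2 ((min_le_left _ _).trans (min_le_left _ _))
  have hv1η : dist v.1 u.1 < η := lt_of_lt_of_le hv1 ((min_le_left _ _).trans (min_le_right _ _))
  have hin : ∀ z ∈ closedBall v.1 R, dist z u.1 ≤ 2 * R := by
    intro z hz
    rw [mem_closedBall] at hz
    linarith [dist_triangle z v.1 u.1]
  have hdiff : ∀ w : ℂ, dist w u.2 ≤ 2 * R → ∀ z ∈ closedBall v.1 R,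
      DifferentiableAt ℂ (fun z => f (z, w)) z := by
    intro w hw z hz
    exact h1 (z, w) (hKU (hmem z w (hin z hz) hw))
  have hv2' : dist v.2 u.2 ≤ 2 * R := by linarith
  have hu2' : dist u.2 u.2 ≤ 2 * R := by rw [dist_self]; positivity
  have hself : v.1 ∈ closedBall v.1 R := mem_closedBall_self hRpos.le
  have hest : ‖deriv (fun z => f (z, v.2) - f (z, u.2)) v.1‖ ≤ (R * (ε / 3)) / R := by
    apply Complex.norm_deriv_le_of_forall_mem_sphere_norm_le hRpos
    · apply DifferentiableOn.diffContOnCl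
      rw [closure_ball _ hRpos.ne']
      intro z hz
      exact ((hdiff _ hv2' z hz).sub (hdiff _ hu2' z hz)).differentiableWithinAt
    · intro z hz
      have hz' : z ∈ closedBall v.1 R := sphere_subset_closedBall hz
      have h3 := hδ' (z, v.2) (hmem z v.2 (hin z hz') hv2') (z, u.2) (hmem z u.2 (hin z hz') hu2')
        (by rw [Prod.dist_eq]; simp only [dist_self]; exact max_lt hδ hv2δ)
      rw [dist_eq_norm] at h3
      exact h3.le
  have hest' : ‖deriv (fun z => f (z, v.2) - f (z, u.2)) v.1‖ ≤ ε / 3 := by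
    rwa [mul_div_cancel_left₀ _ hRpos.ne'] at hest
  have hsub : deriv (fun z => f (z, v.2) - f (z, u.2)) v.1
      = deriv (fun z => f (z, v.2)) v.1 - deriv (fun z => f (z, u.2)) v.1 :=
    deriv_sub (hdiff _ hv2' v.1 hself) (hdiff _ hu2' v.1 hself)
  rw [hsub] at hest'
  have h4 := hη' hv1η
  calc dist (deriv (fun z => f (z, v.2)) v.1) (deriv (fun z => f (z, u.2)) u.1)
      ≤ dist (deriv (fun z => f (z, v.2)) v.1) (deriv (fun z => f (z, u.2)) v.1)
        + dist (deriv (fun z => f (z, u.2)) v.1) (deriv (fun z => f (z, u.2)) u.1) :=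
        dist_triangle _ _ _
    _ ≤ ε / 3 + ε / 3 := by
        apply add_le_add
        · rw [dist_eq_norm]; exact hest'
        · exact h4.le
    _ < ε := by linarith

theorem osgood (f : ℂ × ℂ → ℂ) (U : Set (ℂ × ℂ)) (hU : IsOpen U) (hf : ContinuousOn f U)
    (h1 : ∀ p ∈ U, DifferentiableAt ℂ (fun z => f (z, p.2)) p.1)
    (h2 : ∀ p ∈ U, DifferentiableAt ℂ (fun z => f (p.1, z)) p.2) : DifferentiableOn ℂ f U := by
  intro u hu
  have hnh : ∀ᶠ v in 𝓝 u, v ∈ U := hU.mem_nhds hu
  have c1 := partial_continuousAt f U hU hf h1 u hu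
  have c2 : ContinuousAt (fun v : ℂ × ℂ => deriv (fun z => f (v.1, z)) v.2) u := by
    have hsw : Continuous (Prod.swap : ℂ × ℂ → ℂ × ℂ) := continuous_swap
    have hc := partial_continuousAt (fun p => f p.swap) (Prod.swap ⁻¹' U) (hU.preimage hsw)
      (hf.comp hsw.continuousOn (fun p hp => hp))
      (fun p hp => by simpa using h2 p.swap hp) u.swap (by simpa using hu)
    have hc' : ContinuousAt (fun v : ℂ × ℂ => deriv (fun z => f ((z, v.2) : ℂ × ℂ).swap) v.1)
      (Prod.swap u) := hc
    have := ContinuousAt.comp (f := (Prod.swap : ℂ × ℂ → ℂ × ℂ)) (x := u) hc' hsw.continuousAt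
    simpa [Function.comp_def] using this
  have key := hasStrictFDerivAt_uncurry_coprod (𝕜 := ℂ) (u := u) (f := fun z w => f (z, w))
    (f₁ := fun z w => ContinuousLinearMap.toSpanSingleton ℂ (deriv (fun z' => f (z', w)) z))
    (f₂ := fun z w => ContinuousLinearMap.toSpanSingleton ℂ (deriv (fun w' => f (z, w')) w))
    (by
      filter_upwards [hnh] with v hv
      exact (h1 v hv).hasDerivAt.hasFDerivAt)
    (by
      filter_upwards [hnh] with v hv
      exact (h2 v hv).hasDerivAt.hasFDerivAt)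
    (by
      have : Continuous fun x : ℂ => ContinuousLinearMap.toSpanSingleton ℂ x :=
        (ContinuousLinearMap.toSpanSingletonCLE (𝕜 := ℂ) (E := ℂ)).continuous
      exact this.continuousAt.comp c1)
    (by
      have : Continuous fun x : ℂ => ContinuousLinearMap.toSpanSingleton ℂ x :=
        (ContinuousLinearMap.toSpanSingletonCLE (𝕜 := ℂ) (E := ℂ)).continuous
      exact this.continuousAt.comp c2)
  exact key.hasFDerivAt.differentiableAt.differentiableWithinAt

theorem weierstrass (f : ℕ → ℂ × ℂ → ℂ) (F : ℂ × ℂ → ℂ) (U : Set (ℂ × ℂ)) (hU : IsOpen U)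
    (hf : ∀ n, DifferentiableOn ℂ (f n) U) (hlim : TendstoUniformlyOn f F Filter.atTop U) :
    DifferentiableOn ℂ F U := by
  have hloc := hlim.tendstoLocallyUniformlyOn
  have hcont : ContinuousOn F U :=
    hloc.continuousOn (Eventually.of_forall fun n => (hf n).continuousOn).frequently
  apply osgood F U hU hcont
  · intro p hp
    have hc : Continuous fun z : ℂ => ((z, p.2) : ℂ × ℂ) := by fun_prop
    have hopen : IsOpen {z : ℂ | (z, p.2) ∈ U} := hU.preimage hc
    have hl : TendstoUniformlyOn (fun n z => f n (z, p.2)) (fun z => F (z, p.2)) atTop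
        {z : ℂ | (z, p.2) ∈ U} := hlim.comp (fun z : ℂ => ((z, p.2) : ℂ × ℂ))
    have hd : DifferentiableOn ℂ (fun z => F (z, p.2)) {z : ℂ | (z, p.2) ∈ U} := by
      refine hl.tendstoLocallyUniformlyOn.differentiableOn ?_ hopen
      refine Eventually.of_forall fun n => ?_
      intro z hz
      have h3 : DifferentiableAt ℂ (f n) (z, p.2) := (hf n).differentiableAt (hU.mem_nhds hz)
      have h4 : DifferentiableAt ℂ (fun z : ℂ => ((z, p.2) : ℂ × ℂ)) z := by fun_prop
      exact (DifferentiableAt.comp z h3 h4).differentiableWithinAt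
    exact hd.differentiableAt (hopen.mem_nhds hp)
  · intro p hp
    have hc : Continuous fun z : ℂ => ((p.1, z) : ℂ × ℂ) := by fun_prop
    have hopen : IsOpen {z : ℂ | (p.1, z) ∈ U} := hU.preimage hc
    have hl : TendstoUniformlyOn (fun n z => f n (p.1, z)) (fun z => F (p.1, z)) atTop
        {z : ℂ | (p.1, z) ∈ U} := hlim.comp (fun z : ℂ => ((p.1, z) : ℂ × ℂ))
    have hd : DifferentiableOn ℂ (fun z => F (p.1, z)) {z : ℂ | (p.1, z) ∈ U} := by
      refine hl.tendstoLocallyUniformlyOn.differentiableOn ?_ hopen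
      refine Eventually.of_forall fun n => ?_
      intro z hz
      have h3 : DifferentiableAt ℂ (f n) (p.1, z) := (hf n).differentiableAt (hU.mem_nhds hz)
      have h4 : DifferentiableAt ℂ (fun z : ℂ => ((p.1, z) : ℂ × ℂ)) z := by fun_prop
      exact (DifferentiableAt.comp z h3 h4).differentiableWithinAt
    exact hd.differentiableAt (hopen.mem_nhds hp)

/-- Packet TW-GOsg. -/
theorem gOsg : Pool.Agent.Helper83.TW.GOsg :=
  ⟨fun f U hU hf h1 h2 => osgood f U hU hf h1 h2,
    fun f F U hU hf hlim => weierstrass f F U hU hf hlim⟩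

end Pool.Agent.Helper40.TWOsg
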