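import Pool.Agent.Helper62.HoveyT.Opn
import Pool.Agent.Helper40.SL

set_option autoImplicit false

universe v

namespace Pool.Agent.Helper40.TopB

open Pool.Agent.Helper62.Hovey

section gen

variable {A : Type v} [CommRing A] {𝔞 : Ideal A}

/-- the ideal kills a finitely generated artinian module up to a power -/
theorem pow_smul_eq_bot [IsNoetherianRing A] (h𝔞 : 𝔞 ≤ (⊥ : Ideal A).jacobson) (L : Type v) [AddCommGroup L]
    [Module A L] [Module.Finite A L] [IsArtinian A L] : ∃ j : ℕ, 𝔞 ^ j • (⊤ : Submodule A L) = ⊥ := by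
  let f : ℕ →o (Submodule A L)ᵒᵈ :=
    ⟨fun k => OrderDual.toDual (𝔞 ^ k • (⊤ : Submodule A L)), fun i j hij =>
      (Submodule.smul_mono_left (Ideal.pow_le_pow_right hij) : 𝔞 ^ j • (⊤ : Submodule A L) ≤ 𝔞 ^ i • ⊤)⟩
  obtain ⟨n, hn⟩ := IsArtinian.monotone_stabilizes f
  refine ⟨n, ?_⟩
  have h1 : 𝔞 ^ n • (⊤ : Submodule A L) = 𝔞 ^ (n + 1) • ⊤ := hn (n + 1) (Nat.le_succ n)
  refine Submodule.eq_bot_of_le_smul_of_le_jacobson_bot 𝔞 _ (IsNoetherian.noetherian _) ?_ h𝔞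
  rw [← Submodule.mul_smul, ← pow_succ', ← h1]

theorem pow_le [IsNoetherianRing A] (h𝔞 : 𝔞 ≤ (⊥ : Ideal A).jacobson) {M : Type v} [AddCommGroup M] [Module A M]
    (N N' : Submodule A M) (hN : N.FG) (hN' : IsArtinian A (M ⧸ N')) : ∃ j : ℕ, 𝔞 ^ j • N ≤ N' := by
  let L := N.map N'.mkQ
  have hL : L.FG := hN.map _
  have : Module.Finite A L := Module.Finite.iff_fg.mpr hL
  obtain ⟨j, hj⟩ := pow_smul_eq_bot h𝔞 L
  refine ⟨j, ?_⟩
  have h1 : 𝔞 ^ j • L = ⊥ := by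
    have h2 := congrArg (Submodule.map L.subtype) hj
    rw [Submodule.map_smul'', Submodule.map_top, Submodule.range_subtype, Submodule.map_bot] at h2
    exact h2
  have h3 : (𝔞 ^ j • N).map N'.mkQ = ⊥ := by
    rw [Submodule.map_smul'']
    exact h1
  intro x hx
  have h4 : N'.mkQ x ∈ (𝔞 ^ j • N).map N'.mkQ := ⟨x, hx, rfl⟩
  rw [h3, Submodule.mem_bot, Submodule.mkQ_apply, Submodule.Quotient.mk_eq_zero] at h4
  exact h4

/-- facts F -/
theorem af_exists {M : Type v} [AddCommGroup M] [Module A M] (h : AF A M) :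
    ∃ N : Submodule A M, N.FG ∧ IsArtinian A (M ⧸ N) := by
  obtain ⟨Γ, hΓ, hfin⟩ := h
  obtain ⟨s, hs⟩ := hfin.fg_top
  have hsurj := Submodule.mkQ_surjective Γ
  let N : Submodule A M := Submodule.span A (Function.surjInv hsurj '' (s : Set (M ⧸ Γ)))
  have hNmap : N.map Γ.mkQ = ⊤ := by
    rw [Submodule.map_span, ← Set.image_comp, Function.comp_surjInv hsurj, Set.image_id]
    exact hs
  have hN : N.FG := Submodule.fg_span (s.finite_toSet.image _)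
  refine ⟨N, hN, ?_⟩
  let g : Γ →ₗ[A] (M ⧸ N) := N.mkQ ∘ₗ Γ.subtype
  have hg : Function.Surjective g := by
    intro y
    obtain ⟨x, rfl⟩ := Submodule.mkQ_surjective N y
    have h1 : Γ.mkQ x ∈ N.map Γ.mkQ := by rw [hNmap]; trivial
    obtain ⟨n, hn, hnx⟩ := h1
    have h2 : x - n ∈ Γ := by
      rw [← Submodule.Quotient.eq]
      exact hnx.symm
    refine ⟨⟨x - n, h2⟩, ?_⟩
    change N.mkQ (x - n) = N.mkQ x
    rw [Submodule.mkQ_apply, Submodule.mkQ_apply, Submodule.Quotient.eq]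
    rw [sub_sub_cancel_left]
    exact N.neg_mem hn
  exact isArtinian_of_surjective _ g hg

theorem precomplete_pi [IsPrecomplete 𝔞 A] (n : ℕ) : IsPrecomplete 𝔞 (Fin n → A) := by
  refine ⟨fun f hf => ?_⟩
  have h1 : ∀ i : Fin n, ∀ m : ℕ, ∀ x ∈ (𝔞 ^ m • ⊤ : Submodule A (Fin n → A)),
      x i ∈ (𝔞 ^ m • ⊤ : Submodule A A) := by
    intro i m x hx
    have h2 : LinearMap.proj (R := A) (φ := fun _ : Fin n => A) i x ∈
        (𝔞 ^ m • ⊤ : Submodule A (Fin n → A)).map (LinearMap.proj i) := ⟨x, hx, rfl⟩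
    rw [Submodule.map_smul''] at h2
    exact Submodule.smul_mono le_rfl le_top h2
  have h3 : ∀ i : Fin n, ∃ L : A, ∀ k, f k i ≡ L [SMOD (𝔞 ^ k • ⊤ : Submodule A A)] := by
    intro i
    refine IsPrecomplete.prec' (I := 𝔞) (fun k => f k i) ?_
    intro k l hkl
    have h4 := hf hkl
    rw [SModEq.sub_mem] at h4 ⊢
    exact h1 i k _ h4
  choose L hL using h3
  refine ⟨L, fun k => ?_⟩
  rw [SModEq.sub_mem]
  have h5 : f k - L = ∑ i : Fin n, (f k i - L i) • (Pi.single i 1 : Fin n → A) := by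
    funext j
    rw [Finset.sum_apply, Pi.sub_apply]
    rw [Finset.sum_eq_single j]
    · simp
    · intro i _ hij
      simp [Pi.single_eq_of_ne hij.symm]
    · intro h; exact absurd (Finset.mem_univ _) h
  rw [h5]
  refine Submodule.sum_mem _ fun i _ => Submodule.smul_mem_smul ?_ trivial
  have h6 := hL i k
  rw [SModEq.sub_mem] at h6
  simpa using h6

theorem precomplete_fg [IsPrecomplete 𝔞 A] (N : Type v) [AddCommGroup N] [Module A N] [Module.Finite A N] :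
    IsPrecomplete 𝔞 N := by
  obtain ⟨n, π, hπ⟩ := Module.Finite.exists_fin' A N
  have h0 := precomplete_pi (𝔞 := 𝔞) n
  refine ⟨fun f hf => ?_⟩
  have h1 : ∀ k : ℕ, (𝔞 ^ k • ⊤ : Submodule A (Fin n → A)).map π = 𝔞 ^ k • ⊤ := by
    intro k
    rw [Submodule.map_smul'', Submodule.map_top, LinearMap.range_eq_top.mpr hπ]
  have h2 : ∀ k : ℕ, ∃ g ∈ (𝔞 ^ k • ⊤ : Submodule A (Fin n → A)), π g = f (k + 1) - f k := by
    intro k
    have h3 := (hf (Nat.le_succ k)).symm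
    rw [SModEq.sub_mem, ← h1 k] at h3
    obtain ⟨g, hg, hg2⟩ := h3
    exact ⟨g, hg, hg2⟩
  choose g hg hg2 using h2
  obtain ⟨g0, hg0⟩ := hπ (f 0)
  let F : ℕ → (Fin n → A) := fun k => g0 + ∑ j ∈ Finset.range k, g j
  have hF : ∀ k, π (F k) = f k := by
    intro k
    induction k with
    | zero => simp [F, hg0]
    | succ k ih =>
      have : F (k + 1) = F k + g k := by simp [F, Finset.sum_range_succ, add_assoc]
      rw [this, map_add, ih, hg2]; abel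
  have hF2 : ∀ {k l : ℕ}, k ≤ l → F k ≡ F l [SMOD (𝔞 ^ k • ⊤ : Submodule A (Fin n → A))] := by
    intro k l hkl
    rw [SModEq.sub_mem]
    induction l, hkl using Nat.le_induction with
    | base => rw [sub_self]; exact Submodule.zero_mem _
    | succ l hl ih =>
      have : F (l + 1) = F l + g l := by simp [F, Finset.sum_range_succ, add_assoc]
      rw [this, ← sub_sub]
      exact Submodule.sub_mem _ ih (Submodule.smul_mono_left (Ideal.pow_le_pow_right hl) (hg l))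
  obtain ⟨L, hL⟩ := h0.prec hF2
  refine ⟨π L, fun k => ?_⟩
  have h4 := hL k
  rw [SModEq.sub_mem] at h4 ⊢
  rw [← hF k, ← map_sub, ← h1 k]
  exact ⟨_, h4, rfl⟩

/-- countability of the quotients by powers -/
theorem countable_quot_pow [IsNoetherianRing A] {P : Type v} [AddCommGroup P] [Module A P]
    (h : Countable (P ⧸ (𝔞 • ⊤ : Submodule A P))) (m : ℕ) :
    Countable (P ⧸ (𝔞 ^ m • ⊤ : Submodule A P)) := by
  classical
  suffices h : ∃ T : Set P, T.Countable ∧ ∀ x : P, ∃ t ∈ T, x - t ∈ (𝔞 ^ m • ⊤ : Submodule A P) by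
    obtain ⟨T, hT, hx⟩ := h
    have := hT.to_subtype
    refine Function.Surjective.countable
      (f := fun t : T => (Submodule.Quotient.mk (t : P) : P ⧸ (𝔞 ^ m • ⊤ : Submodule A P))) ?_
    intro y
    obtain ⟨x, rfl⟩ := Submodule.mkQ_surjective _ y
    obtain ⟨t, ht, hxt⟩ := hx x
    refine ⟨⟨t, ht⟩, ?_⟩
    rw [Submodule.mkQ_apply]
    exact ((Submodule.Quotient.eq _).mpr hxt).symm
  induction m with
  | zero =>
    refine ⟨{0}, Set.countable_singleton 0, fun x => ⟨0, rfl, ?_⟩⟩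
    rw [pow_zero, Ideal.one_eq_top, Submodule.top_smul]
    trivial
  | succ m ih =>
    obtain ⟨T, hT, hx⟩ := ih
    obtain ⟨S, hS⟩ := (IsNoetherian.noetherian (𝔞 ^ m) : (𝔞 ^ m).FG)
    have hSmem : ∀ s : S, (s : A) ∈ 𝔞 ^ m := by
      intro s
      rw [← hS]
      exact Submodule.subset_span s.2
    let Ψ : (S → P ⧸ (𝔞 • ⊤ : Submodule A P)) → P := fun v => ∑ s : S, (s : A) • Quotient.out (v s)
    have hsum : ∀ y ∈ (𝔞 ^ m • ⊤ : Submodule A P), ∃ p : S → P, ∑ s : S, (s : A) • p s = y := by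
      intro y hy
      refine Submodule.smul_induction_on hy ?_ ?_
      · intro r hr q _
        rw [← hS] at hr
        obtain ⟨c, hc⟩ := Submodule.mem_span_finset'.mp hr
        refine ⟨fun s => c s • q, ?_⟩
        rw [← hc, Finset.sum_smul]
        refine Finset.sum_congr rfl fun s _ => ?_
        rw [smul_smul, smul_eq_mul, mul_comm]
      · rintro x y ⟨p, rfl⟩ ⟨q, rfl⟩
        refine ⟨p + q, ?_⟩
        rw [← Finset.sum_add_distrib]
        refine Finset.sum_congr rfl fun s _ => ?_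
        rw [Pi.add_apply, smul_add]
    have key : ∀ y ∈ (𝔞 ^ m • ⊤ : Submodule A P), ∃ v, y - Ψ v ∈ (𝔞 ^ (m + 1) • ⊤ : Submodule A P) := by
      intro y hy
      obtain ⟨p, rfl⟩ := hsum y hy
      refine ⟨fun s => Submodule.Quotient.mk (p s), ?_⟩
      have h1 : ∑ s : S, (s : A) • p s - Ψ (fun s => Submodule.Quotient.mk (p s)) =
          ∑ s : S, (s : A) • (p s - Quotient.out (Submodule.Quotient.mk (p s) : P ⧸ (𝔞 • ⊤ : Submodule A P))) := by
        simp only [Ψ, smul_sub, Finset.sum_sub_distrib]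
      rw [h1]
      refine Submodule.sum_mem _ fun s _ => ?_
      rw [pow_succ, Submodule.mul_smul]
      refine Submodule.smul_mem_smul (hSmem s) ?_
      rw [← Submodule.Quotient.eq]
      exact (Quotient.out_eq _).symm
    refine ⟨Set.image2 (· + ·) T (Set.range Ψ), hT.image2 (Set.countable_range Ψ) _, ?_⟩
    intro x
    obtain ⟨t, ht, hxt⟩ := hx x
    obtain ⟨v, hv⟩ := key (x - t) hxt
    exact ⟨t + Ψ v, ⟨t, ht, _, ⟨v, rfl⟩, rfl⟩, by rwa [← sub_sub]⟩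

end gen

end Pool.Agent.Helper40.TopB

namespace Pool.Agent.Helper62.Hovey

open Pool.Agent.Helper40.TopB

variable {A : Type v} [CommRing A] [IsNoetherianRing A] {𝔞 : Ideal A}
  {M : Type v} [AddCommGroup M] [Module A M]

/-- PACKET TOPB, 1 -/
theorem opn_complete [IsAdicComplete 𝔞 A] (h : AF A M) (m : Submodule A M → M)
    (hm : ∀ U ∈ Opn 𝔞 M, ∀ V ∈ Opn 𝔞 M, V ≤ U → m V - m U ∈ U) : ∃ x : M, ∀ U ∈ Opn 𝔞 M, x - m U ∈ U := by
  have h𝔞 : 𝔞 ≤ (⊥ : Ideal A).jacobson := IsAdicComplete.le_jacobson_bot 𝔞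
  obtain ⟨N, hN, hart⟩ := af_exists h
  have hU : ∀ k : ℕ, 𝔞 ^ k • N ∈ Opn 𝔞 M := fun k => ⟨N, hN, hart, k, le_rfl⟩
  have hmono : ∀ {k l : ℕ}, k ≤ l → 𝔞 ^ l • N ≤ 𝔞 ^ k • N := fun hkl =>
    Submodule.smul_mono_left (Ideal.pow_le_pow_right hkl)
  have : Module.Finite A N := Module.Finite.iff_fg.mpr hN
  have hpre : IsPrecomplete 𝔞 N := precomplete_fg N
  have hN0 : 𝔞 ^ 0 • N = N := by rw [pow_zero, Ideal.one_eq_top, Submodule.top_smul]
  have hsub : ∀ k : ℕ, (𝔞 ^ k • ⊤ : Submodule A N).map N.subtype = 𝔞 ^ k • N := by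
    intro k
    rw [Submodule.map_smul'', Submodule.map_top, Submodule.range_subtype]
  have hmem : ∀ (k : ℕ) (y : N), (y : M) ∈ 𝔞 ^ k • N → y ∈ (𝔞 ^ k • ⊤ : Submodule A N) := by
    intro k y hy
    rw [← hsub k] at hy
    obtain ⟨z, hz, hzy⟩ := hy
    have : z = y := Subtype.ext hzy
    rw [← this]
    exact hz
  have hy : ∀ k : ℕ, m (𝔞 ^ k • N) - m (𝔞 ^ 0 • N) ∈ N := by
    intro k
    have h1 := hm _ (hU 0) _ (hU k) (hmono (Nat.zero_le k))
    rw [hN0] at h1 ⊢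
    exact h1
  let y : ℕ → N := fun k => ⟨m (𝔞 ^ k • N) - m (𝔞 ^ 0 • N), hy k⟩
  obtain ⟨L, hL⟩ := hpre.prec (f := y) (by
    intro k l hkl
    refine SModEq.symm ?_
    rw [SModEq.sub_mem]
    apply hmem
    have h1 : ((y l - y k : N) : M) = m (𝔞 ^ l • N) - m (𝔞 ^ k • N) := by
      simp [y]
    rw [h1]
    exact hm _ (hU k) _ (hU l) (hmono hkl))
  have hx : ∀ k : ℕ, (m (𝔞 ^ 0 • N) + (L : M)) - m (𝔞 ^ k • N) ∈ 𝔞 ^ k • N := by
    intro k
    have h1 := (hL k).symm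
    rw [SModEq.sub_mem] at h1
    have h2 : ((L - y k : N) : M) ∈ 𝔞 ^ k • N := by
      rw [← hsub k]
      exact ⟨_, h1, rfl⟩
    have h3 : (m (𝔞 ^ 0 • N) + (L : M)) - m (𝔞 ^ k • N) = ((L - y k : N) : M) := by
      simp only [y, AddSubgroupClass.coe_sub]
      abel
    rw [h3]
    exact h2
  refine ⟨m (𝔞 ^ 0 • N) + L, ?_⟩
  intro U hUo
  obtain ⟨N', hN', hart', l, hl⟩ := hUo
  obtain ⟨j, hj⟩ := pow_le h𝔞 N N' hN hart'
  have hle : 𝔞 ^ (l + j) • N ≤ U := by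
    refine le_trans ?_ hl
    rw [pow_add, Submodule.mul_smul]
    exact Submodule.smul_mono le_rfl hj
  have h1 := hm U ⟨N', hN', hart', l, hl⟩ _ (hU (l + j)) hle
  have h2 := hle (hx (l + j))
  have h3 := U.add_mem h2 h1
  rwa [sub_add_sub_cancel] at h3

/-- PACKET TOPB, 2 -/
theorem opn_hausdorff [IsAdicComplete 𝔞 A] (h : AF A M) (x : M) (hx : ∀ U ∈ Opn 𝔞 M, x ∈ U) : x = 0 := by
  have h𝔞 : 𝔞 ≤ (⊥ : Ideal A).jacobson := IsAdicComplete.le_jacobson_bot 𝔞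
  obtain ⟨N, hN, hart⟩ := af_exists h
  have hU : ∀ k : ℕ, 𝔞 ^ k • N ∈ Opn 𝔞 M := fun k => ⟨N, hN, hart, k, le_rfl⟩
  have : Module.Finite A N := Module.Finite.iff_fg.mpr hN
  have hN0 : 𝔞 ^ 0 • N = N := by rw [pow_zero, Ideal.one_eq_top, Submodule.top_smul]
  have hxN : x ∈ N := by
    have := hx _ (hU 0)
    rwa [hN0] at this
  have hsub : ∀ k : ℕ, (𝔞 ^ k • ⊤ : Submodule A N).map N.subtype = 𝔞 ^ k • N := by
    intro k
    rw [Submodule.map_smul'', Submodule.map_top, Submodule.range_subtype]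
  have h1 : (⟨x, hxN⟩ : N) ∈ (⨅ i : ℕ, 𝔞 ^ i • ⊤ : Submodule A N) := by
    rw [Submodule.mem_iInf]
    intro k
    have h2 := hx _ (hU k)
    rw [← hsub k] at h2
    obtain ⟨z, hz, hzy⟩ := h2
    have : z = ⟨x, hxN⟩ := Subtype.ext hzy
    rw [← this]
    exact hz
  rw [Ideal.iInf_pow_smul_eq_bot_of_le_jacobson 𝔞 h𝔞, Submodule.mem_bot] at h1
  exact congrArg Subtype.val h1

/-- PACKET TOPB, 3 -/
theorem opn_slender [IsAdicComplete 𝔞 A] (Γ : Submodule A M) (h₁ : IsArtinian A Γ) (h₂ : Module.Finite A (M ⧸ Γ))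
    (h₃ : Countable ((M ⧸ Γ) ⧸ (𝔞 • ⊤ : Submodule A (M ⧸ Γ)))) (U : Submodule A M) (hU : U ∈ Opn 𝔞 M) :
    ∃ Γ' : Submodule A (M ⧸ U), IsArtinian A Γ' ∧
      ∀ f : (ℕ → A) →ₗ[A] (M ⧸ U), ∃ N : ℕ, ∀ n, N ≤ n → f (Pi.single n 1) ∈ Γ' := by
  have h𝔞 : 𝔞 ≤ (⊥ : Ideal A).jacobson := IsAdicComplete.le_jacobson_bot 𝔞
  obtain ⟨N', hN', hart', k, hk⟩ := hU
  let Γ₀ : Submodule A (M ⧸ U) := Γ.map U.mkQ
  have hΓ₀ : IsArtinian A Γ₀ := by
    have h4 : Γ.map U.mkQ = LinearMap.range (U.mkQ ∘ₗ Γ.subtype) := by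
      rw [LinearMap.range_comp, Submodule.range_subtype]
    change IsArtinian A (Γ.map U.mkQ)
    rw [h4]
    infer_instance
  -- the surjection of M / Γ
  let q : (M ⧸ Γ) →ₗ[A] ((M ⧸ U) ⧸ Γ₀) := Γ.liftQ (Γ₀.mkQ ∘ₗ U.mkQ) (by
    intro x hx
    rw [LinearMap.mem_ker, LinearMap.comp_apply, Submodule.mkQ_apply Γ₀, Submodule.Quotient.mk_eq_zero]
    exact ⟨x, hx, rfl⟩)
  have hqmk : ∀ x : M, q (Γ.mkQ x) = Γ₀.mkQ (U.mkQ x) := fun x => rfl
  have hq : Function.Surjective q := by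
    intro y
    obtain ⟨z, rfl⟩ := Submodule.mkQ_surjective _ y
    obtain ⟨x, rfl⟩ := Submodule.mkQ_surjective _ z
    exact ⟨Γ.mkQ x, rfl⟩
  have hfin : Module.Finite A ((M ⧸ U) ⧸ Γ₀) := Module.Finite.of_surjective q hq
  -- a power of the ideal is inside the image of N'
  let N'' : Submodule A (M ⧸ Γ) := N'.map Γ.mkQ
  have hart'' : IsArtinian A ((M ⧸ Γ) ⧸ N'') := by
    let g : (M ⧸ N') →ₗ[A] ((M ⧸ Γ) ⧸ N'') := N'.liftQ (N''.mkQ ∘ₗ Γ.mkQ) (by
      intro x hx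
      rw [LinearMap.mem_ker, LinearMap.comp_apply, Submodule.mkQ_apply N'', Submodule.Quotient.mk_eq_zero]
      exact ⟨x, hx, rfl⟩)
    refine isArtinian_of_surjective _ g ?_
    intro y
    obtain ⟨z, rfl⟩ := Submodule.mkQ_surjective _ y
    obtain ⟨x, rfl⟩ := Submodule.mkQ_surjective _ z
    exact ⟨N'.mkQ x, rfl⟩
  obtain ⟨j, hj⟩ := pow_le h𝔞 (⊤ : Submodule A (M ⧸ Γ)) N'' h₂.fg_top hart''
  have hker : (𝔞 ^ (k + j) • ⊤ : Submodule A (M ⧸ Γ)) ≤ LinearMap.ker q := by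
    rw [pow_add, Submodule.mul_smul]
    refine le_trans (Submodule.smul_mono le_rfl hj) ?_
    change 𝔞 ^ k • (N'.map Γ.mkQ) ≤ _
    rw [← Submodule.map_smul'']
    refine le_trans (Submodule.map_mono hk) ?_
    rintro _ ⟨u, hu, rfl⟩
    rw [LinearMap.mem_ker, hqmk, Submodule.mkQ_apply U, (Submodule.Quotient.mk_eq_zero U).mpr hu, map_zero]
  have hcount0 := countable_quot_pow h₃ (k + j)
  have hcount : Countable ((M ⧸ U) ⧸ Γ₀) := by
    let r : ((M ⧸ Γ) ⧸ (𝔞 ^ (k + j) • ⊤ : Submodule A (M ⧸ Γ))) →ₗ[A] ((M ⧸ U) ⧸ Γ₀) :=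
      Submodule.liftQ _ q hker
    have hr : Function.Surjective r := by
      intro y
      obtain ⟨x, rfl⟩ := hq y
      exact ⟨Submodule.Quotient.mk x, rfl⟩
    exact hr.countable
  exact almost_slender A (M ⧸ U) Γ₀ hΓ₀ hfin hcount

end Pool.Agent.Helper62.Hovey
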